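import Mathlib

/-!
# `p`-integral rational numbers, congruences, nested sums

Helper file for MP_3b7928_nt.
-/

namespace Pool.Agent.H39.SC
open Finset

/-- The subring of the `p`-integral rational numbers. -/
def O (p : ℕ) [hp : Fact p.Prime] : Subring ℚ where
  carrier := {x | padicNorm p x ≤ 1}
  mul_mem' := by
    intro a b ha hb
    simp only [Set.mem_ofPred_eq] at *
    rw [padicNorm.mul]
    exact mul_le_one₀ ha (padicNorm.nonneg _) hb
  one_mem' := by simp
  add_mem' := by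
    intro a b ha hb
    simp only [Set.mem_ofPred_eq] at *
    exact le_trans padicNorm.nonarchimedean (max_le ha hb)
  zero_mem' := by simp
  neg_mem' := by
    intro a ha
    simp only [Set.mem_ofPred_eq] at *
    rwa [padicNorm.neg]

theorem mem_O {p : ℕ} [hp : Fact p.Prime] {x : ℚ} : x ∈ O p ↔ padicNorm p x ≤ 1 := Iff.rfl

section
variable {p : ℕ} [hp : Fact p.Prime]

theorem inv_mem {k : ℕ} (hk : ¬ p ∣ k) : ((k : ℚ)⁻¹) ∈ O p := by
  rw [mem_O, ← one_div, padicNorm.div]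
  have h1 : padicNorm p (k : ℚ) = 1 := by
    rw [padicNorm.nat_eq_one_iff]; exact hk
  simp [h1]

theorem nat_mem (k : ℕ) : (k : ℚ) ∈ O p := natCast_mem (O p) k

theorem two_mem : (2 : ℚ) ∈ O p := by exact_mod_cast nat_mem (p := p) 2

/-- `a` is divisible by `p ^ m` in the ring of the `p`-integral numbers. -/
def M (p : ℕ) [hp : Fact p.Prime] (m : ℕ) (a : ℚ) : Prop := ∃ y ∈ O p, a = (p : ℚ) ^ m * y

theorem M.add {m : ℕ} {a b : ℚ} (ha : M p m a) (hb : M p m b) : M p m (a + b) := by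
  obtain ⟨y, hy, rfl⟩ := ha
  obtain ⟨z, hz, rfl⟩ := hb
  exact ⟨y + z, add_mem hy hz, by ring⟩

theorem M.neg {m : ℕ} {a : ℚ} (ha : M p m a) : M p m (-a) := by
  obtain ⟨y, hy, rfl⟩ := ha
  exact ⟨-y, neg_mem hy, by ring⟩

theorem M.sub {m : ℕ} {a b : ℚ} (ha : M p m a) (hb : M p m b) : M p m (a - b) := by
  rw [sub_eq_add_neg]; exact ha.add hb.neg

theorem M.mem {m : ℕ} {a : ℚ} (ha : M p m a) : a ∈ O p := by
  obtain ⟨y, hy, rfl⟩ := ha
  exact mul_mem (pow_mem (nat_mem p) m) hy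

theorem M.smul {m : ℕ} {a : ℚ} (c : ℚ) (hc : c ∈ O p) (ha : M p m a) : M p m (c * a) := by
  obtain ⟨y, hy, rfl⟩ := ha
  exact ⟨c * y, mul_mem hc hy, by ring⟩

theorem M.mul {m n : ℕ} {a b : ℚ} (ha : M p m a) (hb : M p n b) : M p (m + n) (a * b) := by
  obtain ⟨y, hy, rfl⟩ := ha
  obtain ⟨z, hz, rfl⟩ := hb
  exact ⟨y * z, mul_mem hy hz, by ring⟩

theorem M.mono {m n : ℕ} {a : ℚ} (ha : M p m a) (h : n ≤ m) : M p n a := by
  obtain ⟨y, hy, rfl⟩ := ha
  obtain ⟨d, rfl⟩ := Nat.exists_eq_add_of_le h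
  exact ⟨(p : ℚ) ^ d * y, mul_mem (pow_mem (nat_mem p) d) hy, by ring⟩

theorem M_pow (m : ℕ) {y : ℚ} (hy : y ∈ O p) : M p m ((p : ℚ) ^ m * y) := ⟨y, hy, rfl⟩

theorem M_zero (m : ℕ) : M p m 0 := ⟨0, zero_mem _, by ring⟩

theorem M_of_mem {a : ℚ} (ha : a ∈ O p) : M p 0 a := ⟨a, ha, by ring⟩

theorem M.sum {m : ℕ} {ι : Type*} {s : Finset ι} {f : ι → ℚ} (h : ∀ i ∈ s, M p m (f i)) :
    M p m (∑ i ∈ s, f i) := by
  classical
  induction s using Finset.induction_on with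
  | empty => simpa using M_zero m
  | insert a s ha ih =>
    rw [Finset.sum_insert ha]
    exact (h a (mem_insert_self a s)).add (ih fun i hi => h i (mem_insert_of_mem hi))

theorem M.congr {m : ℕ} {a b : ℚ} (ha : M p m a) (h : b = a) : M p m b := h ▸ ha

end

/-! ## Nested sums -/

/-- `1 / k ^ a` -/
def pw (a k : ℕ) : ℚ := ((k : ℚ)⁻¹) ^ a

/-- `∑ f i`, `1 ≤ i ≤ N` -/
def S1 (f : ℕ → ℚ) (N : ℕ) : ℚ := ∑ i ∈ range N, f (i + 1)

/-- `∑ f i * g j`, `1 ≤ i < j ≤ N` -/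
def S2 (f g : ℕ → ℚ) (N : ℕ) : ℚ := ∑ j ∈ range N, S1 f j * g (j + 1)

/-- `∑ f i * g j * h k`, `1 ≤ i < j < k ≤ N` -/
def S3 (f g h : ℕ → ℚ) (N : ℕ) : ℚ := ∑ k ∈ range N, S2 f g k * h (k + 1)

@[simp] theorem S1_zero (f : ℕ → ℚ) : S1 f 0 = 0 := by simp [S1]
@[simp] theorem S2_zero (f g : ℕ → ℚ) : S2 f g 0 = 0 := by simp [S2]
@[simp] theorem S3_zero (f g h : ℕ → ℚ) : S3 f g h 0 = 0 := by simp [S3]
theorem S1_succ (f : ℕ → ℚ) (N : ℕ) : S1 f (N + 1) = S1 f N + f (N + 1) := by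
  simp [S1, sum_range_succ]
theorem S2_succ (f g : ℕ → ℚ) (N : ℕ) : S2 f g (N + 1) = S2 f g N + S1 f N * g (N + 1) := by
  simp [S2, sum_range_succ]
theorem S3_succ (f g h : ℕ → ℚ) (N : ℕ) :
    S3 f g h (N + 1) = S3 f g h N + S2 f g N * h (N + 1) := by
  simp [S3, sum_range_succ]

theorem st11 (f g : ℕ → ℚ) (N : ℕ) :
    S1 f N * S1 g N = S2 f g N + S2 g f N + S1 (fun k => f k * g k) N := by
  induction N with
  | zero => simp
  | succ N ih =>
    rw [S1_succ, S1_succ, S2_succ, S2_succ, S1_succ]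
    linear_combination ih

theorem st12 (f g h : ℕ → ℚ) (N : ℕ) :
    S1 f N * S2 g h N = S3 f g h N + S3 g f h N + S3 g h f N
      + S2 (fun k => f k * g k) h N + S2 g (fun k => f k * h k) N := by
  induction N with
  | zero => simp
  | succ N ih =>
    rw [S1_succ, S2_succ, S3_succ, S3_succ, S3_succ, S2_succ, S2_succ]
    have := st11 f g N
    linear_combination ih + h (N + 1) * this

/-- The convolution lemma. -/
theorem conv (f g : ℕ → ℚ) (j : ℕ) :
    ∑ i ∈ range j, S1 f i * g (j - i) =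
      ∑ l ∈ range j, ∑ i ∈ range l, f (i + 1) * g (l - i) := by
  induction j with
  | zero => simp
  | succ j ih =>
    rw [sum_range_succ', sum_range_succ, ← ih]
    simp only [S1_zero, zero_mul, add_zero]
    rw [← sum_add_distrib]
    apply sum_congr rfl
    intro i hi
    rw [S1_succ, show j + 1 - (i + 1) = j - i by omega]
    ring

theorem sum_refl (f : ℕ → ℚ) (j : ℕ) : ∑ i ∈ range j, f (j - i) = S1 f j := by
  rw [S1, ← sum_range_reflect]
  apply sum_congr rfl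
  intro i hi
  rw [mem_range] at hi
  rw [show j - (j - 1 - i) = i + 1 by omega]

theorem sum_ind (F : ℕ → ℚ) {j N : ℕ} (h : j ≤ N) :
    ∑ i ∈ range j, F i = ∑ i ∈ range N, if i < j then F i else 0 := by
  rw [← sum_filter]
  apply sum_congr _ (fun _ _ => rfl)
  ext i
  simp only [mem_range, mem_filter]
  omega

theorem S2_ind (f g : ℕ → ℚ) (N : ℕ) :
    S2 f g N = ∑ j ∈ range N, ∑ i ∈ range N, if i < j then f (i + 1) * g (j + 1) else 0 := by
  unfold S2
  apply sum_congr rfl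
  intro j hj
  rw [mem_range] at hj
  rw [S1, sum_mul, sum_ind _ hj.le]

theorem S3_ind (f g h : ℕ → ℚ) (N : ℕ) :
    S3 f g h N = ∑ k ∈ range N, ∑ j ∈ range N, ∑ i ∈ range N,
      if i < j ∧ j < k then f (i + 1) * g (j + 1) * h (k + 1) else 0 := by
  unfold S3
  apply sum_congr rfl
  intro k hk
  rw [mem_range] at hk
  rw [S2, sum_mul, sum_ind _ hk.le]
  apply sum_congr rfl
  intro j hj
  rw [mem_range] at hj
  split_ifs with hjk
  · rw [S1, sum_mul, sum_mul, sum_ind _ hj.le]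
    apply sum_congr rfl
    intro i hi
    by_cases hij : i < j
    · simp [hij, hjk]
    · simp [hij]
  · symm
    apply sum_eq_zero
    intro i hi
    simp [hjk]

theorem refl_sum (F : ℕ → ℚ) (N : ℕ) : ∑ i ∈ range N, F i = ∑ i ∈ range N, F (N - 1 - i) :=
  (sum_range_reflect F N).symm

theorem rev1 (f : ℕ → ℚ) (N : ℕ) : S1 f N = S1 (fun k => f (N + 1 - k)) N := by
  unfold S1
  rw [refl_sum]
  apply sum_congr rfl
  intro i hi
  rw [mem_range] at hi
  show f _ = f _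
  congr 1
  omega

theorem rev2 (f g : ℕ → ℚ) (N : ℕ) :
    S2 f g N = S2 (fun k => g (N + 1 - k)) (fun k => f (N + 1 - k)) N := by
  rw [S2_ind, S2_ind, sum_comm, refl_sum]
  apply sum_congr rfl
  intro j hj
  rw [refl_sum]
  apply sum_congr rfl
  intro i hi
  rw [mem_range] at hi hj
  have h1 : N - 1 - j < N - 1 - i ↔ i < j := by omega
  simp only [h1]
  split_ifs
  · rw [show N - 1 - j + 1 = N + 1 - (j + 1) by omega,
      show N - 1 - i + 1 = N + 1 - (i + 1) by omega]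
    ring
  · rfl

theorem rev3 (f g h : ℕ → ℚ) (N : ℕ) :
    S3 f g h N = S3 (fun k => h (N + 1 - k)) (fun k => g (N + 1 - k))
      (fun k => f (N + 1 - k)) N := by
  rw [S3_ind, S3_ind]
  -- order of summation k, j, i -> i, j, k
  have e1 : ∀ G : ℕ → ℕ → ℕ → ℚ, ∑ k ∈ range N, ∑ j ∈ range N, ∑ i ∈ range N, G k j i =
      ∑ k ∈ range N, ∑ j ∈ range N, ∑ i ∈ range N, G (N - 1 - i) (N - 1 - j) (N - 1 - k) := by
    intro G
    calc ∑ k ∈ range N, ∑ j ∈ range N, ∑ i ∈ range N, G k j i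
        = ∑ i ∈ range N, ∑ j ∈ range N, ∑ k ∈ range N, G k j i := by
          rw [sum_comm]
          simp_rw [sum_comm (s := range N) (t := range N) (f := fun k i => G k _ i)]
          rw [sum_comm]
      _ = ∑ i ∈ range N, ∑ j ∈ range N, ∑ k ∈ range N, G (N - 1 - k) (N - 1 - j) (N - 1 - i) := by
          rw [refl_sum]
          apply sum_congr rfl; intro i _
          rw [refl_sum]
          apply sum_congr rfl; intro j _
          rw [refl_sum]
      _ = _ := rfl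
  rw [e1]
  apply sum_congr rfl
  intro k hk
  apply sum_congr rfl
  intro j hj
  apply sum_congr rfl
  intro i hi
  rw [mem_range] at hi hj hk
  have h1 : (N - 1 - k < N - 1 - j ∧ N - 1 - j < N - 1 - i) ↔ (i < j ∧ j < k) := by omega
  simp only [h1]
  split_ifs
  · rw [show N - 1 - j + 1 = N + 1 - (j + 1) by omega,
      show N - 1 - i + 1 = N + 1 - (i + 1) by omega,
      show N - 1 - k + 1 = N + 1 - (k + 1) by omega]
    ring
  · rfl

end Pool.Agent.H39.SC
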