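import Pool.Agent.H39.SC.Exact3

/-!
# Congruences: single sums, reflection

Helper file for MP_3b7928_nt.  Here `p = N + 1` is a prime greater than `7`.
-/

namespace Pool.Agent.H39.SC
open Finset

section
variable {p : ℕ} [hp : Fact p.Prime]

theorem p_ne : (p : ℚ) ≠ 0 := by exact_mod_cast hp.out.ne_zero

theorem M.div {m k : ℕ} {a : ℚ} (h : M p (k + m) ((p : ℚ) ^ k * a)) : M p m a := by
  obtain ⟨y, hy, e⟩ := h
  refine ⟨y, hy, ?_⟩
  have : (p : ℚ) ^ k ≠ 0 := pow_ne_zero _ p_ne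
  apply mul_left_cancel₀ this
  rw [e]; ring

theorem M.of_nat_mul {m : ℕ} {a : ℚ} {c : ℕ} (hc : ¬ p ∣ c) (h : M p m ((c : ℚ) * a)) :
    M p m a := by
  have hc0 : (c : ℚ) ≠ 0 := by
    rintro h0
    apply hc
    have : c = 0 := by exact_mod_cast h0
    rw [this]; exact dvd_zero p
  have := h.smul ((c : ℚ)⁻¹) (inv_mem hc)
  rwa [← mul_assoc, inv_mul_cancel₀ hc0, one_mul] at this

end

section
variable {N : ℕ} [hp : Fact (N + 1).Prime]

theorem pw_mem (a : ℕ) {k : ℕ} (h0 : 0 < k) (h1 : k ≤ N) : pw a k ∈ O (N + 1) := by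
  unfold pw
  apply pow_mem
  apply inv_mem
  intro hd
  have := Nat.le_of_dvd h0 hd
  omega

/-- values in the `p`-integral numbers -/
def Ov (N : ℕ) [Fact (N + 1).Prime] (f : ℕ → ℚ) : Prop := ∀ i < N, f (i + 1) ∈ O (N + 1)

theorem Ov_pw (a : ℕ) : Ov N (pw a) := fun _ hi => pw_mem a (by omega) (by omega)

theorem Ov_pw_refl (a : ℕ) : Ov N (fun k => pw a (N + 1 - k)) := fun i hi =>
  pw_mem a (k := N + 1 - (i + 1)) (by omega) (by omega)

theorem S1_mem {f : ℕ → ℚ} (hf : Ov N f) {n : ℕ} (hn : n ≤ N) : S1 f n ∈ O (N + 1) := by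
  apply sum_mem
  intro i hi
  rw [mem_range] at hi
  exact hf i (by omega)

theorem S2_mem {f g : ℕ → ℚ} (hf : Ov N f) (hg : Ov N g) {n : ℕ} (hn : n ≤ N) :
    S2 f g n ∈ O (N + 1) := by
  apply sum_mem
  intro i hi
  rw [mem_range] at hi
  exact mul_mem (S1_mem hf (by omega)) (hg i (by omega))

theorem S3_mem {f g h : ℕ → ℚ} (hf : Ov N f) (hg : Ov N g) (hh : Ov N h) {n : ℕ} (hn : n ≤ N) :
    S3 f g h n ∈ O (N + 1) := by
  apply sum_mem
  intro i hi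
  rw [mem_range] at hi
  exact mul_mem (S2_mem hf hg (by omega)) (hh i (by omega))

theorem refl_rel {i : ℕ} (hi : i < N) :
    pw 1 (N + 1 - (i + 1)) = -pw 1 (i + 1) + ((N + 1 : ℕ) : ℚ) * pw 1 (i + 1) * pw 1 (N + 1 - (i + 1)) := by
  simp only [pw, pow_one]
  rw [Nat.cast_sub (by omega)]
  have h1 : (((i + 1 : ℕ)) : ℚ) ≠ 0 := by positivity
  have h2 : ((N + 1 : ℕ) : ℚ) - ((i + 1 : ℕ) : ℚ) ≠ 0 := by
    have : ((i + 1 : ℕ) : ℚ) < ((N + 1 : ℕ) : ℚ) := by exact_mod_cast (by omega : i + 1 < N + 1)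
    linarith
  field_simp
  ring

theorem pw_eq (a k : ℕ) : pw a k = pw 1 k ^ a := by simp [pw]

theorem S1_congr {f g : ℕ → ℚ} {n : ℕ} (h : ∀ i < n, f (i + 1) = g (i + 1)) : S1 f n = S1 g n := by
  apply sum_congr rfl
  intro i hi
  exact h i (mem_range.mp hi)

theorem S1_M {f : ℕ → ℚ} {m n : ℕ} (h : ∀ i < n, M (N + 1) m (f (i + 1))) :
    M (N + 1) m (S1 f n) := M.sum fun i hi => h i (mem_range.mp hi)

/-- power sums -/
theorem pow_sum (r : ℕ) (hr0 : 0 < r) (hr : r < N) : M (N + 1) 1 (S1 (pw r) N) := by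
  classical
  set T : ℕ := ∑ k ∈ range N, (N.factorial / (k + 1)) ^ r with hT
  have hF : ¬ (N + 1) ∣ N.factorial := by
    rw [hp.out.dvd_factorial]; omega
  have hFz : ((N.factorial : ℕ) : ZMod (N + 1)) ≠ 0 := by
    rw [Ne, ZMod.natCast_eq_zero_iff]; exact hF
  have hTz : ((T : ℕ) : ZMod (N + 1)) = 0 := by
    have h1 : ((T : ℕ) : ZMod (N + 1)) = (N.factorial : ZMod (N + 1)) ^ r *
        ∑ k ∈ range N, (((k + 1 : ℕ) : ZMod (N + 1))⁻¹) ^ r := by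
      rw [hT, mul_sum]
      push_cast
      apply sum_congr rfl
      intro k hk
      rw [mem_range] at hk
      rw [← mul_pow]
      congr 1
      have hd : (k + 1) ∣ N.factorial := Nat.dvd_factorial (by omega) (by omega)
      obtain ⟨c, hc⟩ := hd
      have hk0 : ((k + 1 : ℕ) : ZMod (N + 1)) ≠ 0 := by
        rw [Ne, ZMod.natCast_eq_zero_iff]
        intro h
        have := Nat.le_of_dvd (by omega) h
        omega
      rw [hc, Nat.mul_div_cancel_left _ (by omega : 0 < k + 1)]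
      push_cast at hk0 ⊢
      field_simp
    rw [h1]
    have h2 : ∑ k ∈ range N, (((k + 1 : ℕ) : ZMod (N + 1))⁻¹) ^ r
        = ∑ x : ZMod (N + 1), (x⁻¹) ^ r := by
      have h3 : ∑ x : Fin (N + 1), ((((x : ℕ) : ZMod (N + 1))⁻¹) ^ r)
          = ∑ k ∈ range (N + 1), (((k : ℕ) : ZMod (N + 1))⁻¹) ^ r :=
        Fin.sum_univ_eq_sum_range (fun k => (((k : ℕ) : ZMod (N + 1))⁻¹) ^ r) (N + 1)
      rw [sum_range_succ'] at h3
      simp only [Nat.cast_zero, inv_zero, zero_pow hr0.ne', add_zero] at h3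
      rw [← h3]
      apply sum_congr rfl
      intro x _
      congr 2
      exact Fin.cast_val_eq_self x
    have h4 : ∑ x : ZMod (N + 1), (x⁻¹) ^ r = ∑ x : ZMod (N + 1), x ^ r :=
      Fintype.sum_bijective (fun x => x⁻¹) (inv_involutive.bijective) _ _ (fun x => rfl)
    rw [h2, h4, FiniteField.sum_pow_lt_card_sub_one (ZMod (N + 1)) r (by rw [ZMod.card]; omega),
      mul_zero]
  rw [ZMod.natCast_eq_zero_iff] at hTz
  obtain ⟨c, hc⟩ := hTz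
  have hF0 : (N.factorial : ℚ) ≠ 0 := by exact_mod_cast N.factorial_ne_zero
  have h5 : S1 (pw r) N = (T : ℚ) * ((N.factorial : ℚ)⁻¹) ^ r := by
    rw [hT]
    push_cast
    rw [sum_mul]
    apply sum_congr rfl
    intro k hk
    rw [mem_range] at hk
    have hd : (k + 1) ∣ N.factorial := Nat.dvd_factorial (by omega) (by omega)
    rw [← mul_pow, Nat.cast_div hd (by positivity), pw]
    congr 1
    field_simp
  refine ⟨(c : ℚ) * ((N.factorial : ℚ)⁻¹) ^ r, mul_mem (nat_mem c) (pow_mem (inv_mem hF) r), ?_⟩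
  rw [h5, hc]
  push_cast
  ring

theorem not_dvd_of_lt {c : ℕ} (h0 : 0 < c) (h : c < N + 1) : ¬ (N + 1) ∣ c := fun hd => by
  have := Nat.le_of_dvd h0 hd
  omega

theorem R1 : 2 * S1 (pw 1) N + ((N + 1 : ℕ) : ℚ) * S1 (pw 2) N + ((N + 1 : ℕ) : ℚ) ^ 2 * S1 (pw 3) N + ((N + 1 : ℕ) : ℚ) ^ 3 * S1 (pw 4) N
    + ((N + 1 : ℕ) : ℚ) ^ 4 * S1 (pw 5) N + ((N + 1 : ℕ) : ℚ) ^ 5 * S1 (pw 6) N
    = ((N + 1 : ℕ) : ℚ) ^ 6 * S1 (fun k => pw 6 k * pw 1 (N + 1 - k)) N := by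
  have h := rev1 (pw 1) N
  have h2 : S1 (fun k => pw 1 (N + 1 - k)) N + S1 (pw 1) N + ((N + 1 : ℕ) : ℚ) * S1 (pw 2) N
      + ((N + 1 : ℕ) : ℚ) ^ 2 * S1 (pw 3) N + ((N + 1 : ℕ) : ℚ) ^ 3 * S1 (pw 4) N
      + ((N + 1 : ℕ) : ℚ) ^ 4 * S1 (pw 5) N + ((N + 1 : ℕ) : ℚ) ^ 5 * S1 (pw 6) N
      - ((N + 1 : ℕ) : ℚ) ^ 6 * S1 (fun k => pw 6 k * pw 1 (N + 1 - k)) N = 0 := by
    simp only [S1, mul_sum, ← sum_add_distrib, ← sum_sub_distrib]
    apply sum_eq_zero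
    intro i hi
    rw [mem_range] at hi
    have h3 := refl_rel hi
    rw [pw_eq 2, pw_eq 3, pw_eq 4, pw_eq 5, pw_eq 6]
    generalize pw 1 (N + 1 - (i + 1)) = y at *
    generalize pw 1 (i + 1) = x at *
    linear_combination (1 + ((N + 1 : ℕ) : ℚ) * x + ((N + 1 : ℕ) : ℚ) ^ 2 * x ^ 2 + ((N + 1 : ℕ) : ℚ) ^ 3 * x ^ 3 + ((N + 1 : ℕ) : ℚ) ^ 4 * x ^ 4
      + ((N + 1 : ℕ) : ℚ) ^ 5 * x ^ 5) * h3
  linear_combination h2 + h

end

end Pool.Agent.H39.SC
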