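import Pool.Agent.H39.SC.Cong1

/-!
# Congruences for harmonic sums, double sums, reversal and shuffle

Helper file for MP_3b7928_nt.  Here `p = N + 1` is a prime greater than `7`.
-/

namespace Pool.Agent.H39.SC
open Finset

section
variable {p : ℕ} [hp : Fact p.Prime]

theorem M.pmul (k : ℕ) {m : ℕ} {a : ℚ} (h : M p m a) : M p (k + m) ((p : ℚ) ^ k * a) := by
  obtain ⟨y, hy, rfl⟩ := h
  exact ⟨y, hy, by ring⟩

theorem M.smulr {m : ℕ} {a : ℚ} (ha : M p m a) (c : ℚ) (hc : c ∈ O p) : M p m (a * c) := by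
  rw [mul_comm]; exact ha.smul c hc

theorem M.pow_sub {m : ℕ} {a b : ℚ} (ha : a ∈ O p) (hb : b ∈ O p) (h : M p m (a - b)) (n : ℕ) :
    M p m (a ^ n - b ^ n) := by
  induction n with
  | zero => simpa using M_zero m
  | succ n ih =>
    have : a ^ (n + 1) - b ^ (n + 1) = a ^ n * (a - b) + b * (a ^ n - b ^ n) := by ring
    rw [this]
    exact (h.smul _ (pow_mem ha n)).add (ih.smul _ hb)

theorem M.mul_sub {m : ℕ} {a b c d : ℚ} (hb : b ∈ O p) (hc : c ∈ O p)
    (h : M p m (a - b)) (h' : M p m (c - d)) : M p m (a * c - b * d) := by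
  have : a * c - b * d = c * (a - b) + b * (c - d) := by ring
  rw [this]
  exact (h.smul _ hc).add (h'.smul _ hb)

end

section
variable {N : ℕ} [hp : Fact (N + 1).Prime]

theorem y2_rel {i : ℕ} (hi : i < N) :
    pw 2 (N + 1 - (i + 1)) - (pw 2 (i + 1) + ((N + 1 : ℕ) : ℚ) * (2 * pw 3 (i + 1)))
      = ((N + 1 : ℕ) : ℚ) ^ 2 * (pw 2 (N + 1 - (i + 1)) * pw 2 (i + 1) * (3 - 2 * (((N + 1 : ℕ) : ℚ) * pw 1 (i + 1)))) := by
  have h3 := refl_rel hi
  rw [pw_eq 2, pw_eq 3, pw_eq 2 (i + 1)]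
  generalize pw 1 (N + 1 - (i + 1)) = y at *
  generalize pw 1 (i + 1) = x at *
  linear_combination (1 + 2 * (((N + 1 : ℕ) : ℚ) * x)) * ((1 - ((N + 1 : ℕ) : ℚ) * x) * y - x) * h3

theorem y1_rel {i : ℕ} (hi : i < N) :
    pw 1 (N + 1 - (i + 1)) - (-pw 1 (i + 1) + ((N + 1 : ℕ) : ℚ) * (-pw 2 (i + 1)))
      = ((N + 1 : ℕ) : ℚ) ^ 2 * (pw 1 (N + 1 - (i + 1)) * pw 2 (i + 1)) := by
  have h3 := refl_rel hi
  rw [pw_eq 2]
  generalize pw 1 (N + 1 - (i + 1)) = y at *
  generalize pw 1 (i + 1) = x at *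
  linear_combination (1 + ((N + 1 : ℕ) : ℚ) * x) * h3

theorem y3_rel {i : ℕ} (hi : i < N) :
    pw 3 (N + 1 - (i + 1)) + pw 3 (i + 1) + 3 * ((N + 1 : ℕ) : ℚ) * pw 4 (i + 1) + 6 * ((N + 1 : ℕ) : ℚ) ^ 2 * pw 5 (i + 1)
      + 10 * ((N + 1 : ℕ) : ℚ) ^ 3 * pw 6 (i + 1)
      = ((N + 1 : ℕ) : ℚ) ^ 4 * (pw 3 (N + 1 - (i + 1)) * pw 4 (i + 1) *
        (15 - 24 * (((N + 1 : ℕ) : ℚ) * pw 1 (i + 1)) + 10 * (((N + 1 : ℕ) : ℚ) * pw 1 (i + 1)) ^ 2)) := by
  have h3 := refl_rel hi
  rw [pw_eq 3, pw_eq 3 (i + 1), pw_eq 4, pw_eq 5, pw_eq 6]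
  generalize pw 1 (N + 1 - (i + 1)) = y at *
  generalize pw 1 (i + 1) = x at *
  linear_combination (1 + 3 * (((N + 1 : ℕ) : ℚ) * x) + 6 * (((N + 1 : ℕ) : ℚ) * x) ^ 2 + 10 * (((N + 1 : ℕ) : ℚ) * x) ^ 3) *
    (((1 - ((N + 1 : ℕ) : ℚ) * x) * y) ^ 2 - ((1 - ((N + 1 : ℕ) : ℚ) * x) * y) * x + x ^ 2) * h3

theorem y5_rel {i : ℕ} (hi : i < N) :
    pw 5 (N + 1 - (i + 1)) + pw 5 (i + 1) + 5 * ((N + 1 : ℕ) : ℚ) * pw 6 (i + 1)
      = ((N + 1 : ℕ) : ℚ) ^ 2 * (pw 5 (N + 1 - (i + 1)) * pw 2 (i + 1) *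
        (15 - 40 * (((N + 1 : ℕ) : ℚ) * pw 1 (i + 1)) + 45 * (((N + 1 : ℕ) : ℚ) * pw 1 (i + 1)) ^ 2
          - 24 * (((N + 1 : ℕ) : ℚ) * pw 1 (i + 1)) ^ 3 + 5 * (((N + 1 : ℕ) : ℚ) * pw 1 (i + 1)) ^ 4)) := by
  have h3 := refl_rel hi
  rw [pw_eq 5, pw_eq 5 (i + 1), pw_eq 2, pw_eq 6]
  generalize pw 1 (N + 1 - (i + 1)) = y at *
  generalize pw 1 (i + 1) = x at *
  linear_combination (1 + 5 * (((N + 1 : ℕ) : ℚ) * x)) *
    (((1 - ((N + 1 : ℕ) : ℚ) * x) * y) ^ 4 - ((1 - ((N + 1 : ℕ) : ℚ) * x) * y) ^ 3 * x + ((1 - ((N + 1 : ℕ) : ℚ) * x) * y) ^ 2 * x ^ 2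
      - ((1 - ((N + 1 : ℕ) : ℚ) * x) * y) * x ^ 3 + x ^ 4) * h3

theorem pwr_mem (a : ℕ) {i : ℕ} (hi : i < N) : pw a (N + 1 - (i + 1)) ∈ O (N + 1) :=
  pw_mem a (by omega) (by omega)

theorem pws_mem (a : ℕ) {i : ℕ} (hi : i < N) : pw a (i + 1) ∈ O (N + 1) :=
  pw_mem a (by omega) (by omega)

theorem refl_M1 (a : ℕ) {i : ℕ} (hi : i < N) :
    M (N + 1) 1 (pw a (N + 1 - (i + 1)) - (-1) ^ a * pw a (i + 1)) := by
  have h1 : M (N + 1) 1 (pw 1 (N + 1 - (i + 1)) - (-pw 1 (i + 1))) := by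
    refine ⟨pw 1 (i + 1) * pw 1 (N + 1 - (i + 1)), mul_mem (pws_mem 1 hi) (pwr_mem 1 hi), ?_⟩
    have := refl_rel hi
    linear_combination this
  have h2 := M.pow_sub (pwr_mem 1 hi) (neg_mem (pws_mem 1 hi)) h1 a
  rw [neg_pow (pw 1 (i + 1)) a, ← pw_eq, ← pw_eq] at h2
  exact h2

theorem R3 : M (N + 1) 4 (2 * S1 (pw 3) N + 3 * ((N + 1 : ℕ) : ℚ) * S1 (pw 4) N + 6 * ((N + 1 : ℕ) : ℚ) ^ 2 * S1 (pw 5) N
    + 10 * ((N + 1 : ℕ) : ℚ) ^ 3 * S1 (pw 6) N) := by
  have h := rev1 (pw 3) N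
  have h2 : M (N + 1) 4 (S1 (fun k => pw 3 (N + 1 - k)) N + S1 (pw 3) N + 3 * ((N + 1 : ℕ) : ℚ) * S1 (pw 4) N
      + 6 * ((N + 1 : ℕ) : ℚ) ^ 2 * S1 (pw 5) N + 10 * ((N + 1 : ℕ) : ℚ) ^ 3 * S1 (pw 6) N) := by
    simp only [S1, mul_sum, ← sum_add_distrib]
    apply M.sum
    intro i hi
    rw [mem_range] at hi
    rw [y3_rel hi]
    have h1 := pwr_mem 3 hi
    have h2 := pws_mem 4 hi
    have h3 := pws_mem 1 hi
    exact M_pow 4 (by (repeat' (first | with_reducible assumption | with_reducible exact nat_mem _ | with_reducible exact one_mem _ | with_reducible exact zero_mem _ | with_reducible exact ofNat_mem _ _ | with_reducible apply add_mem | with_reducible apply sub_mem | with_reducible apply mul_mem | with_reducible apply pow_mem | with_reducible apply neg_mem)))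
  exact h2.congr (by linear_combination h)

theorem R5 : M (N + 1) 2 (2 * S1 (pw 5) N + 5 * ((N + 1 : ℕ) : ℚ) * S1 (pw 6) N) := by
  have h := rev1 (pw 5) N
  have h2 : M (N + 1) 2 (S1 (fun k => pw 5 (N + 1 - k)) N + S1 (pw 5) N
      + 5 * ((N + 1 : ℕ) : ℚ) * S1 (pw 6) N) := by
    simp only [S1, mul_sum, ← sum_add_distrib]
    apply M.sum
    intro i hi
    rw [mem_range] at hi
    rw [y5_rel hi]
    have h1 := pwr_mem 5 hi
    have h2 := pws_mem 2 hi
    have h3 := pws_mem 1 hi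
    exact M_pow 2 (by (repeat' (first | with_reducible assumption | with_reducible exact nat_mem _ | with_reducible exact one_mem _ | with_reducible exact zero_mem _ | with_reducible exact ofNat_mem _ _ | with_reducible apply add_mem | with_reducible apply sub_mem | with_reducible apply mul_mem | with_reducible apply pow_mem | with_reducible apply neg_mem)))
  exact h2.congr (by linear_combination h)

theorem H5 (h7 : 7 < N + 1) : M (N + 1) 2 (S1 (pw 5) N) := by
  have h6 := pow_sum (N := N) 6 (by omega) (by omega)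
  have h1 := R5 (N := N)
  have h2 : M (N + 1) 2 ((2 : ℕ) * S1 (pw 5) N) :=
    (h1.sub ((h6.pmul 1).smul 5 (by (repeat' (first | with_reducible assumption | with_reducible exact nat_mem _ | with_reducible exact one_mem _ | with_reducible exact zero_mem _ | with_reducible exact ofNat_mem _ _ | with_reducible apply add_mem | with_reducible apply sub_mem | with_reducible apply mul_mem | with_reducible apply pow_mem | with_reducible apply neg_mem))))).congr (by push_cast; ring)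
  exact h2.of_nat_mul (not_dvd_of_lt (by omega) (by omega))

theorem E2 (h7 : 7 < N + 1) : M (N + 1) 4 (2 * S1 (pw 3) N + 3 * ((N + 1 : ℕ) : ℚ) * S1 (pw 4) N) := by
  have h6 := pow_sum (N := N) 6 (by omega) (by omega)
  have h5 := H5 h7
  exact ((R3.sub ((h5.pmul 2).smul 6 (by (repeat' (first | with_reducible assumption | with_reducible exact nat_mem _ | with_reducible exact one_mem _ | with_reducible exact zero_mem _ | with_reducible exact ofNat_mem _ _ | with_reducible apply add_mem | with_reducible apply sub_mem | with_reducible apply mul_mem | with_reducible apply pow_mem | with_reducible apply neg_mem))))).sub ((h6.pmul 3).smul 10 (by (repeat' (first | with_reducible assumption | with_reducible exact nat_mem _ | with_reducible exact one_mem _ | with_reducible exact zero_mem _ | with_reducible exact ofNat_mem _ _ | with_reducible apply add_mem | with_reducible apply sub_mem | with_reducible apply mul_mem | with_reducible apply pow_mem | with_reducible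 apply neg_mem))))).congr
    (by ring)

theorem H3 (h7 : 7 < N + 1) : M (N + 1) 2 (S1 (pw 3) N) := by
  have h4 := pow_sum (N := N) 4 (by omega) (by omega)
  have h1 := (E2 h7).mono (show 2 ≤ 4 by omega)
  have h2 : M (N + 1) 2 ((2 : ℕ) * S1 (pw 3) N) :=
    (h1.sub ((h4.pmul 1).smul 3 (by (repeat' (first | with_reducible assumption | with_reducible exact nat_mem _ | with_reducible exact one_mem _ | with_reducible exact zero_mem _ | with_reducible exact ofNat_mem _ _ | with_reducible apply add_mem | with_reducible apply sub_mem | with_reducible apply mul_mem | with_reducible apply pow_mem | with_reducible apply neg_mem))))).congr (by push_cast; ring)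
  exact h2.of_nat_mul (not_dvd_of_lt (by omega) (by omega))

theorem E1 (h7 : 7 < N + 1) :
    M (N + 1) 6 (6 * S1 (pw 1) N + 3 * ((N + 1 : ℕ) : ℚ) * S1 (pw 2) N + ((N + 1 : ℕ) : ℚ) ^ 2 * S1 (pw 3) N) := by
  have h6 := (pow_sum (N := N) 6 (by omega) (by omega)).pmul 5
  have h5 := (H5 h7).pmul 4
  have h4 := (E2 h7).pmul 2
  have h3 := R1 (N := N)
  have h2 : M (N + 1) 6 (((N + 1 : ℕ) : ℚ) ^ 6 * S1 (fun k => pw 6 k * pw 1 (N + 1 - k)) N) :=
    M_pow 6 (S1_mem (fun i hi => mul_mem (pws_mem 6 hi) (pwr_mem 1 hi)) le_rfl)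
  exact ((((h2.smul 3 (by (repeat' (first | with_reducible assumption | with_reducible exact nat_mem _ | with_reducible exact one_mem _ | with_reducible exact zero_mem _ | with_reducible exact ofNat_mem _ _ | with_reducible apply add_mem | with_reducible apply sub_mem | with_reducible apply mul_mem | with_reducible apply pow_mem | with_reducible apply neg_mem)))).sub (h6.smul 3 (by (repeat' (first | with_reducible assumption | with_reducible exact nat_mem _ | with_reducible exact one_mem _ | with_reducible exact zero_mem _ | with_reducible exact ofNat_mem _ _ | with_reducible apply add_mem | with_reducible apply sub_mem | with_reducible apply mul_mem | with_reducible apply pow_mem | with_reducible apply neg_mem))))).sub (h5.smul 3 (by (repeat' (first | with_reducible assumption | with_reducible exact nat_mem _ | with_reducible exact one_mem _ | with_reducible exact zero_mem _ | with_reducible exact ofNat_mem _ _ | with_reducible apply add_mem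 | with_reducible apply sub_mem | with_reducible apply mul_mem | with_reducible apply pow_mem | with_reducible apply neg_mem))))).sub h4).congr
    (by linear_combination 3 * h3)

theorem H1 (h7 : 7 < N + 1) : M (N + 1) 2 (S1 (pw 1) N) := by
  have h1 := (E1 h7).mono (show 2 ≤ 6 by omega)
  have h2 := (pow_sum (N := N) 2 (by omega) (by omega)).pmul 1
  have h3 := ((H3 h7).mem)
  have h4 : M (N + 1) 2 ((6 : ℕ) * S1 (pw 1) N) :=
    ((h1.sub (h2.smul 3 (by (repeat' (first | with_reducible assumption | with_reducible exact nat_mem _ | with_reducible exact one_mem _ | with_reducible exact zero_mem _ | with_reducible exact ofNat_mem _ _ | with_reducible apply add_mem | with_reducible apply sub_mem | with_reducible apply mul_mem | with_reducible apply pow_mem | with_reducible apply neg_mem))))).sub (M_pow 2 h3)).congr (by push_cast; ring)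
  exact h4.of_nat_mul (not_dvd_of_lt (by omega) (by omega))

theorem H_M1 (h7 : 7 < N + 1) (r : ℕ) (h0 : 0 < r) (h6 : r ≤ 6) : M (N + 1) 1 (S1 (pw r) N) :=
  pow_sum r h0 (by omega)

/-! ## Reversal modulo `p` -/

theorem S1_sub_M {f f' : ℕ → ℚ} {m : ℕ} (h : ∀ i < N, M (N + 1) m (f (i + 1) - f' (i + 1)))
    {n : ℕ} (hn : n ≤ N) : M (N + 1) m (S1 f n - S1 f' n) := by
  simp only [S1, ← sum_sub_distrib]
  apply M.sum
  intro i hi
  rw [mem_range] at hi
  exact h i (by omega)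

theorem S2_sub_M {f f' g g' : ℕ → ℚ} {m : ℕ} (hf' : Ov N f') (hg : Ov N g)
    (h : ∀ i < N, M (N + 1) m (f (i + 1) - f' (i + 1)))
    (h' : ∀ i < N, M (N + 1) m (g (i + 1) - g' (i + 1)))
    {n : ℕ} (hn : n ≤ N) : M (N + 1) m (S2 f g n - S2 f' g' n) := by
  simp only [S2, ← sum_sub_distrib]
  apply M.sum
  intro i hi
  rw [mem_range] at hi
  exact M.mul_sub (S1_mem hf' (by omega)) (hg i (by omega)) (S1_sub_M h (by omega)) (h' i (by omega))

theorem S3_sub_M {f f' g g' k k' : ℕ → ℚ} {m : ℕ} (hf' : Ov N f') (hg : Ov N g)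
    (hg' : Ov N g') (hk : Ov N k)
    (h : ∀ i < N, M (N + 1) m (f (i + 1) - f' (i + 1)))
    (h' : ∀ i < N, M (N + 1) m (g (i + 1) - g' (i + 1)))
    (h'' : ∀ i < N, M (N + 1) m (k (i + 1) - k' (i + 1)))
    {n : ℕ} (hn : n ≤ N) : M (N + 1) m (S3 f g k n - S3 f' g' k' n) := by
  simp only [S3, ← sum_sub_distrib]
  apply M.sum
  intro i hi
  rw [mem_range] at hi
  exact M.mul_sub (S2_mem hf' hg' (by omega)) (hk i (by omega))
    (S2_sub_M hf' hg h h' (by omega)) (h'' i (by omega))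

theorem S2_smul (a b : ℚ) (f g : ℕ → ℚ) (n : ℕ) :
    S2 (fun k => a * f k) (fun k => b * g k) n = a * b * S2 f g n := by
  simp only [S2, S1, mul_sum, sum_mul]
  apply sum_congr rfl; intro i _
  apply sum_congr rfl; intro j _
  ring

theorem S3_smul (a b c : ℚ) (f g h : ℕ → ℚ) (n : ℕ) :
    S3 (fun k => a * f k) (fun k => b * g k) (fun k => c * h k) n = a * b * c * S3 f g h n := by
  simp only [S3, S2_smul, mul_sum]
  apply sum_congr rfl; intro i _
  ring

theorem Ov_s (a : ℕ) : Ov N (fun k => (-1) ^ a * pw a k) := fun _ hi =>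
  mul_mem (pow_mem (neg_mem (one_mem _)) a) (pws_mem a hi)

theorem rev2_M (a b : ℕ) :
    M (N + 1) 1 (S2 (pw a) (pw b) N - (-1) ^ (a + b) * S2 (pw b) (pw a) N) := by
  rw [rev2 (pw a) (pw b)]
  have h := S2_sub_M (N := N) (m := 1) (f := fun k => pw b (N + 1 - k))
    (f' := fun k => (-1) ^ b * pw b k) (g := fun k => pw a (N + 1 - k))
    (g' := fun k => (-1) ^ a * pw a k) (Ov_s b) (Ov_pw_refl a)
    (fun i hi => refl_M1 b hi) (fun i hi => refl_M1 a hi) le_rfl
  rw [S2_smul] at h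
  exact h.congr (by rw [pow_add]; ring)

theorem rev3_M (a b c : ℕ) :
    M (N + 1) 1 (S3 (pw a) (pw b) (pw c) N - (-1) ^ (a + b + c) * S3 (pw c) (pw b) (pw a) N) := by
  rw [rev3 (pw a) (pw b) (pw c)]
  have h := S3_sub_M (N := N) (m := 1) (f := fun k => pw c (N + 1 - k))
    (f' := fun k => (-1) ^ c * pw c k) (g := fun k => pw b (N + 1 - k))
    (g' := fun k => (-1) ^ b * pw b k) (k := fun k => pw a (N + 1 - k))
    (k' := fun k => (-1) ^ a * pw a k) (Ov_s c) (Ov_pw_refl b) (Ov_s b) (Ov_pw_refl a)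
    (fun i hi => refl_M1 c hi) (fun i hi => refl_M1 b hi) (fun i hi => refl_M1 a hi) le_rfl
  rw [S3_smul] at h
  exact h.congr (by rw [pow_add, pow_add]; ring)

theorem pwf_mul (a b : ℕ) : (fun k => pw a k * pw b k) = pw (a + b) := by
  funext k
  exact pw_mul a b k

/-- double sums of weight 6 -/
theorem D6 (h7 : 7 < N + 1) (a b : ℕ) (ha : 0 < a) (hb : 0 < b) (hab : a + b = 6) :
    M (N + 1) 1 (S2 (pw a) (pw b) N) := by
  have h1 := rev2_M (N := N) a b
  have h2 := st11 (pw a) (pw b) N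
  rw [pwf_mul, hab] at h2
  have h3 := H_M1 h7 a ha (by omega)
  have h4 := H_M1 h7 b hb (by omega)
  have h6 := H_M1 h7 6 (by omega) le_rfl
  rw [hab, show ((-1 : ℚ)) ^ 6 = 1 by norm_num] at h1
  have h5 : M (N + 1) 1 ((2 : ℕ) * S2 (pw a) (pw b) N) :=
    ((h1.add ((h3.smulr _ h4.mem))).sub h6).congr (by push_cast; linear_combination -h2)
  exact h5.of_nat_mul (not_dvd_of_lt (by omega) (by omega))

end

end Pool.Agent.H39.SC
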