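import Pool.Agent.H39.SC.Cong2

/-!
# Shuffle relations, reversal modulo `p²`

Helper file for MP_3b7928_nt.  Here `p = N + 1` is a prime greater than `7`.
-/

namespace Pool.Agent.H39.SC
open Finset

section
variable {p : ℕ} [hp : Fact p.Prime]

theorem prod_app {a a0 a1 b b0 b1 : ℚ} (ha : M p 2 (a - (a0 + p * a1)))
    (hb : M p 2 (b - (b0 + p * b1))) (h0 : a0 ∈ O p) (h1 : a1 ∈ O p) (h2 : b0 ∈ O p)
    (h3 : b1 ∈ O p) : M p 2 (a * b - (a0 * b0 + p * (a1 * b0 + a0 * b1))) := by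
  have hA : a0 + p * a1 ∈ O p := by (repeat' (first | with_reducible assumption | with_reducible exact nat_mem _ | with_reducible exact one_mem _ | with_reducible exact zero_mem _ | with_reducible exact ofNat_mem _ _ | with_reducible apply add_mem | with_reducible apply sub_mem | with_reducible apply mul_mem | with_reducible apply pow_mem | with_reducible apply neg_mem))
  have hB : b ∈ O p := by
    have : b = (b - (b0 + p * b1)) + (b0 + p * b1) := by ring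
    rw [this]
    exact add_mem hb.mem (by (repeat' (first | with_reducible assumption | with_reducible exact nat_mem _ | with_reducible exact one_mem _ | with_reducible exact zero_mem _ | with_reducible exact ofNat_mem _ _ | with_reducible apply add_mem | with_reducible apply sub_mem | with_reducible apply mul_mem | with_reducible apply pow_mem | with_reducible apply neg_mem)))
  have : a * b - (a0 * b0 + p * (a1 * b0 + a0 * b1))
      = (a - (a0 + p * a1)) * b + (a0 + p * a1) * (b - (b0 + p * b1))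
        + (p : ℚ) ^ 2 * (a1 * b1) := by ring
  rw [this]
  exact ((ha.smulr b hB).add (hb.smul _ hA)).add (M_pow 2 (mul_mem h1 h3))

end

/-! ### Exact shuffle relations -/

theorem sum_conv_congr (F G : ℕ → ℚ) (l : ℕ) (h : ∀ i < l, F i = G i) :
    ∑ i ∈ range l, F i = ∑ i ∈ range l, G i :=
  sum_congr rfl fun i hi => h i (mem_range.mp hi)

theorem pf11 {l i : ℕ} (hi : i < l) : pw 1 (i + 1) * pw 1 (l - i)
    = pw 1 (l + 1) * (pw 1 (l - i) + pw 1 (i + 1)) := by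
  obtain ⟨c, rfl⟩ := Nat.exists_eq_add_of_lt hi
  rw [show i + c + 1 - i = c + 1 by omega]
  simp only [pw]
  push_cast
  have h1 : (i : ℚ) + 1 ≠ 0 := by positivity
  have h2 : (c : ℚ) + 1 ≠ 0 := by positivity
  have h3 : (i : ℚ) + c + 1 + 1 ≠ 0 := by positivity
  field_simp
  ring

theorem pf12 {l i : ℕ} (hi : i < l) : pw 1 (i + 1) * pw 2 (l - i)
    = pw 2 (l + 1) * (pw 1 (l - i) + pw 1 (i + 1)) + pw 1 (l + 1) * pw 2 (l - i) := by
  have h := pf11 hi
  rw [pw_eq 2, pw_eq 2]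
  linear_combination (pw 1 (l - i) + pw 1 (l + 1)) * h

theorem pf14 {l i : ℕ} (hi : i < l) : pw 4 (i + 1) * pw 1 (l - i)
    = pw 4 (l + 1) * (pw 1 (l - i) + pw 1 (i + 1)) + pw 3 (l + 1) * pw 2 (i + 1)
      + pw 2 (l + 1) * pw 3 (i + 1) + pw 1 (l + 1) * pw 4 (i + 1) := by
  have h := pf11 hi
  rw [pw_eq 2 (l + 1), pw_eq 3 (l + 1), pw_eq 4 (l + 1), pw_eq 4 (i + 1), pw_eq 2 (i + 1),
    pw_eq 3 (i + 1)]
  generalize pw 1 (i + 1) = n at *
  generalize pw 1 (l - i) = m at *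
  generalize pw 1 (l + 1) = s at *
  linear_combination (n ^ 3 + s * n ^ 2 + s ^ 2 * n + s ^ 3) * h

theorem pf23 {l i : ℕ} (hi : i < l) : pw 3 (i + 1) * pw 2 (l - i)
    = 3 * pw 4 (l + 1) * pw 1 (l - i) + pw 3 (l + 1) * pw 2 (l - i)
      + 3 * pw 4 (l + 1) * pw 1 (i + 1) + 2 * pw 3 (l + 1) * pw 2 (i + 1)
      + pw 2 (l + 1) * pw 3 (i + 1) := by
  have h := pf11 hi
  rw [pw_eq 2 (l - i), pw_eq 3 (i + 1), pw_eq 3 (l + 1), pw_eq 4 (l + 1), pw_eq 2 (i + 1),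
    pw_eq 2 (l + 1)]
  generalize pw 1 (i + 1) = n at *
  generalize pw 1 (l - i) = m at *
  generalize pw 1 (l + 1) = s at *
  linear_combination (n ^ 2 * m + s * (n * m + n ^ 2) + s ^ 2 * (2 * n + m) + 3 * s ^ 3) * h

theorem c11 (l : ℕ) : ∑ i ∈ range l, S1 (pw 1) i * pw 1 (l - i) = 2 * S2 (pw 1) (pw 1) l := by
  rw [conv, S2, mul_sum]
  apply sum_congr rfl
  intro l' _
  rw [sum_conv_congr _ (fun i => pw 1 (l' + 1) * (pw 1 (l' - i) + pw 1 (i + 1))) l'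
    (fun i hi => pf11 hi), ← mul_sum, sum_add_distrib, sum_refl]
  rw [S1]; ring

theorem c12 (l : ℕ) : ∑ i ∈ range l, S1 (pw 1) i * pw 2 (l - i)
    = 2 * S2 (pw 1) (pw 2) l + S2 (pw 2) (pw 1) l := by
  rw [conv, S2, S2, mul_sum, ← sum_add_distrib]
  apply sum_congr rfl
  intro l' _
  rw [sum_conv_congr _ (fun i => pw 2 (l' + 1) * (pw 1 (l' - i) + pw 1 (i + 1))
    + pw 1 (l' + 1) * pw 2 (l' - i)) l'
    (fun i hi => pf12 hi), sum_add_distrib, ← mul_sum, ← mul_sum, sum_add_distrib, sum_refl,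
    sum_refl]
  rw [S1, S1]; ring

theorem SH0 (N : ℕ) : ∑ i ∈ range N, S1 (pw 3) i * pw 2 (N - i)
    = 6 * S2 (pw 1) (pw 4) N + 3 * S2 (pw 2) (pw 3) N + S2 (pw 3) (pw 2) N := by
  rw [conv]
  simp only [S2, mul_sum, ← sum_add_distrib]
  apply sum_congr rfl
  intro l _
  rw [sum_conv_congr _ _ l (fun i hi => pf23 hi)]
  simp only [sum_add_distrib, ← mul_sum]
  rw [sum_refl, sum_refl]
  simp only [S1]
  ring

theorem SH1 (N : ℕ) : ∑ i ∈ range N, S2 (pw 1) (pw 4) i * pw 1 (N - i)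
    = 3 * S3 (pw 1) (pw 1) (pw 4) N + S3 (pw 1) (pw 2) (pw 3) N + S3 (pw 1) (pw 3) (pw 2) N
      + S3 (pw 1) (pw 4) (pw 1) N := by
  have h := conv (fun n => S1 (pw 1) (n - 1) * pw 4 n) (pw 1) N
  have e : ∀ i, S1 (fun n => S1 (pw 1) (n - 1) * pw 4 n) i = S2 (pw 1) (pw 4) i := fun i => by
    simp [S1, S2]
  simp only [e] at h
  rw [h]
  simp only [S3, mul_sum, ← sum_add_distrib]
  apply sum_congr rfl
  intro l _
  rw [sum_conv_congr _ (fun i => pw 4 (l + 1) * (S1 (pw 1) i * pw 1 (l - i))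
    + pw 4 (l + 1) * (S1 (pw 1) i * pw 1 (i + 1)) + pw 3 (l + 1) * (S1 (pw 1) i * pw 2 (i + 1))
    + pw 2 (l + 1) * (S1 (pw 1) i * pw 3 (i + 1)) + pw 1 (l + 1) * (S1 (pw 1) i * pw 4 (i + 1))) l
    (fun i hi => by
      have := pf14 hi
      simp only [Nat.add_sub_cancel]
      linear_combination S1 (pw 1) i * this)]
  simp only [sum_add_distrib, ← mul_sum]
  rw [c11]
  simp only [S2]
  ring

theorem SH2 (N : ℕ) : ∑ i ∈ range N, S2 (pw 1) (pw 3) i * pw 2 (N - i)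
    = 9 * S3 (pw 1) (pw 1) (pw 4) N + 4 * S3 (pw 1) (pw 2) (pw 3) N + S3 (pw 2) (pw 1) (pw 3) N
      + S3 (pw 1) (pw 3) (pw 2) N := by
  have h := conv (fun n => S1 (pw 1) (n - 1) * pw 3 n) (pw 2) N
  have e : ∀ i, S1 (fun n => S1 (pw 1) (n - 1) * pw 3 n) i = S2 (pw 1) (pw 3) i := fun i => by
    simp [S1, S2]
  simp only [e] at h
  rw [h]
  simp only [S3, mul_sum, ← sum_add_distrib]
  apply sum_congr rfl
  intro l _
  rw [sum_conv_congr _ (fun i => 3 * pw 4 (l + 1) * (S1 (pw 1) i * pw 1 (l - i))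
    + pw 3 (l + 1) * (S1 (pw 1) i * pw 2 (l - i))
    + 3 * pw 4 (l + 1) * (S1 (pw 1) i * pw 1 (i + 1))
    + 2 * pw 3 (l + 1) * (S1 (pw 1) i * pw 2 (i + 1))
    + pw 2 (l + 1) * (S1 (pw 1) i * pw 3 (i + 1))) l
    (fun i hi => by
      have := pf23 hi
      simp only [Nat.add_sub_cancel]
      linear_combination S1 (pw 1) i * this)]
  simp only [sum_add_distrib, ← mul_sum]
  rw [c11, c12]
  simp only [S2]
  ring

section
variable {N : ℕ} [hp : Fact (N + 1).Prime]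

theorem S1_app {f f0 f1 : ℕ → ℚ}
    (h : ∀ i < N, M (N + 1) 2 (f (i + 1) - (f0 (i + 1) + ((N + 1 : ℕ) : ℚ) * f1 (i + 1))))
    {n : ℕ} (hn : n ≤ N) : M (N + 1) 2 (S1 f n - (S1 f0 n + ((N + 1 : ℕ) : ℚ) * S1 f1 n)) := by
  simp only [S1, mul_sum, ← sum_sub_distrib, ← sum_add_distrib]
  apply M.sum
  intro i hi
  rw [mem_range] at hi
  exact h i (by omega)

theorem S2_app {f f0 f1 g g0 g1 : ℕ → ℚ}
    (h : ∀ i < N, M (N + 1) 2 (f (i + 1) - (f0 (i + 1) + ((N + 1 : ℕ) : ℚ) * f1 (i + 1))))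
    (h' : ∀ i < N, M (N + 1) 2 (g (i + 1) - (g0 (i + 1) + ((N + 1 : ℕ) : ℚ) * g1 (i + 1))))
    (hf0 : Ov N f0) (hf1 : Ov N f1) (hg0 : Ov N g0) (hg1 : Ov N g1)
    {n : ℕ} (hn : n ≤ N) :
    M (N + 1) 2 (S2 f g n - (S2 f0 g0 n + ((N + 1 : ℕ) : ℚ) * (S2 f1 g0 n + S2 f0 g1 n))) := by
  simp only [S2, mul_sum, ← sum_sub_distrib, ← sum_add_distrib]
  apply M.sum
  intro i hi
  rw [mem_range] at hi
  exact prod_app (S1_app h (by omega)) (h' i (by omega)) (S1_mem hf0 (by omega))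
    (S1_mem hf1 (by omega)) (hg0 i (by omega)) (hg1 i (by omega))

theorem S3_app {f f0 f1 g g0 g1 k k0 k1 : ℕ → ℚ}
    (h : ∀ i < N, M (N + 1) 2 (f (i + 1) - (f0 (i + 1) + ((N + 1 : ℕ) : ℚ) * f1 (i + 1))))
    (h' : ∀ i < N, M (N + 1) 2 (g (i + 1) - (g0 (i + 1) + ((N + 1 : ℕ) : ℚ) * g1 (i + 1))))
    (h'' : ∀ i < N, M (N + 1) 2 (k (i + 1) - (k0 (i + 1) + ((N + 1 : ℕ) : ℚ) * k1 (i + 1))))
    (hf0 : Ov N f0) (hf1 : Ov N f1) (hg0 : Ov N g0) (hg1 : Ov N g1)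
    (hk0 : Ov N k0) (hk1 : Ov N k1)
    {n : ℕ} (hn : n ≤ N) :
    M (N + 1) 2 (S3 f g k n - (S3 f0 g0 k0 n
      + ((N + 1 : ℕ) : ℚ) * (S3 f1 g0 k0 n + S3 f0 g1 k0 n + S3 f0 g0 k1 n))) := by
  simp only [S3, mul_sum, ← sum_sub_distrib, ← sum_add_distrib]
  apply M.sum
  intro i hi
  rw [mem_range] at hi
  have := prod_app (S2_app h h' hf0 hf1 hg0 hg1 (n := i) (by omega)) (h'' i (by omega))
    (S2_mem hf0 hg0 (by omega)) (add_mem (S2_mem hf1 hg0 (by omega)) (S2_mem hf0 hg1 (by omega)))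
    (hk0 i (by omega)) (hk1 i (by omega))
  exact this.congr (by ring)

theorem T222 (h7 : 7 < N + 1) : M (N + 1) 1 (S3 (pw 2) (pw 2) (pw 2) N) := by
  have h := st12 (pw 2) (pw 2) (pw 2) N
  rw [pwf_mul] at h
  have h1 := H_M1 h7 2 (by omega) (by omega)
  have h2 := D6 h7 4 2 (by omega) (by omega) rfl
  have h3 := D6 h7 2 4 (by omega) (by omega) rfl
  have h4 : S2 (pw 2) (pw 2) N ∈ O (N + 1) := S2_mem (Ov_pw 2) (Ov_pw 2) le_rfl
  have h5 : M (N + 1) 1 ((3 : ℕ) * S3 (pw 2) (pw 2) (pw 2) N) :=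
    (((h1.smulr _ h4).sub h2).sub h3).congr (by push_cast; linear_combination -h)
  exact h5.of_nat_mul (not_dvd_of_lt (by omega) (by omega))

/-- reversal of `H(1,2,2)` modulo `p²` -/
theorem E7 (h7 : 7 < N + 1) : M (N + 1) 2 (S3 (pw 1) (pw 2) (pw 2) N + S3 (pw 2) (pw 2) (pw 1) N
    + 2 * ((N + 1 : ℕ) : ℚ) * (S3 (pw 3) (pw 2) (pw 1) N + S3 (pw 2) (pw 3) (pw 1) N)) := by
  have h2 : ∀ i < N, M (N + 1) 2 (pw 2 (N + 1 - (i + 1)) - (pw 2 (i + 1) + ((N + 1 : ℕ) : ℚ) * (2 * pw 3 (i + 1)))) := by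
    intro i hi
    rw [y2_rel hi]
    have h1 := pwr_mem 2 hi
    have h2 := pws_mem 2 hi
    have h3 := pws_mem 1 hi
    exact M_pow 2 (by (repeat' (first | with_reducible assumption | with_reducible exact nat_mem _ | with_reducible exact one_mem _ | with_reducible exact zero_mem _ | with_reducible exact ofNat_mem _ _ | with_reducible apply add_mem | with_reducible apply sub_mem | with_reducible apply mul_mem | with_reducible apply pow_mem | with_reducible apply neg_mem)))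
  have h1 : ∀ i < N, M (N + 1) 2 (pw 1 (N + 1 - (i + 1)) - (-pw 1 (i + 1) + ((N + 1 : ℕ) : ℚ) * (-pw 2 (i + 1)))) := by
    intro i hi
    rw [y1_rel hi]
    have h1 := pwr_mem 1 hi
    have h2 := pws_mem 2 hi
    exact M_pow 2 (by (repeat' (first | with_reducible assumption | with_reducible exact nat_mem _ | with_reducible exact one_mem _ | with_reducible exact zero_mem _ | with_reducible exact ofNat_mem _ _ | with_reducible apply add_mem | with_reducible apply sub_mem | with_reducible apply mul_mem | with_reducible apply pow_mem | with_reducible apply neg_mem)))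
  have h := S3_app (N := N) (f := fun k => pw 2 (N + 1 - k)) (f0 := pw 2) (f1 := fun k => 2 * pw 3 k)
    (g := fun k => pw 2 (N + 1 - k)) (g0 := pw 2) (g1 := fun k => 2 * pw 3 k)
    (k := fun k => pw 1 (N + 1 - k)) (k0 := fun k => -pw 1 k) (k1 := fun k => -pw 2 k)
    h2 h2 h1 (Ov_pw 2) (fun i hi => mul_mem two_mem (pws_mem 3 hi)) (Ov_pw 2)
    (fun i hi => mul_mem two_mem (pws_mem 3 hi)) (fun i hi => neg_mem (pws_mem 1 hi))
    (fun i hi => neg_mem (pws_mem 2 hi)) le_rfl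
  rw [← rev3 (pw 1) (pw 2) (pw 2) N] at h
  have e1 := S3_smul 1 1 (-1) (pw 2) (pw 2) (pw 1) N
  have e2 := S3_smul 2 1 (-1) (pw 3) (pw 2) (pw 1) N
  have e3 := S3_smul 1 2 (-1) (pw 2) (pw 3) (pw 1) N
  have e4 := S3_smul 1 1 (-1) (pw 2) (pw 2) (pw 2) N
  simp only [one_mul, neg_mul, mul_one] at e1 e2 e3 e4
  rw [e1, e2, e3, e4] at h
  have h5 := (T222 h7).pmul 1
  exact (h.sub h5).congr (by ring)

/-- `2 H(1,4) + H(2,3)` -/
theorem E4 (h7 : 7 < N + 1) : M (N + 1) 2 (2 * S2 (pw 1) (pw 4) N + S2 (pw 2) (pw 3) N) := by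
  have h := SH0 N
  have h0 : ∀ i < N, M (N + 1) 2 ((fun k => pw 2 (N + 1 - k)) (i + 1)
      - (fun k => pw 2 k + ((N + 1 : ℕ) : ℚ) * (2 * pw 3 k)) (i + 1)) := by
    intro i hi
    show M (N + 1) 2 (pw 2 (N + 1 - (i + 1)) - (pw 2 (i + 1) + ((N + 1 : ℕ) : ℚ) * (2 * pw 3 (i + 1))))
    rw [y2_rel hi]
    have h1 := pwr_mem 2 hi
    have h2 := pws_mem 2 hi
    have h3 := pws_mem 1 hi
    exact M_pow 2 (by (repeat' (first | with_reducible assumption | with_reducible exact nat_mem _ | with_reducible exact one_mem _ | with_reducible exact zero_mem _ | with_reducible exact ofNat_mem _ _ | with_reducible apply add_mem | with_reducible apply sub_mem | with_reducible apply mul_mem | with_reducible apply pow_mem | with_reducible apply neg_mem)))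
  have h1 := S2_sub_M (N := N) (m := 2) (f := pw 3) (f' := pw 3)
    (g := fun k => pw 2 (N + 1 - k)) (g' := fun k => pw 2 k + ((N + 1 : ℕ) : ℚ) * (2 * pw 3 k))
    (Ov_pw 3) (Ov_pw_refl 2) (fun i _ => by rw [sub_self]; exact M_zero 2) h0 le_rfl
  have e1 : S2 (pw 3) (fun k => pw 2 (N + 1 - k)) N
      = ∑ i ∈ range N, S1 (pw 3) i * pw 2 (N - i) := by
    unfold S2
    apply sum_congr rfl
    intro i _
    show _ * pw 2 (N + 1 - (i + 1)) = _
    rw [Nat.add_sub_add_right]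
  have e2 : S2 (pw 3) (fun k => pw 2 k + ((N + 1 : ℕ) : ℚ) * (2 * pw 3 k)) N
      = S2 (pw 3) (pw 2) N + 2 * ((N + 1 : ℕ) : ℚ) * S2 (pw 3) (pw 3) N := by
    simp only [S2, mul_sum, ← sum_add_distrib]
    apply sum_congr rfl
    intro i _
    ring
  rw [e1, e2, h] at h1
  have h2 := (D6 h7 3 3 (by omega) (by omega) rfl).pmul 1
  have h3 : M (N + 1) 2 ((3 : ℕ) * (2 * S2 (pw 1) (pw 4) N + S2 (pw 2) (pw 3) N)) :=
    (h1.add (h2.smul 2 two_mem)).congr (by push_cast; ring)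
  exact h3.of_nat_mul (not_dvd_of_lt (by omega) (by omega))

/-- `H(3,2) + H(2,3)` -/
theorem E5 (h7 : 7 < N + 1) : M (N + 1) 2 (S2 (pw 3) (pw 2) N + S2 (pw 2) (pw 3) N) := by
  have h := st11 (pw 2) (pw 3) N
  rw [pwf_mul] at h
  have h1 := H_M1 h7 2 (by omega) (by omega)
  exact (((H3 h7).smul _ h1.mem).sub (H5 h7)).congr (by linear_combination -h)

end

end Pool.Agent.H39.SC
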