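import Pool.Agent.H39.SC.Cong3

/-!
# Triple sums of weight 6 modulo `p`

Helper file for MP_3b7928_nt.  Here `p = N + 1` is a prime greater than `7`.
-/

namespace Pool.Agent.H39.SC
open Finset

section
variable {N : ℕ} [hp : Fact (N + 1).Prime]

theorem S3_refl_last (a b c : ℕ) :
    M (N + 1) 1 ((∑ i ∈ range N, S2 (pw a) (pw b) i * pw c (N - i))
      - (-1) ^ c * S3 (pw a) (pw b) (pw c) N) := by
  have h := S3_sub_M (N := N) (m := 1) (f := pw a) (f' := pw a) (g := pw b) (g' := pw b)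
    (k := fun k => pw c (N + 1 - k)) (k' := fun k => (-1) ^ c * pw c k)
    (Ov_pw a) (Ov_pw b) (Ov_pw b) (Ov_pw_refl c)
    (fun i _ => by rw [sub_self]; exact M_zero 1) (fun i _ => by rw [sub_self]; exact M_zero 1)
    (fun i hi => refl_M1 c hi) le_rfl
  have e1 : S3 (pw a) (pw b) (fun k => pw c (N + 1 - k)) N
      = ∑ i ∈ range N, S2 (pw a) (pw b) i * pw c (N - i) := by
    unfold S3
    apply sum_congr rfl
    intro i _
    show _ * pw c (N + 1 - (i + 1)) = _
    rw [Nat.add_sub_add_right]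
  have e2 : S3 (pw a) (pw b) (fun k => (-1) ^ c * pw c k) N
      = (-1) ^ c * S3 (pw a) (pw b) (pw c) N := by
    simp only [S3, mul_sum]
    apply sum_congr rfl
    intro i _
    ring
  rw [e1, e2] at h
  exact h

theorem W1 (h7 : 7 < N + 1) :
    M (N + 1) 1 (2 * S3 (pw 1) (pw 1) (pw 4) N + S3 (pw 1) (pw 4) (pw 1) N) := by
  have h := st12 (pw 1) (pw 1) (pw 4) N
  rw [pwf_mul, pwf_mul] at h
  have h1 := H_M1 h7 1 (by omega) (by omega)
  have h2 := D6 h7 2 4 (by omega) (by omega) rfl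
  have h3 := D6 h7 1 5 (by omega) (by omega) rfl
  have h4 : S2 (pw 1) (pw 4) N ∈ O (N + 1) := S2_mem (Ov_pw 1) (Ov_pw 4) le_rfl
  exact (((h1.smulr _ h4).sub h2).sub h3).congr (by linear_combination -h)

theorem W2 (h7 : 7 < N + 1) :
    M (N + 1) 1 (S3 (pw 1) (pw 2) (pw 3) N + S3 (pw 2) (pw 1) (pw 3) N
      + S3 (pw 2) (pw 3) (pw 1) N) := by
  have h := st12 (pw 1) (pw 2) (pw 3) N
  rw [pwf_mul, pwf_mul] at h
  have h1 := H_M1 h7 1 (by omega) (by omega)
  have h2 := D6 h7 3 3 (by omega) (by omega) rfl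
  have h3 := D6 h7 2 4 (by omega) (by omega) rfl
  have h4 : S2 (pw 2) (pw 3) N ∈ O (N + 1) := S2_mem (Ov_pw 2) (Ov_pw 3) le_rfl
  exact (((h1.smulr _ h4).sub h2).sub h3).congr (by linear_combination -h)

/-- all the relations of weight 6 modulo `p` which are used -/
theorem W6 (h7 : 7 < N + 1) :
    M (N + 1) 1 (S3 (pw 2) (pw 3) (pw 1) N + S3 (pw 3) (pw 2) (pw 1) N
      - S3 (pw 1) (pw 1) (pw 4) N) ∧
    M (N + 1) 1 (S3 (pw 1) (pw 3) (pw 2) N + S3 (pw 1) (pw 2) (pw 3) N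
      - S3 (pw 1) (pw 1) (pw 4) N) ∧
    M (N + 1) 1 (S3 (pw 1) (pw 3) (pw 2) N + S3 (pw 3) (pw 1) (pw 2) N
      - 2 * S3 (pw 1) (pw 1) (pw 4) N) := by
  have w1 := W1 h7
  have w2 := W2 h7
  have r1 := rev3_M (N := N) 3 2 1
  have r2 := rev3_M (N := N) 2 3 1
  have r3 := rev3_M (N := N) 3 1 2
  have s1 := S3_refl_last (N := N) 1 4 1
  have s2 := S3_refl_last (N := N) 1 3 2
  rw [SH1] at s1
  rw [SH2] at s2
  norm_num at r1 r2 r3 s1 s2
  -- names
  generalize S3 (pw 1) (pw 1) (pw 4) N = η at *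
  generalize S3 (pw 1) (pw 2) (pw 3) N = α at *
  generalize S3 (pw 1) (pw 3) (pw 2) N = β at *
  generalize S3 (pw 2) (pw 1) (pw 3) N = γ at *
  generalize S3 (pw 1) (pw 4) (pw 1) N = δ at *
  generalize S3 (pw 3) (pw 2) (pw 1) N = α' at *
  generalize S3 (pw 2) (pw 3) (pw 1) N = β' at *
  generalize S3 (pw 3) (pw 1) (pw 2) N = γ' at *
  have k2 : M (N + 1) 1 (β + α - η) :=
    (s1.sub (w1.smul 2 (by (repeat' (first | with_reducible assumption | with_reducible exact nat_mem _ | with_reducible exact one_mem _ | with_reducible exact zero_mem _ | with_reducible exact ofNat_mem _ _ | with_reducible apply add_mem | with_reducible apply sub_mem | with_reducible apply mul_mem | with_reducible apply pow_mem | with_reducible apply neg_mem))))).congr (by ring)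
  have g1 : M (N + 1) 1 (γ + η) :=
    ((w2.sub r2).sub k2).congr (by ring)
  refine ⟨?_, k2, ?_⟩
  · exact ((r1.add r2).add k2).congr (by ring)
  · have a1 : M (N + 1) 1 ((4 : ℕ) * (α + 2 * η)) :=
      (s2.sub g1).congr (by push_cast; ring)
    have a2 := a1.of_nat_mul (not_dvd_of_lt (by omega) (by omega))
    exact (((k2.sub a2).add g1).add r3).congr (by ring)

end

end Pool.Agent.H39.SC
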