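import Pool.Agent.H39.SC.Cong4

/-!
# Expansion of the products, congruences modulo `p⁴`

Helper file for MP_3b7928_nt.  Here `p = N + 1` is a prime greater than `7`.
-/

namespace Pool.Agent.H39.SC
open Finset

section
variable {N : ℕ} [hp : Fact (N + 1).Prime]

theorem P_exp {j : ℕ} (hj : j ≤ N) : M (N + 1) 8 (P (N + 1) j - (1 - ((N + 1 : ℕ) : ℚ) ^ 2 * S1 (pw 2) j
    + ((N + 1 : ℕ) : ℚ) ^ 4 * S2 (pw 2) (pw 2) j - ((N + 1 : ℕ) : ℚ) ^ 6 * S3 (pw 2) (pw 2) (pw 2) j)) := by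
  induction j with
  | zero => simpa [P] using M_zero 8
  | succ j ih =>
    have h1 := ih (by omega)
    have h2 := pws_mem 2 (i := j) (N := N) (by omega)
    have h3 : S3 (pw 2) (pw 2) (pw 2) j ∈ O (N + 1) :=
      S3_mem (Ov_pw 2) (Ov_pw 2) (Ov_pw 2) (by omega)
    have h4 : (1 - ((N + 1 : ℕ) : ℚ) ^ 2 * pw 2 (j + 1)) ∈ O (N + 1) := by (repeat' (first | with_reducible assumption | with_reducible exact nat_mem _ | with_reducible exact one_mem _ | with_reducible exact zero_mem _ | with_reducible exact ofNat_mem _ _ | with_reducible apply add_mem | with_reducible apply sub_mem | with_reducible apply mul_mem | with_reducible apply pow_mem | with_reducible apply neg_mem))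
    rw [P_succ, S1_succ, S2_succ, S3_succ]
    exact ((h1.smulr _ h4).add (M_pow 8 (mul_mem h3 h2))).congr (by ring)

/-- Expansion of a sum over `P`. -/
theorem P_sum (a : ℕ) : M (N + 1) 6 ((∑ j ∈ range N, pw a (j + 1) * P (N + 1) j)
    - (S1 (pw a) N - ((N + 1 : ℕ) : ℚ) ^ 2 * S2 (pw 2) (pw a) N + ((N + 1 : ℕ) : ℚ) ^ 4 * S3 (pw 2) (pw 2) (pw a) N)) := by
  have e1 : S1 (pw a) N = ∑ i ∈ range N, pw a (i + 1) := rfl
  have e2 : S2 (pw 2) (pw a) N = ∑ i ∈ range N, S1 (pw 2) i * pw a (i + 1) := rfl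
  have e3 : S3 (pw 2) (pw 2) (pw a) N = ∑ i ∈ range N, S2 (pw 2) (pw 2) i * pw a (i + 1) := rfl
  rw [e1, e2, e3]
  simp only [mul_sum, ← sum_sub_distrib, ← sum_add_distrib]
  apply M.sum
  intro i hi
  rw [mem_range] at hi
  have h1 := (P_exp (N := N) (j := i) hi.le).mono (show 6 ≤ 8 by omega)
  have h2 : M (N + 1) 6 (((N + 1 : ℕ) : ℚ) ^ 6 * S3 (pw 2) (pw 2) (pw 2) i) :=
    M_pow 6 (S3_mem (Ov_pw 2) (Ov_pw 2) (Ov_pw 2) hi.le)
  have h3 := pws_mem a hi
  exact ((h1.sub h2).smul _ h3).congr (by ring)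

theorem P_N (h7 : 7 < N + 1) : M (N + 1) 7 ((1 - P (N + 1) N)
    - (((N + 1 : ℕ) : ℚ) ^ 2 * S1 (pw 2) N - ((N + 1 : ℕ) : ℚ) ^ 4 * S2 (pw 2) (pw 2) N)) := by
  have h1 := (P_exp (N := N) (j := N) le_rfl).mono (show 7 ≤ 8 by omega)
  have h2 := (T222 h7).pmul 6
  exact (h2.sub h1).congr (by ring)

theorem G1 (h7 : 7 < N + 1) : M (N + 1) 6 (((N + 1 : ℕ) : ℚ) ^ 2 * S1 (pw 3) N - ((N + 1 : ℕ) : ℚ) ^ 4 * S2 (pw 2) (pw 3) N
    - 2 * S1 (pw 1) N - ((N + 1 : ℕ) : ℚ) * S1 (pw 2) N + ((N + 1 : ℕ) : ℚ) ^ 3 * S2 (pw 2) (pw 2) N) := by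
  have h1 := I1 N
  have h2 := ((P_sum (N := N) 3).pmul 3).mono (show 7 ≤ 3 + 6 by omega)
  have h3 := P_N h7
  have h4 : M (N + 1) 7 (((N + 1 : ℕ) : ℚ) ^ 7 * S3 (pw 2) (pw 2) (pw 3) N) :=
    M_pow 7 (S3_mem (Ov_pw 2) (Ov_pw 2) (Ov_pw 3) le_rfl)
  have h5 : M (N + 1) (1 + 6) (((N + 1 : ℕ) : ℚ) ^ 1 * (((N + 1 : ℕ) : ℚ) ^ 2 * S1 (pw 3) N - ((N + 1 : ℕ) : ℚ) ^ 4 * S2 (pw 2) (pw 3) N
    - 2 * S1 (pw 1) N - ((N + 1 : ℕ) : ℚ) * S1 (pw 2) N + ((N + 1 : ℕ) : ℚ) ^ 3 * S2 (pw 2) (pw 2) N)) :=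
    ((h3.sub h2).sub h4).congr (by push_cast; linear_combination h1)
  exact h5.div

theorem G2 (h7 : 7 < N + 1) (hN : Even N) : M (N + 1) 6 (S1 (pw 1) N - ((N + 1 : ℕ) : ℚ) ^ 2 * S2 (pw 2) (pw 1) N
    + ((N + 1 : ℕ) : ℚ) ^ 4 * S3 (pw 2) (pw 2) (pw 1) N - ((N + 1 : ℕ) : ℚ) * S1 (pw 2) N + ((N + 1 : ℕ) : ℚ) ^ 3 * S2 (pw 2) (pw 2) N) := by
  have h1 := I2 N hN
  have h1' := P_tel (N + 1) N
  have h2 := ((P_sum (N := N) 1).pmul 1).mono (show 7 ≤ 1 + 6 by omega)
  have h3 := P_N h7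
  simp only [sub_mul, sum_sub_distrib, mul_assoc, ← mul_sum] at h1
  have h5 : M (N + 1) (1 + 6) (((N + 1 : ℕ) : ℚ) ^ 1 * (S1 (pw 1) N - ((N + 1 : ℕ) : ℚ) ^ 2 * S2 (pw 2) (pw 1) N
    + ((N + 1 : ℕ) : ℚ) ^ 4 * S3 (pw 2) (pw 2) (pw 1) N - ((N + 1 : ℕ) : ℚ) * S1 (pw 2) N + ((N + 1 : ℕ) : ℚ) ^ 3 * S2 (pw 2) (pw 2) N)) :=
    (h3.sub h2).congr (by push_cast at h1 h1' ⊢; linear_combination ((N : ℚ) + 1) * h1 + h1')
  exact h5.div

theorem Q_exp {j : ℕ} (hj : j ≤ N) : M (N + 1) 3 (Q (N + 1) j - (1 - ((N + 1 : ℕ) : ℚ) * S1 (pw 1) j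
    + ((N + 1 : ℕ) : ℚ) ^ 2 * S2 (pw 1) (pw 1) j)) := by
  induction j with
  | zero => simpa [Q] using M_zero 3
  | succ j ih =>
    have h1 := ih (by omega)
    have h2 := pws_mem 1 (i := j) (N := N) (by omega)
    have h3 : S2 (pw 1) (pw 1) j ∈ O (N + 1) := S2_mem (Ov_pw 1) (Ov_pw 1) (by omega)
    have h4 : (1 - ((N + 1 : ℕ) : ℚ) * pw 1 (j + 1)) ∈ O (N + 1) := by (repeat' (first | with_reducible assumption | with_reducible exact nat_mem _ | with_reducible exact one_mem _ | with_reducible exact zero_mem _ | with_reducible exact ofNat_mem _ _ | with_reducible apply add_mem | with_reducible apply sub_mem | with_reducible apply mul_mem | with_reducible apply pow_mem | with_reducible apply neg_mem))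
    rw [Q_succ, S1_succ, S2_succ]
    exact ((h1.smulr _ h4).sub (M_pow 3 (mul_mem h3 h2))).congr (by ring)

theorem Q_sum (a : ℕ) : M (N + 1) 3 ((∑ j ∈ range N, pw a (j + 1) * Q (N + 1) j)
    - (S1 (pw a) N - ((N + 1 : ℕ) : ℚ) * S2 (pw 1) (pw a) N + ((N + 1 : ℕ) : ℚ) ^ 2 * S3 (pw 1) (pw 1) (pw a) N)) := by
  have e1 : S1 (pw a) N = ∑ i ∈ range N, pw a (i + 1) := rfl
  have e2 : S2 (pw 1) (pw a) N = ∑ i ∈ range N, S1 (pw 1) i * pw a (i + 1) := rfl
  have e3 : S3 (pw 1) (pw 1) (pw a) N = ∑ i ∈ range N, S2 (pw 1) (pw 1) i * pw a (i + 1) := rfl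
  rw [e1, e2, e3]
  simp only [mul_sum, ← sum_sub_distrib, ← sum_add_distrib]
  apply M.sum
  intro i hi
  rw [mem_range] at hi
  exact ((Q_exp (N := N) (j := i) hi.le).smul _ (pws_mem a hi)).congr (by ring)

section
variable {h : ℚ} (hh : h ∈ O (N + 1)) (hH : S1 (pw 1) N = ((N + 1 : ℕ) : ℚ) ^ 2 * h) (h7 : 7 < N + 1)
include hh hH h7

omit hh in
theorem H2_app : M (N + 1) 3 (S1 (pw 2) N + 2 * ((N + 1 : ℕ) : ℚ) * h) := by
  have h1 := (E1 h7).mono (show 4 ≤ 6 by omega)
  have h2 := (H3 h7).pmul 2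
  rw [hH] at h1
  have h3 : M (N + 1) (1 + 3) (((N + 1 : ℕ) : ℚ) ^ 1 * ((3 : ℕ) * (S1 (pw 2) N + 2 * ((N + 1 : ℕ) : ℚ) * h))) :=
    (h1.sub h2).congr (by push_cast; ring)
  exact h3.div.of_nat_mul (not_dvd_of_lt (by omega) (by omega))

theorem H2_sq : M (N + 1) 4 (S1 (pw 2) N ^ 2 - 4 * ((N + 1 : ℕ) : ℚ) ^ 2 * h ^ 2) := by
  have h1 := H2_app hH h7
  have h2 := H_M1 h7 2 (by omega) (by omega)
  have h3 : M (N + 1) 1 (((N + 1 : ℕ) : ℚ) ^ 1 * (2 * h)) := M_pow 1 (mul_mem two_mem hh)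
  exact (h1.mul (h2.sub h3)).congr (by ring)

theorem e3 : M (N + 1) 4 (3 * ((N + 1 : ℕ) : ℚ) ^ 2 * S2 (pw 2) (pw 3) N - 5 * S1 (pw 3) N
    - 6 * ((N + 1 : ℕ) : ℚ) ^ 3 * h ^ 2) := by
  have g := G1 h7
  have a := E1 h7
  have b := (E2 h7).pmul 2
  have c := st11 (pw 2) (pw 2) N
  rw [pwf_mul] at c
  norm_num at c
  have d := ((H2_sq hh hH h7).pmul 3).mono (show 6 ≤ 3 + 4 by omega)
  have h3 : M (N + 1) (2 + 4) (((N + 1 : ℕ) : ℚ) ^ 2 * ((2 : ℕ) * (3 * ((N + 1 : ℕ) : ℚ) ^ 2 * S2 (pw 2) (pw 3) N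
      - 5 * S1 (pw 3) N - 6 * ((N + 1 : ℕ) : ℚ) ^ 3 * h ^ 2))) :=
    ((((g.smul 6 (by (repeat' (first | with_reducible assumption | with_reducible exact nat_mem _ | with_reducible exact one_mem _ | with_reducible exact zero_mem _ | with_reducible exact ofNat_mem _ _ | with_reducible apply add_mem | with_reducible apply sub_mem | with_reducible apply mul_mem | with_reducible apply pow_mem | with_reducible apply neg_mem)))).neg.sub (a.smul 2 (by (repeat' (first | with_reducible assumption | with_reducible exact nat_mem _ | with_reducible exact one_mem _ | with_reducible exact zero_mem _ | with_reducible exact ofNat_mem _ _ | with_reducible apply add_mem | with_reducible apply sub_mem | with_reducible apply mul_mem | with_reducible apply pow_mem | with_reducible apply neg_mem))))).sub b).add (d.smul 3 (by (repeat' (first | with_reducible assumption | with_reducible exact nat_mem _ | with_reducible exact one_mem _ | with_reducible exact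 zero_mem _ | with_reducible exact ofNat_mem _ _ | with_reducible apply add_mem | with_reducible apply sub_mem | with_reducible apply mul_mem | with_reducible apply pow_mem | with_reducible apply neg_mem))))).congr (by
      push_cast
      linear_combination 3 * ((N : ℚ) + 1) ^ 3 * (-c))
  exact h3.div.of_nat_mul (not_dvd_of_lt (by omega) (by omega))

theorem e6 (hN : Even N) : M (N + 1) 4 (3 * (S2 (pw 2) (pw 1) N + S1 (pw 3) N) - 9 * h
    - 5 * S1 (pw 3) N - 6 * ((N + 1 : ℕ) : ℚ) ^ 3 * h ^ 2 - 3 * ((N + 1 : ℕ) : ℚ) ^ 2 * S3 (pw 2) (pw 2) (pw 1) N) := by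
  have g := G2 h7 hN
  have a := E1 h7
  have b := (E2 h7).pmul 2
  have c := st11 (pw 2) (pw 2) N
  rw [pwf_mul] at c
  norm_num at c
  have d := ((H2_sq hh hH h7).pmul 3).mono (show 6 ≤ 3 + 4 by omega)
  have h3 : M (N + 1) (2 + 4) (((N + 1 : ℕ) : ℚ) ^ 2 * ((2 : ℕ) * (3 * (S2 (pw 2) (pw 1) N + S1 (pw 3) N) - 9 * h
    - 5 * S1 (pw 3) N - 6 * ((N + 1 : ℕ) : ℚ) ^ 3 * h ^ 2 - 3 * ((N + 1 : ℕ) : ℚ) ^ 2 * S3 (pw 2) (pw 2) (pw 1) N))) :=
    ((((g.smul 6 (by (repeat' (first | with_reducible assumption | with_reducible exact nat_mem _ | with_reducible exact one_mem _ | with_reducible exact zero_mem _ | with_reducible exact ofNat_mem _ _ | with_reducible apply add_mem | with_reducible apply sub_mem | with_reducible apply mul_mem | with_reducible apply pow_mem | with_reducible apply neg_mem)))).neg.sub (a.smul 2 (by (repeat' (first | with_reducible assumption | with_reducible exact nat_mem _ | with_reducible exact one_mem _ | with_reducible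 exact zero_mem _ | with_reducible exact ofNat_mem _ _ | with_reducible apply add_mem | with_reducible apply sub_mem | with_reducible apply mul_mem | with_reducible apply pow_mem | with_reducible apply neg_mem))))).sub b).add (d.smul 3 (by (repeat' (first | with_reducible assumption | with_reducible exact nat_mem _ | with_reducible exact one_mem _ | with_reducible exact zero_mem _ | with_reducible exact ofNat_mem _ _ | with_reducible apply add_mem | with_reducible apply sub_mem | with_reducible apply mul_mem | with_reducible apply pow_mem | with_reducible apply neg_mem))))).congr (by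
      push_cast at hH ⊢
      linear_combination 3 * ((N : ℚ) + 1) ^ 3 * (-c) + 18 * hH)
  exact h3.div.of_nat_mul (not_dvd_of_lt (by omega) (by omega))

theorem eta_rel (hN : Even N) : M (N + 1) 1 (2 * S3 (pw 1) (pw 1) (pw 4) N + 3 * h ^ 2) := by
  have a := A3 N hN
  have q := (Q_sum (N := N) 4).pmul 3
  have e1 := E1 h7
  have e2 := (E2 h7).pmul 2
  have e4 := (E4 h7).pmul 4
  have x3 := (e3 hh hH h7).pmul 2
  have hh2 := H2_app hH h7
  have m2 := (H_M1 h7 2 (by omega) (by omega)).mem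
  have m1 : M (N + 1) 6 (((N + 1 : ℕ) : ℚ) ^ 6 * (((N + 1 : ℕ) : ℚ) ^ 2 * h ^ 3)) := M_pow 6 (by (repeat' (first | with_reducible assumption | with_reducible exact nat_mem _ | with_reducible exact one_mem _ | with_reducible exact zero_mem _ | with_reducible exact ofNat_mem _ _ | with_reducible apply add_mem | with_reducible apply sub_mem | with_reducible apply mul_mem | with_reducible apply pow_mem | with_reducible apply neg_mem)))
  have m3 : M (N + 1) 7 (((N + 1 : ℕ) : ℚ) ^ 4 * (h * (S1 (pw 2) N + 2 * ((N + 1 : ℕ) : ℚ) * h))) :=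
    (hh2.smul h hh).pmul 4
  have hu : ((N : ℚ) + 1) * pw 1 (N + 1) = 1 := by
    simp only [pw, pow_one]
    push_cast
    exact mul_inv_cancel₀ (by positivity)
  rw [pw_eq 2 (N + 1), pw_eq 3 (N + 1)] at a
  -- `6 p³ ∑ = ...`
  have a' : 6 * ((N + 1 : ℕ) : ℚ) ^ 3 * (∑ j ∈ range N, pw 4 (j + 1) * Q (N + 1) j)
      = ((N + 1 : ℕ) : ℚ) ^ 2 * S1 (pw 1) N ^ 3 + 3 * ((N + 1 : ℕ) : ℚ) * S1 (pw 1) N ^ 2 + 6 * S1 (pw 1) N
        + 3 * ((N + 1 : ℕ) : ℚ) ^ 2 * S1 (pw 1) N * S1 (pw 2) N + 3 * ((N + 1 : ℕ) : ℚ) * S1 (pw 2) N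
        + 2 * ((N + 1 : ℕ) : ℚ) ^ 2 * S1 (pw 3) N := by
    push_cast
    linear_combination ((N : ℚ) + 1) ^ 2 * a + (3 * ((N : ℚ) + 1) * S1 (pw 1) N ^ 2
      + 6 * S1 (pw 1) N * (((N : ℚ) + 1) * pw 1 (N + 1) + 1)
      + 3 * ((N : ℚ) + 1) * S1 (pw 2) N) * hu
  rw [hH] at a' e1
  have f : M (N + 1) (5 + 1) (((N + 1 : ℕ) : ℚ) ^ 5 * ((3 : ℕ) *
      (2 * S3 (pw 1) (pw 1) (pw 4) N + 3 * h ^ 2))) :=
    (((((((e1.add m1).add ((m3.mono (show 6 ≤ 7 by omega)).smul 3 (by (repeat' (first | with_reducible assumption | with_reducible exact nat_mem _ | with_reducible exact one_mem _ | with_reducible exact zero_mem _ | with_reducible exact ofNat_mem _ _ | with_reducible apply add_mem | with_reducible apply sub_mem | with_reducible apply mul_mem | with_reducible apply pow_mem | with_reducible apply neg_mem))))).sub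
      (e2.smul 2 (by (repeat' (first | with_reducible assumption | with_reducible exact nat_mem _ | with_reducible exact one_mem _ | with_reducible exact zero_mem _ | with_reducible exact ofNat_mem _ _ | with_reducible apply add_mem | with_reducible apply sub_mem | with_reducible apply mul_mem | with_reducible apply pow_mem | with_reducible apply neg_mem))))).add (e4.smul 3 (by (repeat' (first | with_reducible assumption | with_reducible exact nat_mem _ | with_reducible exact one_mem _ | with_reducible exact zero_mem _ | with_reducible exact ofNat_mem _ _ | with_reducible apply add_mem | with_reducible apply sub_mem | with_reducible apply mul_mem | with_reducible apply pow_mem | with_reducible apply neg_mem))))).sub x3).sub (q.smul 6 (by (repeat' (first | with_reducible assumption | with_reducible exact nat_mem _ | with_reducible exact one_mem _ | with_reducible exact zero_mem _ | with_reducible exact ofNat_mem _ _ | with_reducible apply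 add_mem | with_reducible apply sub_mem | with_reducible apply mul_mem | with_reducible apply pow_mem | with_reducible apply neg_mem)))))).congr (by
      push_cast at a' ⊢
      linear_combination a')
  exact f.div.of_nat_mul (not_dvd_of_lt (by omega) (by omega))

end

end

end Pool.Agent.H39.SC
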