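import Pool.Agent.H39.SC.Cong5

/-!
# The constants `D`, the numbers `nu`, `cc`, and the kernel modulo `p²`

Helper file for MP_3b7928_nt.  Here `p = N + 1` is a prime greater than `7`.
-/

namespace Pool.Agent.H39.SC
open Finset

/-- `∏ (1 + n / i)`, `1 ≤ i ≤ j` -/
def T (n j : ℕ) : ℚ := ∏ i ∈ range j, (1 + (n : ℚ) * pw 1 (i + 1))

theorem T_succ (n j : ℕ) : T n (j + 1) = T n j * (1 + (n : ℚ) * pw 1 (j + 1)) := by
  simp [T, prod_range_succ]

theorem fact_T (n j : ℕ) :
    ((n + j).factorial : ℚ) = n.factorial * j.factorial * T n j := by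
  induction j with
  | zero => simp [T]
  | succ j ih =>
    rw [T_succ, ← add_assoc, Nat.factorial_succ, Nat.factorial_succ]
    have hj0 : (j : ℚ) + 1 ≠ 0 := by positivity
    simp only [pw, pow_one]
    push_cast
    rw [ih]
    field_simp
    ring

theorem D_eq (N : ℕ) : D N = ((N + 1 : ℕ) : ℚ) * T (N + 1) N := by
  have h := fact_T (N + 1) N
  rw [show N + 1 + N = 2 * N + 1 by ring] at h
  have ht : (N.factorial : ℚ) ≠ 0 := by exact_mod_cast N.factorial_ne_zero
  rw [D, h, Nat.factorial_succ]
  push_cast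
  field_simp

/-- `k! (2N+1+k)! / ((N+k)! (N+1+k)!)` -/
def ee (N k : ℕ) : ℚ := (k.factorial * (2 * N + 1 + k).factorial : ℚ) /
  ((N + k).factorial * (N + 1 + k).factorial)

theorem ee_zero (N : ℕ) : ee N 0 = T (N + 1) N := by
  have h := D_eq N
  rw [D] at h
  have ht : (N.factorial : ℚ) ≠ 0 := by exact_mod_cast N.factorial_ne_zero
  have hn : (N : ℚ) + 1 ≠ 0 := by positivity
  simp only [ee, add_zero, Nat.factorial_zero, Nat.factorial_succ N]
  push_cast at h ⊢
  field_simp at h ⊢
  linear_combination h

theorem ee_succ (N k : ℕ) : ee N (k + 1) = ee N k *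
    (1 - ((N + 1 : ℕ) : ℚ) * pw 1 (N + 1 + (k + 1))) * (1 + ((N + 1 : ℕ) : ℚ) * pw 1 (N + 1 + k)) := by
  have h1 : ((N + k).factorial : ℚ) ≠ 0 := by exact_mod_cast (N + k).factorial_ne_zero
  have h2 : ((N + 1 + k).factorial : ℚ) ≠ 0 := by exact_mod_cast (N + 1 + k).factorial_ne_zero
  have h3 : (N : ℚ) + 1 + k ≠ 0 := by positivity
  have h4 : (N : ℚ) + 1 + (k + 1) ≠ 0 := by positivity
  have h5 : (N : ℚ) + k + 1 ≠ 0 := by positivity
  have h6 : (N : ℚ) + 1 + k + 1 ≠ 0 := by positivity
  simp only [ee, pw, pow_one]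
  rw [← add_assoc, ← add_assoc, ← add_assoc, Nat.factorial_succ k,
    Nat.factorial_succ (2 * N + 1 + k), Nat.factorial_succ (N + k), Nat.factorial_succ (N + 1 + k)]
  push_cast
  field_simp
  ring

theorem nu_eq (N k : ℕ) : nu N k = pw 1 (N + 1 + k) * (ee N k - 1) / 2 := by
  rw [nu, AM_eq N (N + k) (by omega), ee]
  rw [show N + k - N = k by omega, show N + k + N + 1 = 2 * N + 1 + k by ring,
    show N + 1 + k = (N + k) + 1 by ring, Nat.factorial_succ (N + k)]
  have h1 : ((N + k).factorial : ℚ) ≠ 0 := by exact_mod_cast (N + k).factorial_ne_zero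
  have h5 : (N : ℚ) + k + 1 ≠ 0 := by positivity
  simp only [pw, pow_one]
  push_cast
  field_simp

theorem choose_Q (n j : ℕ) (hj : j ≤ n) : (n.choose j : ℚ) = (-1) ^ j * Q (n + 1) j := by
  induction j with
  | zero => simp [Q]
  | succ j ih =>
    have h1 := ih (by omega)
    have h2 : ((n.choose (j + 1) : ℕ) : ℚ) * (j + 1) = (n.choose j : ℕ) * ((n : ℚ) - j) := by
      have h3 : ((n.choose (j + 1) * (j + 1) : ℕ) : ℚ) = ((n.choose j * (n - j) : ℕ) : ℚ) := by
        exact_mod_cast Nat.choose_succ_right_eq n j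
      rw [Nat.cast_mul, Nat.cast_mul, Nat.cast_sub (by omega)] at h3
      push_cast at h3
      linarith
    have hj0 : (j : ℚ) + 1 ≠ 0 := by positivity
    rw [h1] at h2
    rw [Q_succ]
    simp only [pw, pow_one]
    push_cast
    field_simp
    rw [pow_succ]
    linear_combination h2

/-- `(j! (N-1-j)! / N!)²` -/
def bb (N j : ℕ) : ℚ := q j * q (N - 1 - j) / q N

theorem bb_Q (N j : ℕ) (hj : j < N) : bb N j * Q (N + 1) (j + 1) ^ 2 = pw 2 (j + 1) := by
  have h1 := choose_Q N (j + 1) hj
  have h2 : Q (N + 1) (j + 1) ^ 2 = (N.choose (j + 1) : ℚ) ^ 2 := by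
    rw [h1, mul_pow, ← pow_mul, mul_comm (j + 1) 2, pow_mul]
    norm_num
  rw [h2, Nat.cast_choose ℚ (by omega : j + 1 ≤ N)]
  have e1 : N - 1 - j = N - (j + 1) := by omega
  have ha : (N.factorial : ℚ) ≠ 0 := by exact_mod_cast N.factorial_ne_zero
  have hb : (j.factorial : ℚ) ≠ 0 := by exact_mod_cast j.factorial_ne_zero
  have hc : ((N - (j + 1)).factorial : ℚ) ≠ 0 := by
    exact_mod_cast (N - (j + 1)).factorial_ne_zero
  simp only [bb, q, e1, pw, Nat.factorial_succ j]
  push_cast
  field_simp

section
variable {N : ℕ} [hp : Fact (N + 1).Prime]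

theorem T_mem {j : ℕ} (hj : j ≤ N) : T (N + 1) j ∈ O (N + 1) := by
  apply prod_mem
  intro i hi
  rw [mem_range] at hi
  have := pws_mem 1 (i := i) (N := N) (by omega)
  (repeat' (first | with_reducible assumption | with_reducible exact nat_mem _ | with_reducible exact one_mem _ | with_reducible exact zero_mem _ | with_reducible exact ofNat_mem _ _ | with_reducible apply add_mem | with_reducible apply sub_mem | with_reducible apply mul_mem | with_reducible apply pow_mem | with_reducible apply neg_mem))

theorem T_exp {j : ℕ} (hj : j ≤ N) : M (N + 1) 2 (T (N + 1) j - (1 + ((N + 1 : ℕ) : ℚ) * S1 (pw 1) j)) := by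
  induction j with
  | zero => simpa [T] using M_zero 2
  | succ j ih =>
    have h1 := ih (by omega)
    have h2 := pws_mem 1 (i := j) (N := N) (by omega)
    have h3 : S1 (pw 1) j ∈ O (N + 1) := S1_mem (Ov_pw 1) (by omega)
    have h4 : (1 + ((N + 1 : ℕ) : ℚ) * pw 1 (j + 1)) ∈ O (N + 1) := by (repeat' (first | with_reducible assumption | with_reducible exact nat_mem _ | with_reducible exact one_mem _ | with_reducible exact zero_mem _ | with_reducible exact ofNat_mem _ _ | with_reducible apply add_mem | with_reducible apply sub_mem | with_reducible apply mul_mem | with_reducible apply pow_mem | with_reducible apply neg_mem))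
    rw [T_succ, S1_succ]
    exact ((h1.smulr _ h4).add (M_pow 2 (mul_mem h3 h2))).congr (by ring)

theorem T_N (h7 : 7 < N + 1) : M (N + 1) 2 (T (N + 1) N - 1) := by
  have h1 := T_exp (N := N) (j := N) le_rfl
  have h2 := ((H1 h7).pmul 1).mono (show 2 ≤ 1 + 2 by omega)
  exact (h1.add h2).congr (by ring)

theorem D_app (h7 : 7 < N + 1) : M (N + 1) 3 (D N - ((N + 1 : ℕ) : ℚ)) := by
  have h1 := (T_N h7).pmul 1
  rw [D_eq]
  exact h1.congr (by ring)

theorem AM_M (h7 : 7 < N + 1) : M (N + 1) 3 (AM N N) := by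
  have h1 : M (N + 1) 3 ((2 : ℕ) * AM N N) := (D_app h7).congr (by
    rw [AM_self]; push_cast; ring)
  exact h1.of_nat_mul (not_dvd_of_lt (by omega) (by omega))

theorem half_mem (h7 : 7 < N + 1) : (1 / 2 : ℚ) ∈ O (N + 1) := by
  have := inv_mem (p := N + 1) (k := 2) (not_dvd_of_lt (by omega) (by omega))
  simpa using this

theorem cpw_mem (a : ℕ) {k : ℕ} (h0 : 0 < k) (h1 : k ≤ N) : pw a (N + 1 + k) ∈ O (N + 1) := by
  unfold pw
  apply pow_mem
  apply inv_mem
  intro hd
  have := (Nat.dvd_add_right (dvd_refl (N + 1))).mp hd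
  have := Nat.le_of_dvd h0 this
  omega

omit hp in
theorem c_rel {k : ℕ} (h0 : 0 < k) :
    pw 1 (N + 1 + k) = pw 1 k - ((N + 1 : ℕ) : ℚ) * pw 1 k * pw 1 (N + 1 + k) := by
  simp only [pw, pow_one]
  have h1 : (k : ℚ) ≠ 0 := by positivity
  have h2 : (((N + 1 + k : ℕ)) : ℚ) ≠ 0 := by positivity
  push_cast at *
  field_simp
  ring

theorem c_app {k : ℕ} (h0 : 0 < k) (h1 : k ≤ N) :
    M (N + 1) 2 (pw 1 (N + 1 + k) - (pw 1 k + ((N + 1 : ℕ) : ℚ) * (-pw 2 k))) := by
  have h := c_rel (N := N) h0
  have h2 := pw_mem 2 h0 h1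
  have h3 := cpw_mem 1 h0 h1
  refine (M_pow 2 (mul_mem h2 h3)).congr ?_
  rw [pw_eq 2]
  linear_combination (1 - ((N + 1 : ℕ) : ℚ) * pw 1 k) * h

theorem cc_app {k : ℕ} (h0 : 0 < k) (h1 : k ≤ N) :
    M (N + 1) 2 (cc N k - (pw 2 k + ((N + 1 : ℕ) : ℚ) * (-2 * pw 3 k))) := by
  have h := c_app h0 h1
  have h2 := prod_app h h (pw_mem 1 h0 h1) (neg_mem (pw_mem 2 h0 h1)) (pw_mem 1 h0 h1)
    (neg_mem (pw_mem 2 h0 h1))
  refine h2.congr ?_
  rw [cc, pw_eq 2, pw_eq 2 k, pw_eq 3 k]
  ring

theorem ee_app (h7 : 7 < N + 1) {k : ℕ} (h1 : k + 1 ≤ N) :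
    M (N + 1) 2 (ee N (k + 1) - (2 + ((N + 1 : ℕ) : ℚ) * (-2 * pw 1 (k + 1)))) := by
  induction k with
  | zero =>
    have h2 := T_N h7
    have h3 : ((N + 1 : ℕ) : ℚ) * pw 1 (N + 1) = 1 := by
      simp only [pw, pow_one]
      exact mul_inv_cancel₀ (by positivity)
    have h4 := cpw_mem (N := N) 1 (k := 1) (by omega) h1
    have h5 := c_rel (N := N) (k := 1) (by omega)
    have h6 : pw 1 1 = 1 := by simp [pw]
    have h8 : 2 * (1 - ((N + 1 : ℕ) : ℚ) * pw 1 (N + 1 + (0 + 1))) ∈ O (N + 1) := by
      simp only [zero_add]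
      (repeat' (first | with_reducible assumption | with_reducible exact nat_mem _ | with_reducible exact one_mem _ | with_reducible exact zero_mem _ | with_reducible exact ofNat_mem _ _ | with_reducible apply add_mem | with_reducible apply sub_mem | with_reducible apply mul_mem | with_reducible apply pow_mem | with_reducible apply neg_mem))
    have h9 := (h2.smulr _ h8).add (M_pow 2 (mul_mem two_mem h4))
    refine h9.congr ?_
    rw [ee_succ, ee_zero]
    simp only [zero_add, add_zero]
    rw [h6] at h5 ⊢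
    linear_combination (T (N + 1) N * (1 - ((N + 1 : ℕ) : ℚ) * pw 1 (N + 1 + 1))) * h3 + (-2 * ((N + 1 : ℕ) : ℚ)) * h5
  | succ k ih =>
    have h2 := ih (by omega)
    have c1 := cpw_mem (N := N) 1 (k := k + 1) (by omega) (by omega)
    have c2 := cpw_mem (N := N) 1 (k := k + 1 + 1) (by omega) (by omega)
    have d1 := c_rel (N := N) (k := k + 1) (by omega)
    have d2 := c_rel (N := N) (k := k + 1 + 1) (by omega)
    have x1 := pws_mem 1 (N := N) (i := k) (by omega)
    have x2 := pws_mem 1 (N := N) (i := k + 1) (by omega)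
    -- 1 - p c_{k+2} = 1 + p (-x_{k+2}) mod p²
    have a1 : M (N + 1) 2 ((1 - ((N + 1 : ℕ) : ℚ) * pw 1 (N + 1 + (k + 1 + 1)))
        - (1 + ((N + 1 : ℕ) : ℚ) * (-pw 1 (k + 1 + 1)))) :=
      (M_pow 2 (mul_mem x2 c2)).congr (by linear_combination -((N + 1 : ℕ) : ℚ) * d2)
    have a2 : M (N + 1) 2 ((1 + ((N + 1 : ℕ) : ℚ) * pw 1 (N + 1 + (k + 1))) - (1 + ((N + 1 : ℕ) : ℚ) * (pw 1 (k + 1)))) :=
      (M_pow 2 (neg_mem (mul_mem x1 c1))).congr (by linear_combination ((N + 1 : ℕ) : ℚ) * d1)
    have b1 := prod_app h2 a1 two_mem (by (repeat' (first | with_reducible assumption | with_reducible exact nat_mem _ | with_reducible exact one_mem _ | with_reducible exact zero_mem _ | with_reducible exact ofNat_mem _ _ | with_reducible apply add_mem | with_reducible apply sub_mem | with_reducible apply mul_mem | with_reducible apply pow_mem | with_reducible apply neg_mem))) (by (repeat' (first | with_reducible assumption | with_reducible exact nat_mem _ | with_reducible exact one_mem _ | with_reducible exact zero_mem _ | with_reducible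 exact ofNat_mem _ _ | with_reducible apply add_mem | with_reducible apply sub_mem | with_reducible apply mul_mem | with_reducible apply pow_mem | with_reducible apply neg_mem))) (by (repeat' (first | with_reducible assumption | with_reducible exact nat_mem _ | with_reducible exact one_mem _ | with_reducible exact zero_mem _ | with_reducible exact ofNat_mem _ _ | with_reducible apply add_mem | with_reducible apply sub_mem | with_reducible apply mul_mem | with_reducible apply pow_mem | with_reducible apply neg_mem)))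
    have b2 := prod_app b1 a2 (by (repeat' (first | with_reducible assumption | with_reducible exact nat_mem _ | with_reducible exact one_mem _ | with_reducible exact zero_mem _ | with_reducible exact ofNat_mem _ _ | with_reducible apply add_mem | with_reducible apply sub_mem | with_reducible apply mul_mem | with_reducible apply pow_mem | with_reducible apply neg_mem))) (by (repeat' (first | with_reducible assumption | with_reducible exact nat_mem _ | with_reducible exact one_mem _ | with_reducible exact zero_mem _ | with_reducible exact ofNat_mem _ _ | with_reducible apply add_mem | with_reducible apply sub_mem | with_reducible apply mul_mem | with_reducible apply pow_mem | with_reducible apply neg_mem))) (by (repeat' (first | with_reducible assumption | with_reducible exact nat_mem _ | with_reducible exact one_mem _ | with_reducible exact zero_mem _ | with_reducible exact ofNat_mem _ _ | with_reducible apply add_mem | with_reducible apply sub_mem | with_reducible apply mul_mem | with_reducible apply pow_mem |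 with_reducible apply neg_mem))) (by (repeat' (first | with_reducible assumption | with_reducible exact nat_mem _ | with_reducible exact one_mem _ | with_reducible exact zero_mem _ | with_reducible exact ofNat_mem _ _ | with_reducible apply add_mem | with_reducible apply sub_mem | with_reducible apply mul_mem | with_reducible apply pow_mem | with_reducible apply neg_mem)))
    rw [ee_succ]
    refine b2.congr ?_
    ring

theorem nu_app (h7 : 7 < N + 1) {k : ℕ} (h1 : k + 1 ≤ N) :
    M (N + 1) 2 (nu N (k + 1) - (1 / 2 * pw 1 (k + 1) + ((N + 1 : ℕ) : ℚ) * (1 / 2 * (-3 * pw 2 (k + 1))))) := by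
  have h2 := ee_app h7 h1
  have h3 := c_app (N := N) (k := k + 1) (by omega) h1
  have h4 : M (N + 1) 2 ((ee N (k + 1) - 1) - (1 + ((N + 1 : ℕ) : ℚ) * (-2 * pw 1 (k + 1)))) :=
    h2.congr (by ring)
  have x1 := pws_mem 1 (N := N) (i := k) (by omega)
  have x2 := pws_mem 2 (N := N) (i := k) (by omega)
  have h5 := prod_app h3 h4 x1 (neg_mem x2) (one_mem _) (by (repeat' (first | with_reducible assumption | with_reducible exact nat_mem _ | with_reducible exact one_mem _ | with_reducible exact zero_mem _ | with_reducible exact ofNat_mem _ _ | with_reducible apply add_mem | with_reducible apply sub_mem | with_reducible apply mul_mem | with_reducible apply pow_mem | with_reducible apply neg_mem)))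
  refine (h5.smul _ (half_mem h7)).congr ?_
  rw [nu_eq, pw_eq 2]
  ring

end

end Pool.Agent.H39.SC
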