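import Pool.Agent.H39.SC.Cong6

/-!
# The sums `AA` modulo powers of `p`

Helper file for MP_3b7928_nt.  Here `p = N + 1` is a prime greater than `7`.
-/

namespace Pool.Agent.H39.SC
open Finset

theorem Rr_ratio (t n : ℕ) (h : n < t) :
    Rr t (n + 1) = Rr t n * (((t + 1 + n : ℕ) : ℚ) * ((t - n : ℕ) : ℚ)⁻¹) := by
  unfold Rr
  obtain ⟨c, rfl⟩ := Nat.exists_eq_add_of_lt h
  rw [show n + c + 1 - (n + 1) = c by omega, show n + c + 1 - n = c + 1 by omega,
    ← add_assoc, Nat.factorial_succ c, Nat.factorial_succ (n + c + 1 + n)]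
  have h1 : ((n + c + 1).factorial : ℚ) ≠ 0 := by exact_mod_cast (n + c + 1).factorial_ne_zero
  push_cast
  field_simp
  ring

section
variable {N : ℕ} [hp : Fact (N + 1).Prime]

/-- the kernel modulo `p²` -/
theorem Rr_app (t c : ℕ) (hc : 0 < c) (ht : t + 1 = c * (N + 1)) {n : ℕ} (hn : n + 1 ≤ N) :
    M (N + 1) 2 (Rr t (n + 1) - (-1) ^ (n + 1) * c * ((N + 1 : ℕ) : ℚ) * pw 1 (n + 1)) := by
  have htN : N ≤ t := by
    have : N + 1 ≤ c * (N + 1) := Nat.le_mul_of_pos_left _ hc
    omega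
  -- the inverses of `t - n`
  have hw : ∀ m, m + 1 ≤ N → ((t - m : ℕ) : ℚ)⁻¹ ∈ O (N + 1) := by
    intro m hm
    apply inv_mem
    intro hd
    have h1 : (N + 1) ∣ (t - m) + (m + 1) := by
      rw [show (t - m) + (m + 1) = t + 1 by omega, ht]
      exact dvd_mul_left _ _
    have h2 := (Nat.dvd_add_right hd).mp h1
    have := Nat.le_of_dvd (by omega) h2
    omega
  have hr : ∀ m, m + 1 ≤ N → ((t - m : ℕ) : ℚ)⁻¹ + pw 1 (m + 1)
      = c * ((N + 1 : ℕ) : ℚ) * pw 1 (m + 1) * ((t - m : ℕ) : ℚ)⁻¹ := by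
    intro m hm
    have h1 : ((t : ℚ) + 1) = c * ((N + 1 : ℕ) : ℚ) := by exact_mod_cast ht
    have h2 : (((t - m : ℕ)) : ℚ) ≠ 0 := by
      have : 0 < t - m := by omega
      positivity
    have h3 : ((t - m : ℕ) : ℚ) = (t : ℚ) - m := by rw [Nat.cast_sub (by omega)]
    have h4 : (m : ℚ) + 1 ≠ 0 := by positivity
    rw [← h1]
    rw [h3] at h2 ⊢
    simp only [pw, pow_one]
    push_cast
    field_simp
    ring
  induction n with
  | zero =>
    have h0 : Rr t 0 = 1 := by
      unfold Rr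
      have h1 : (t.factorial : ℚ) ≠ 0 := by exact_mod_cast t.factorial_ne_zero
      simp only [Nat.sub_zero, add_zero]
      field_simp
    have h1 := Rr_ratio t 0 (by omega)
    rw [h0, add_zero, ht, one_mul] at h1
    have h2 := hr 0 hn
    have h3 := hw 0 hn
    have h4 : pw 1 (0 + 1) = 1 := by simp [pw]
    rw [h4] at h2 ⊢
    have hcm := nat_mem (p := N + 1) c
    refine (M_pow (p := N + 1) 2 (mul_mem (mul_mem hcm hcm) h3)).congr ?_
    rw [h1]
    push_cast at h2 ⊢
    linear_combination (c * ((N : ℚ) + 1)) * h2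
  | succ n ih =>
    have h1 := ih (by omega)
    have h2 := hr (n + 1) (by omega)
    have h3 := hw (n + 1) (by omega)
    have h4 := Rr_ratio t (n + 1) (by omega)
    have hcm := nat_mem (p := N + 1) c
    have h5 : ((t + 1 + (n + 1) : ℕ) : ℚ) * ((t - (n + 1) : ℕ) : ℚ)⁻¹ ∈ O (N + 1) :=
      mul_mem (nat_mem _) h3
    have x1 := pws_mem 1 (N := N) (i := n) (by omega)
    have x2 := pws_mem 1 (N := N) (i := n + 1) (by omega)
    have hm1 : ((-1 : ℚ)) ^ (n + 1) ∈ O (N + 1) := pow_mem (neg_mem (one_mem _)) _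
    have h6 : ((n : ℚ) + 1) * pw 1 (n + 1) = 1 := by
      simp only [pw, pow_one]
      push_cast
      exact mul_inv_cancel₀ (by positivity)
    have h7 : ((t + 1 + (n + 1) : ℕ) : ℚ) = c * ((N + 1 : ℕ) : ℚ) + (n + 1) := by
      rw [ht]; push_cast; ring
    rw [h4]
    generalize hW : ((t - (n + 1) : ℕ) : ℚ)⁻¹ = w at *
    have h8 : (-1) ^ (n + 1) * c * (c * (pw 1 (n + 1) * w) + c * (pw 1 (n + 1 + 1) * w))
        ∈ O (N + 1) := by (repeat' (first | with_reducible assumption | with_reducible exact nat_mem _ | with_reducible exact one_mem _ | with_reducible exact zero_mem _ | with_reducible exact ofNat_mem _ _ | with_reducible apply add_mem | with_reducible apply sub_mem | with_reducible apply mul_mem | with_reducible apply pow_mem | with_reducible apply neg_mem))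
    refine ((h1.smulr _ h5).add (M_pow 2 h8)).congr ?_
    rw [h7, pow_succ (-1 : ℚ) (n + 1)]
    linear_combination ((-1) ^ (n + 1) * c * ((N + 1 : ℕ) : ℚ)) * h2 + (-1) ^ (n + 1) * c * ((N + 1 : ℕ) : ℚ) * w * h6

/-- alternating power sums with even exponents -/
theorem alt_sum (h7 : 7 < N + 1) (hN : Even N) (a : ℕ) (ha : Even a) :
    M (N + 1) 1 (S1 (fun k => (-1) ^ k * pw a k) N) := by
  have h1 := rev1 (fun k => (-1) ^ k * pw a k) N
  have h2 : M (N + 1) 1 (S1 (fun k => (-1) ^ (N + 1 - k) * pw a (N + 1 - k)) N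
      - S1 (fun k => -((-1) ^ k * pw a k)) N) := by
    apply S1_sub_M _ le_rfl
    intro i hi
    have h3 := refl_M1 (N := N) a hi
    rw [ha.neg_one_pow, one_mul] at h3
    have h4 : ((-1 : ℚ)) ^ (N + 1 - (i + 1)) = -(-1) ^ (i + 1) := by
      have e : N + 1 - (i + 1) + (i + 1) = N + 1 := by omega
      have e2 : ((-1 : ℚ)) ^ (N + 1 - (i + 1)) * (-1) ^ (i + 1) = -1 := by
        rw [← pow_add, e, pow_succ, hN.neg_one_pow]; ring
      have e3 : ((-1 : ℚ)) ^ (i + 1) * (-1) ^ (i + 1) = 1 := by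
        rw [← mul_pow]; norm_num
      linear_combination (-1) ^ (i + 1) * e2 - (-1) ^ (N + 1 - (i + 1)) * e3
    rw [h4]
    have h5 : ((-1 : ℚ)) ^ (i + 1) ∈ O (N + 1) := pow_mem (neg_mem (one_mem _)) _
    exact (h3.smul _ (neg_mem h5)).congr (by ring)
  have e1 : S1 (fun k => -((-1) ^ k * pw a k)) N = -S1 (fun k => (-1) ^ k * pw a k) N := by
    simp [S1, sum_neg_distrib]
  rw [e1, ← h1] at h2
  have h6 : M (N + 1) 1 ((2 : ℕ) * S1 (fun k => (-1) ^ k * pw a k) N) :=
    h2.congr (by push_cast; ring)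
  exact h6.of_nat_mul (not_dvd_of_lt (by omega) (by omega))

theorem AA_M (h7 : 7 < N + 1) (hN : Even N) (a : ℕ) (ha : Even (a + 1)) (t c : ℕ) (hc : 0 < c)
    (ht : t + 1 = c * (N + 1)) : M (N + 1) 2 (AA a N t) := by
  have h1 := alt_sum h7 hN (a + 1) ha
  have h2 : M (N + 1) 2 (AA a N t - (c : ℚ) * (((N + 1 : ℕ) : ℚ) ^ 1 * S1 (fun k => (-1) ^ k * pw (a + 1) k) N)) := by
    simp only [AA, S1, mul_sum, ← sum_sub_distrib]
    apply M.sum
    intro i hi
    rw [mem_range] at hi
    have h3 := Rr_app (N := N) t c hc ht (n := i) (by omega)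
    refine (h3.smulr _ (pws_mem a hi)).congr ?_
    rw [← pw_mul a 1]
    ring
  have h3 : M (N + 1) 2 ((c : ℚ) * (((N + 1 : ℕ) : ℚ) ^ 1 * S1 (fun k => (-1) ^ k * pw (a + 1) k) N)) :=
    (h1.pmul 1).smul _ (nat_mem _)
  exact (h2.add h3).congr (by ring)

/-! ### the sums with `cc` and `nu` -/

theorem cc_O {i : ℕ} (hi : i < N) : cc N (i + 1) ∈ O (N + 1) := cpw_mem 2 (by omega) (by omega)

theorem C2_app (h7 : 7 < N + 1) : M (N + 1) 2 (S1 (cc N) N - S1 (pw 2) N) := by
  have h1 := S1_app (N := N) (f := cc N) (f0 := pw 2) (f1 := fun k => -2 * pw 3 k)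
    (fun i hi => cc_app (by omega) (by omega)) le_rfl
  have h2 : S1 (fun k => -2 * pw 3 k) N = -2 * S1 (pw 3) N := by simp [S1, mul_sum]
  rw [h2] at h1
  have h3 := ((H3 h7).pmul 1).mono (show 2 ≤ 1 + 2 by omega)
  exact (h1.sub (h3.smul 2 two_mem)).congr (by ring)

theorem S22_M (h7 : 7 < N + 1) : M (N + 1) 1 (S2 (pw 2) (pw 2) N) := by
  have c := st11 (pw 2) (pw 2) N
  rw [pwf_mul] at c
  norm_num at c
  have h2 := H_M1 h7 2 (by omega) (by omega)
  have h4 := H_M1 h7 4 (by omega) (by omega)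
  have h6 : M (N + 1) 1 ((2 : ℕ) * S2 (pw 2) (pw 2) N) :=
    ((h2.smul _ h2.mem).sub h4).congr (by push_cast; linear_combination -c)
  exact h6.of_nat_mul (not_dvd_of_lt (by omega) (by omega))

theorem C22_M (h7 : 7 < N + 1) : M (N + 1) 1 (S2 (cc N) (cc N) N) := by
  have h1 : ∀ i < N, M (N + 1) 1 (cc N (i + 1) - pw 2 (i + 1)) := by
    intro i hi
    have h2 := (cc_app (N := N) (k := i + 1) (by omega) (by omega)).mono (show 1 ≤ 2 by omega)
    have h3 : M (N + 1) 1 (((N + 1 : ℕ) : ℚ) ^ 1 * (-2 * pw 3 (i + 1))) :=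
      M_pow 1 (mul_mem (neg_mem two_mem) (pws_mem 3 hi))
    exact (h2.add h3).congr (by ring)
  have h2 := S2_sub_M (N := N) (m := 1) (f := cc N) (f' := pw 2) (g := cc N) (g' := pw 2)
    (Ov_pw 2) (fun i hi => cc_O hi) h1 h1 le_rfl
  exact (h2.add (S22_M h7)).congr (by ring)

theorem nucc_app (h7 : 7 < N + 1) : M (N + 1) 2 (S3 (nu N) (cc N) (cc N) N
    - (1 / 2 * S3 (pw 1) (pw 2) (pw 2) N
      - ((N + 1 : ℕ) : ℚ) * (S3 (pw 1) (pw 3) (pw 2) N + S3 (pw 1) (pw 2) (pw 3) N))) := by
  have hh := half_mem h7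
  have h1 := S3_app (N := N) (f := nu N) (f0 := fun k => 1 / 2 * pw 1 k)
    (f1 := fun k => 1 / 2 * (-3 * pw 2 k)) (g := cc N) (g0 := pw 2) (g1 := fun k => -2 * pw 3 k)
    (k := cc N) (k0 := pw 2) (k1 := fun k => -2 * pw 3 k)
    (fun i hi => nu_app h7 (by omega)) (fun i hi => cc_app (by omega) (by omega))
    (fun i hi => cc_app (by omega) (by omega))
    (fun i hi => mul_mem hh (pws_mem 1 hi))
    (fun i hi => by have := pws_mem 2 hi; (repeat' (first | with_reducible assumption | with_reducible exact nat_mem _ | with_reducible exact one_mem _ | with_reducible exact zero_mem _ | with_reducible exact ofNat_mem _ _ | with_reducible apply add_mem | with_reducible apply sub_mem | with_reducible apply mul_mem | with_reducible apply pow_mem | with_reducible apply neg_mem))) (Ov_pw 2)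
    (fun i hi => by have := pws_mem 3 hi; (repeat' (first | with_reducible assumption | with_reducible exact nat_mem _ | with_reducible exact one_mem _ | with_reducible exact zero_mem _ | with_reducible exact ofNat_mem _ _ | with_reducible apply add_mem | with_reducible apply sub_mem | with_reducible apply mul_mem | with_reducible apply pow_mem | with_reducible apply neg_mem))) (Ov_pw 2)
    (fun i hi => by have := pws_mem 3 hi; (repeat' (first | with_reducible assumption | with_reducible exact nat_mem _ | with_reducible exact one_mem _ | with_reducible exact zero_mem _ | with_reducible exact ofNat_mem _ _ | with_reducible apply add_mem | with_reducible apply sub_mem | with_reducible apply mul_mem | with_reducible apply pow_mem | with_reducible apply neg_mem))) le_rfl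
  have e1 := S3_smul (1 / 2) 1 1 (pw 1) (pw 2) (pw 2) N
  have e2 := S3_smul (1 / 2 * -3) 1 1 (pw 2) (pw 2) (pw 2) N
  have e3 := S3_smul (1 / 2) (-2) 1 (pw 1) (pw 3) (pw 2) N
  have e4 := S3_smul (1 / 2) 1 (-2) (pw 1) (pw 2) (pw 3) N
  simp only [one_mul, mul_one, mul_assoc] at e1 e2 e3 e4
  rw [e1, e2, e3, e4] at h1
  have h5 := ((T222 h7).pmul 1).smul _ hh
  exact (h1.sub (h5.smul 3 (by (repeat' (first | with_reducible assumption | with_reducible exact nat_mem _ | with_reducible exact one_mem _ | with_reducible exact zero_mem _ | with_reducible exact ofNat_mem _ _ | with_reducible apply add_mem | with_reducible apply sub_mem | with_reducible apply mul_mem | with_reducible apply pow_mem | with_reducible apply neg_mem))))).congr (by ring)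

end

end Pool.Agent.H39.SC
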