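import Pool.Agent.H39.SC.Cong7

/-!
# The sums of the squares `(j! (N-1-j)! / N!)²`, and the final congruence

Helper file for MP_3b7928_nt.  Here `p = N + 1` is a prime greater than `7`.
-/

namespace Pool.Agent.H39.SC
open Finset

theorem S1_tail (f : ℕ → ℚ) (N : ℕ) {j : ℕ} (hj : j ≤ N) :
    S1 f (N - j) = S1 f N - S1 (fun k => f (N + 1 - k)) j := by
  induction j with
  | zero => simp
  | succ j ih =>
    have h1 := ih (by omega)
    have h2 : N - j = (N - (j + 1)) + 1 := by omega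
    rw [h2, S1_succ] at h1
    rw [S1_succ]
    have h3 : N + 1 - (j + 1) = N - (j + 1) + 1 := by omega
    rw [h3]
    linear_combination h1

theorem V0_bb (N : ℕ) : V0 N / q N = ∑ j ∈ range N, bb N j := by
  rw [V0, sum_div]
  rfl

theorem V2_bb (N : ℕ) : V2 N / q N = ∑ j ∈ range N, bb N j * (h2 j + h2 (N - 1 - j)) := by
  rw [V2, sum_div]
  apply sum_congr rfl
  intro j _
  rw [bb]
  ring

section sums
variable (N : ℕ)

theorem in1 (a b : ℕ) : ∑ j ∈ range N, pw b (j + 1) * S1 (pw a) (j + 1)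
    = S2 (pw a) (pw b) N + S1 (pw (a + b)) N := by
  have e1 : S2 (pw a) (pw b) N = ∑ j ∈ range N, S1 (pw a) j * pw b (j + 1) := rfl
  have e2 : S1 (pw (a + b)) N = ∑ j ∈ range N, pw (a + b) (j + 1) := rfl
  rw [e1, e2, ← sum_add_distrib]
  apply sum_congr rfl
  intro j _
  rw [S1_succ, ← pw_mul]
  ring

theorem in2 : ∑ j ∈ range N, pw 4 (j + 1) * S1 (pw 1) (j + 1) ^ 2
    = 2 * S3 (pw 1) (pw 1) (pw 4) N + S2 (pw 2) (pw 4) N + 2 * S2 (pw 1) (pw 5) N
      + S1 (pw 6) N := by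
  have e1 : S3 (pw 1) (pw 1) (pw 4) N = ∑ j ∈ range N, S2 (pw 1) (pw 1) j * pw 4 (j + 1) := rfl
  have e2 : S2 (pw 2) (pw 4) N = ∑ j ∈ range N, S1 (pw 2) j * pw 4 (j + 1) := rfl
  have e3 : S2 (pw 1) (pw 5) N = ∑ j ∈ range N, S1 (pw 1) j * pw 5 (j + 1) := rfl
  have e4 : S1 (pw 6) N = ∑ j ∈ range N, pw 6 (j + 1) := rfl
  rw [e1, e2, e3, e4, mul_sum, mul_sum, ← sum_add_distrib, ← sum_add_distrib, ← sum_add_distrib]
  apply sum_congr rfl
  intro j _
  have h := st11 (pw 1) (pw 1) j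
  rw [pwf_mul] at h
  norm_num at h
  rw [S1_succ, pw_eq 4, pw_eq 5, pw_eq 6]
  linear_combination pw 1 (j + 1) ^ 4 * h

theorem in3 : ∑ j ∈ range N, pw 2 (j + 1) * (S1 (pw 1) (j + 1) * S1 (pw 3) (j + 1))
    = S3 (pw 1) (pw 3) (pw 2) N + S3 (pw 3) (pw 1) (pw 2) N + S2 (pw 4) (pw 2) N
      + S2 (pw 3) (pw 3) N + S2 (pw 1) (pw 5) N + S1 (pw 6) N := by
  have e1 : S3 (pw 1) (pw 3) (pw 2) N = ∑ j ∈ range N, S2 (pw 1) (pw 3) j * pw 2 (j + 1) := rfl
  have e1' : S3 (pw 3) (pw 1) (pw 2) N = ∑ j ∈ range N, S2 (pw 3) (pw 1) j * pw 2 (j + 1) := rfl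
  have e2 : S2 (pw 4) (pw 2) N = ∑ j ∈ range N, S1 (pw 4) j * pw 2 (j + 1) := rfl
  have e2' : S2 (pw 3) (pw 3) N = ∑ j ∈ range N, S1 (pw 3) j * pw 3 (j + 1) := rfl
  have e3 : S2 (pw 1) (pw 5) N = ∑ j ∈ range N, S1 (pw 1) j * pw 5 (j + 1) := rfl
  have e4 : S1 (pw 6) N = ∑ j ∈ range N, pw 6 (j + 1) := rfl
  rw [e1, e1', e2, e2', e3, e4, ← sum_add_distrib, ← sum_add_distrib, ← sum_add_distrib,
    ← sum_add_distrib, ← sum_add_distrib]
  apply sum_congr rfl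
  intro j _
  have h := st11 (pw 1) (pw 3) j
  rw [pwf_mul] at h
  norm_num at h
  rw [S1_succ, S1_succ, pw_eq 2, pw_eq 5, pw_eq 6, pw_eq 3]
  linear_combination pw 1 (j + 1) ^ 2 * h

end sums

section
variable {N : ℕ} [hp : Fact (N + 1).Prime]

/-- the expansion of `(j! (N-1-j)! / N!)²` -/
def EE (p j : ℕ) : ℚ := 1 + 2 * (p : ℚ) * S1 (pw 1) (j + 1)
  + (p : ℚ) ^ 2 * (2 * S1 (pw 1) (j + 1) ^ 2 + S1 (pw 2) (j + 1))

theorem bb_mem (j : ℕ) : bb N j ∈ O (N + 1) := by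
  have h1 : ((N.factorial : ℚ))⁻¹ ∈ O (N + 1) := by
    apply inv_mem
    rw [hp.out.dvd_factorial]; omega
  have h2 : bb N j = (j.factorial : ℚ) ^ 2 * ((N - 1 - j).factorial : ℚ) ^ 2
      * ((N.factorial : ℚ)⁻¹) ^ 2 := by
    simp only [bb, q]
    rw [div_eq_mul_inv, inv_pow]
  rw [h2]
  (repeat' (first | with_reducible assumption | with_reducible exact nat_mem _ | with_reducible exact one_mem _ | with_reducible exact zero_mem _ | with_reducible exact ofNat_mem _ _ | with_reducible apply add_mem | with_reducible apply sub_mem | with_reducible apply mul_mem | with_reducible apply pow_mem | with_reducible apply neg_mem))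

theorem EE_mem {j : ℕ} (hj : j < N) : EE (N + 1) j ∈ O (N + 1) := by
  have h1 : S1 (pw 1) (j + 1) ∈ O (N + 1) := S1_mem (Ov_pw 1) (by omega)
  have h2 : S1 (pw 2) (j + 1) ∈ O (N + 1) := S1_mem (Ov_pw 2) (by omega)
  unfold EE
  (repeat' (first | with_reducible assumption | with_reducible exact nat_mem _ | with_reducible exact one_mem _ | with_reducible exact zero_mem _ | with_reducible exact ofNat_mem _ _ | with_reducible apply add_mem | with_reducible apply sub_mem | with_reducible apply mul_mem | with_reducible apply pow_mem | with_reducible apply neg_mem))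

theorem bb_app {j : ℕ} (hj : j < N) :
    M (N + 1) 3 (bb N j - pw 2 (j + 1) * EE (N + 1) j) := by
  have h1 := bb_Q N j hj
  have h2 := Q_exp (N := N) (j := j + 1) (by omega)
  have h3 := st11 (pw 1) (pw 1) (j + 1)
  rw [pwf_mul] at h3
  norm_num at h3
  have m1 : S1 (pw 1) (j + 1) ∈ O (N + 1) := S1_mem (Ov_pw 1) (by omega)
  have m2 : S2 (pw 1) (pw 1) (j + 1) ∈ O (N + 1) := S2_mem (Ov_pw 1) (Ov_pw 1) (by omega)
  have m3 := EE_mem (N := N) hj
  have m4 := bb_mem (N := N) j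
  have h4 : S1 (pw 2) (j + 1) = S1 (pw 1) (j + 1) ^ 2 - 2 * S2 (pw 1) (pw 1) (j + 1) := by
    linear_combination -h3
  have mA : 1 - ((N + 1 : ℕ) : ℚ) * S1 (pw 1) (j + 1) + ((N + 1 : ℕ) : ℚ) ^ 2 * S2 (pw 1) (pw 1) (j + 1) ∈ O (N + 1) := by (repeat' (first | with_reducible assumption | with_reducible exact nat_mem _ | with_reducible exact one_mem _ | with_reducible exact zero_mem _ | with_reducible exact ofNat_mem _ _ | with_reducible apply add_mem | with_reducible apply sub_mem | with_reducible apply mul_mem | with_reducible apply pow_mem | with_reducible apply neg_mem))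
  have mQ : Q (N + 1) (j + 1) ∈ O (N + 1) := by
    have := add_mem h2.mem mA
    simpa using this
  have h5 := M.pow_sub mQ mA h2 2
  have h6 : M (N + 1) 3 (Q (N + 1) (j + 1) ^ 2 * EE (N + 1) j - 1) := by
    have y : -4 * S1 (pw 1) (j + 1) ^ 3 + 6 * S1 (pw 1) (j + 1) * S2 (pw 1) (pw 1) (j + 1)
        + ((N + 1 : ℕ) : ℚ) * (3 * S1 (pw 1) (j + 1) ^ 4 - 3 * S2 (pw 1) (pw 1) (j + 1) ^ 2)
        + ((N + 1 : ℕ) : ℚ) ^ 2 * (-6 * S1 (pw 1) (j + 1) ^ 3 * S2 (pw 1) (pw 1) (j + 1)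
          + 6 * S1 (pw 1) (j + 1) * S2 (pw 1) (pw 1) (j + 1) ^ 2)
        + ((N + 1 : ℕ) : ℚ) ^ 3 * (S2 (pw 1) (pw 1) (j + 1) ^ 2 * (3 * S1 (pw 1) (j + 1) ^ 2
          - 2 * S2 (pw 1) (pw 1) (j + 1))) ∈ O (N + 1) := by (repeat' (first | with_reducible assumption | with_reducible exact nat_mem _ | with_reducible exact one_mem _ | with_reducible exact zero_mem _ | with_reducible exact ofNat_mem _ _ | with_reducible apply add_mem | with_reducible apply sub_mem | with_reducible apply mul_mem | with_reducible apply pow_mem | with_reducible apply neg_mem))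
    refine ((h5.smulr _ m3).add (M_pow 3 y)).congr ?_
    unfold EE
    rw [h4]
    ring
  refine ((h6.smul _ m4).neg).congr ?_
  rw [← h1]
  ring

theorem y2_rel3 {i : ℕ} (hi : i < N) :
    M (N + 1) 3 (pw 2 (N + 1 - (i + 1)) - (pw 2 (i + 1) + 2 * ((N + 1 : ℕ) : ℚ) * pw 3 (i + 1)
      + 3 * ((N + 1 : ℕ) : ℚ) ^ 2 * pw 4 (i + 1))) := by
  have h3 := refl_rel hi
  have m1 := pwr_mem 2 hi
  have m2 := pws_mem 3 hi
  have m3 := pws_mem 1 hi
  have m4 : pw 2 (N + 1 - (i + 1)) * pw 3 (i + 1) * (4 - 3 * (((N + 1 : ℕ) : ℚ) * pw 1 (i + 1))) ∈ O (N + 1) := by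
    (repeat' (first | with_reducible assumption | with_reducible exact nat_mem _ | with_reducible exact one_mem _ | with_reducible exact zero_mem _ | with_reducible exact ofNat_mem _ _ | with_reducible apply add_mem | with_reducible apply sub_mem | with_reducible apply mul_mem | with_reducible apply pow_mem | with_reducible apply neg_mem))
  refine (M_pow 3 m4).congr ?_
  rw [pw_eq 2, pw_eq 3, pw_eq 2 (i + 1), pw_eq 4]
  generalize pw 1 (N + 1 - (i + 1)) = y at *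
  generalize pw 1 (i + 1) = x at *
  linear_combination (1 + 2 * (((N + 1 : ℕ) : ℚ) * x) + 3 * (((N + 1 : ℕ) : ℚ) * x) ^ 2) * ((1 - ((N + 1 : ℕ) : ℚ) * x) * y - x) * h3

theorem hh_app {j : ℕ} (hj : j < N) :
    M (N + 1) 3 ((h2 j + h2 (N - 1 - j)) - (S1 (pw 2) N - pw 2 (j + 1)
      - 2 * ((N + 1 : ℕ) : ℚ) * S1 (pw 3) (j + 1) - 3 * ((N + 1 : ℕ) : ℚ) ^ 2 * S1 (pw 4) (j + 1))) := by
  have h1 := S1_tail (pw 2) N (j := j + 1) (by omega)
  rw [show N - (j + 1) = N - 1 - j by omega] at h1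
  have h3 : M (N + 1) 3 (S1 (fun k => pw 2 (N + 1 - k)) (j + 1) - (S1 (pw 2) (j + 1)
      + 2 * ((N + 1 : ℕ) : ℚ) * S1 (pw 3) (j + 1) + 3 * ((N + 1 : ℕ) : ℚ) ^ 2 * S1 (pw 4) (j + 1))) := by
    simp only [S1, mul_sum, ← sum_sub_distrib, ← sum_add_distrib]
    apply M.sum
    intro i hi
    rw [mem_range] at hi
    exact y2_rel3 (by omega)
  refine h3.neg.congr ?_
  rw [show h2 (N - 1 - j) = S1 (pw 2) (N - 1 - j) from rfl, show h2 j = S1 (pw 2) j from rfl, h1,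
    S1_succ (pw 2) j]
  ring

/-- the sum of the squares, first form -/
theorem W0_app : M (N + 1) 3 (V0 N / q N - ∑ j ∈ range N, pw 2 (j + 1) * EE (N + 1) j) := by
  rw [V0_bb, ← sum_sub_distrib]
  apply M.sum
  intro j hj
  exact bb_app (mem_range.mp hj)

theorem W0_app2 : M (N + 1) 2 (V0 N / q N - (S1 (pw 2) N
    + 2 * ((N + 1 : ℕ) : ℚ) * (S2 (pw 1) (pw 2) N + S1 (pw 3) N))) := by
  have h1 := (W0_app (N := N)).mono (show 2 ≤ 3 by omega)
  have h2 := in1 N 1 2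
  norm_num at h2
  rw [← h2]
  have e2 : S1 (pw 2) N = ∑ j ∈ range N, pw 2 (j + 1) := rfl
  have h3 : M (N + 1) 2 ((∑ j ∈ range N, pw 2 (j + 1) * EE (N + 1) j) - (S1 (pw 2) N
      + 2 * ((N + 1 : ℕ) : ℚ) * ∑ j ∈ range N, pw 2 (j + 1) * S1 (pw 1) (j + 1))) := by
    rw [e2]
    simp only [mul_sum, ← sum_sub_distrib, ← sum_add_distrib]
    apply M.sum
    intro j hj
    rw [mem_range] at hj
    have m1 : S1 (pw 1) (j + 1) ∈ O (N + 1) := S1_mem (Ov_pw 1) (by omega)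
    have m2 : S1 (pw 2) (j + 1) ∈ O (N + 1) := S1_mem (Ov_pw 2) (by omega)
    have m3 := pws_mem 2 hj
    have m4 : pw 2 (j + 1) * (2 * S1 (pw 1) (j + 1) ^ 2 + S1 (pw 2) (j + 1)) ∈ O (N + 1) := by
      (repeat' (first | with_reducible assumption | with_reducible exact nat_mem _ | with_reducible exact one_mem _ | with_reducible exact zero_mem _ | with_reducible exact ofNat_mem _ _ | with_reducible apply add_mem | with_reducible apply sub_mem | with_reducible apply mul_mem | with_reducible apply pow_mem | with_reducible apply neg_mem))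
    refine (M_pow 2 m4).congr ?_
    unfold EE
    ring
  exact (h1.add h3).congr (by ring)

theorem W2_app : M (N + 1) 3 (V2 N / q N - (S1 (pw 2) N * (V0 N / q N) - S1 (pw 4) N
    - 2 * ((N + 1 : ℕ) : ℚ) * (S2 (pw 1) (pw 4) N + S1 (pw 5) N + (S2 (pw 3) (pw 2) N + S1 (pw 5) N))
    - ((N + 1 : ℕ) : ℚ) ^ 2 * (2 * (2 * S3 (pw 1) (pw 1) (pw 4) N + S2 (pw 2) (pw 4) N + 2 * S2 (pw 1) (pw 5) N
      + S1 (pw 6) N) + (S2 (pw 2) (pw 4) N + S1 (pw 6) N)
      + 4 * (S3 (pw 1) (pw 3) (pw 2) N + S3 (pw 3) (pw 1) (pw 2) N + S2 (pw 4) (pw 2) N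
      + S2 (pw 3) (pw 3) N + S2 (pw 1) (pw 5) N + S1 (pw 6) N)
      + 3 * (S2 (pw 4) (pw 2) N + S1 (pw 6) N)))) := by
  have i1 := in1 N 1 4
  have i2 := in1 N 3 2
  have i3 := in1 N 2 4
  have i4 := in1 N 4 2
  norm_num at i1 i2 i3 i4
  rw [← i1, ← i2, ← i3, ← i4, ← in2, ← in3]
  have e4 : S1 (pw 4) N = ∑ j ∈ range N, pw 4 (j + 1) := rfl
  have h1 := (W0_app (N := N))
  have mH : S1 (pw 2) N ∈ O (N + 1) := S1_mem (Ov_pw 2) le_rfl
  -- step 1
  have s1 : M (N + 1) 3 (V2 N / q N - ∑ j ∈ range N, (pw 2 (j + 1) * EE (N + 1) j) *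
      (S1 (pw 2) N - pw 2 (j + 1) - 2 * ((N + 1 : ℕ) : ℚ) * S1 (pw 3) (j + 1)
        - 3 * ((N + 1 : ℕ) : ℚ) ^ 2 * S1 (pw 4) (j + 1))) := by
    rw [V2_bb, ← sum_sub_distrib]
    apply M.sum
    intro j hj
    rw [mem_range] at hj
    have m3 : S1 (pw 3) (j + 1) ∈ O (N + 1) := S1_mem (Ov_pw 3) (by omega)
    have m4 : S1 (pw 4) (j + 1) ∈ O (N + 1) := S1_mem (Ov_pw 4) (by omega)
    have m5 := pws_mem 2 hj
    have m6 := EE_mem hj
    have n1 : h2 j ∈ O (N + 1) := S1_mem (Ov_pw 2) (by omega)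
    have n2 : h2 (N - 1 - j) ∈ O (N + 1) := S1_mem (Ov_pw 2) (by omega)
    exact M.mul_sub (mul_mem m5 m6) (add_mem n1 n2) (bb_app hj) (hh_app hj)
  -- step 2
  have s2 : M (N + 1) 3 ((∑ j ∈ range N, (pw 2 (j + 1) * EE (N + 1) j) *
      (S1 (pw 2) N - pw 2 (j + 1) - 2 * ((N + 1 : ℕ) : ℚ) * S1 (pw 3) (j + 1)
        - 3 * ((N + 1 : ℕ) : ℚ) ^ 2 * S1 (pw 4) (j + 1)))
      - (S1 (pw 2) N * (∑ j ∈ range N, pw 2 (j + 1) * EE (N + 1) j)
        - S1 (pw 4) N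
        - 2 * ((N + 1 : ℕ) : ℚ) * ((∑ j ∈ range N, pw 4 (j + 1) * S1 (pw 1) (j + 1))
          + ∑ j ∈ range N, pw 2 (j + 1) * S1 (pw 3) (j + 1))
        - ((N + 1 : ℕ) : ℚ) ^ 2 * (2 * (∑ j ∈ range N, pw 4 (j + 1) * S1 (pw 1) (j + 1) ^ 2)
          + (∑ j ∈ range N, pw 4 (j + 1) * S1 (pw 2) (j + 1))
          + 4 * (∑ j ∈ range N, pw 2 (j + 1) * (S1 (pw 1) (j + 1) * S1 (pw 3) (j + 1)))
          + 3 * (∑ j ∈ range N, pw 2 (j + 1) * S1 (pw 4) (j + 1))))) := by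
    rw [e4]
    generalize hB : S1 (pw 2) N = B at *
    simp only [mul_sum, ← sum_sub_distrib, ← sum_add_distrib]
    apply M.sum
    intro j hj
    rw [mem_range] at hj
    have m1 : S1 (pw 1) (j + 1) ∈ O (N + 1) := S1_mem (Ov_pw 1) (by omega)
    have m2 : S1 (pw 2) (j + 1) ∈ O (N + 1) := S1_mem (Ov_pw 2) (by omega)
    have m3 : S1 (pw 3) (j + 1) ∈ O (N + 1) := S1_mem (Ov_pw 3) (by omega)
    have m4 : S1 (pw 4) (j + 1) ∈ O (N + 1) := S1_mem (Ov_pw 4) (by omega)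
    have m5 := pws_mem 2 hj
    have m6 : -(pw 2 (j + 1) * (6 * S1 (pw 1) (j + 1) * S1 (pw 4) (j + 1)
        + (2 * S1 (pw 1) (j + 1) ^ 2 + S1 (pw 2) (j + 1)) * (2 * S1 (pw 3) (j + 1)
          + 3 * ((N + 1 : ℕ) : ℚ) * S1 (pw 4) (j + 1)))) ∈ O (N + 1) := by (repeat' (first | with_reducible assumption | with_reducible exact nat_mem _ | with_reducible exact one_mem _ | with_reducible exact zero_mem _ | with_reducible exact ofNat_mem _ _ | with_reducible apply add_mem | with_reducible apply sub_mem | with_reducible apply mul_mem | with_reducible apply pow_mem | with_reducible apply neg_mem))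
    refine (M_pow 3 m6).congr ?_
    unfold EE
    rw [pw_eq 2 (j + 1), pw_eq 4 (j + 1)]
    ring
  have s3 := h1.smul _ mH
  exact ((s1.add s2).sub s3).congr (by ring)

end

end Pool.Agent.H39.SC
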