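import Pool.Agent.H39.SC.Base

/-!
# Exact identities: sums without central binomial coefficients

Helper file for MP_3b7928_nt.
-/

namespace Pool.Agent.H39.SC
open Finset

/-- `(-1)^k C(n,k) C(n+k,n)` -/
def Bn (n k : ℕ) : ℚ := (-1) ^ k * (n.choose k : ℚ) * ((n + k).choose n : ℚ)

theorem legendre_sum (n : ℕ) : ∑ k ∈ range (n + 1), Bn n k = (-1) ^ n := by
  have h := Polynomial.shiftedLegendre_eval_symm n (1 : ℚ)
  simp only [sub_self] at h
  have h0 : Polynomial.aeval (0 : ℚ) (Polynomial.shiftedLegendre n) = 1 := by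
    rw [← Polynomial.coeff_zero_eq_aeval_zero']
    rw [Polynomial.coeff_shiftedLegendre]
    simp
  rw [h0, mul_one] at h
  rw [← h, Polynomial.shiftedLegendre, map_sum]
  apply sum_congr rfl
  intro k hk
  simp [Bn]

theorem Bn_zero (n : ℕ) : Bn n 0 = 1 := by simp [Bn]

theorem Bn_top (n : ℕ) : Bn n (n + 1) = 0 := by simp [Bn, Nat.choose_succ_self]

theorem legendre_sum' (n : ℕ) : ∑ k ∈ range n, Bn n (k + 1) = (-1) ^ n - 1 := by
  have h := legendre_sum n
  rw [sum_range_succ'] at h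
  rw [Bn_zero] at h
  linarith

theorem Bn_step (n k : ℕ) (hk : k ≤ n + 1) :
    ((n : ℚ) + 1 + k) * Bn n k = ((n : ℚ) + 1 - k) * Bn (n + 1) k := by
  have h1 : ((n.choose k : ℕ) : ℚ) * (n + 1) = ((n + 1).choose k : ℕ) * ((n : ℚ) + 1 - k) := by
    have := Nat.choose_mul_succ_eq n k
    have h2 : ((n.choose k * (n + 1) : ℕ) : ℚ) = (((n + 1).choose k * (n + 1 - k) : ℕ) : ℚ) := by
      exact_mod_cast this
    rw [Nat.cast_mul, Nat.cast_mul, Nat.cast_sub hk] at h2
    push_cast at h2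
    linarith
  have h2 : ((n : ℚ) + k + 1) * ((n + k).choose n : ℕ) = ((n + 1 + k).choose (n + 1) : ℕ) * (n + 1) := by
    have := Nat.add_one_mul_choose_eq (n + k) n
    have h3 : (((n + k + 1) * (n + k).choose n : ℕ) : ℚ)
        = (((n + k + 1).choose (n + 1) * (n + 1) : ℕ) : ℚ) := by exact_mod_cast this
    rw [show (n + k + 1).choose (n + 1) = (n + 1 + k).choose (n + 1) by congr 1; ring] at h3
    push_cast at h3
    push_cast
    linarith
  have hn : (n : ℚ) + 1 ≠ 0 := by positivity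
  apply mul_left_cancel₀ hn
  unfold Bn
  linear_combination (-1) ^ k * ((n : ℚ) + k + 1) * ((n + k).choose n : ℕ) * h1
    + (-1) ^ k * (((n + 1).choose k : ℕ) : ℚ) * ((n : ℚ) + 1 - k) * h2

theorem Bn_sum_inv (n : ℕ) : ∑ k ∈ range n, Bn n (k + 1) * pw 1 (k + 1) = -2 * S1 (pw 1) n := by
  induction n with
  | zero => simp
  | succ n ih =>
    have h1 : ∑ k ∈ range (n + 1), Bn n (k + 1) * pw 1 (k + 1) = -2 * S1 (pw 1) n := by
      rw [sum_range_succ, ih, Bn_top]; ring
    have h2 : ∑ k ∈ range (n + 1), Bn n (k + 1) = (-1) ^ n - 1 := by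
      rw [sum_range_succ, legendre_sum', Bn_top]; ring
    have h3 := legendre_sum' (n + 1)
    have hn : (n : ℚ) + 1 ≠ 0 := by positivity
    have h4 : ∑ k ∈ range (n + 1), Bn (n + 1) (k + 1) * pw 1 (k + 1)
        - ∑ k ∈ range (n + 1), Bn n (k + 1) * pw 1 (k + 1)
        = ((n : ℚ) + 1)⁻¹ * (∑ k ∈ range (n + 1), Bn (n + 1) (k + 1)
          + ∑ k ∈ range (n + 1), Bn n (k + 1)) := by
      rw [← sum_sub_distrib, ← sum_add_distrib, mul_sum]
      apply sum_congr rfl
      intro k hk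
      rw [mem_range] at hk
      have h5 := Bn_step n (k + 1) (by omega)
      push_cast at h5
      have hk0 : (k : ℚ) + 1 ≠ 0 := by positivity
      simp only [pw, pow_one]
      push_cast
      field_simp
      linear_combination -h5
    rw [h1, h2, h3] at h4
    rw [S1_succ, pw, pow_one]
    push_cast
    have : ((-1 : ℚ)) ^ (n + 1) = - (-1) ^ n := by rw [pow_succ]; ring
    rw [this] at h4
    linear_combination h4

theorem Bn_ratio (n k : ℕ) (hk : k ≤ n) :
    ((k : ℚ) + 1) ^ 2 * Bn n (k + 1) = -(((n : ℚ) - k) * (n + k + 1)) * Bn n k := by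
  have h1 : ((n.choose (k + 1) : ℕ) : ℚ) * (k + 1) = (n.choose k : ℕ) * ((n : ℚ) - k) := by
    have h2 : ((n.choose (k + 1) * (k + 1) : ℕ) : ℚ) = ((n.choose k * (n - k) : ℕ) : ℚ) := by
      exact_mod_cast Nat.choose_succ_right_eq n k
    rw [Nat.cast_mul, Nat.cast_mul, Nat.cast_sub hk] at h2
    push_cast at h2
    linarith
  have h2 : (((n + (k + 1)).choose n : ℕ) : ℚ) * (k + 1) = ((n + k).choose n : ℕ) * ((n : ℚ) + k + 1) := by
    have h3 : (((n + k + 1).choose (k + 1) * (k + 1) : ℕ) : ℚ)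
        = (((n + k + 1) * (n + k).choose k : ℕ) : ℚ) := by
      have := Nat.add_one_mul_choose_eq (n + k) k
      exact_mod_cast this.symm
    have h4 : (n + (k + 1)).choose n = (n + k + 1).choose (k + 1) := by
      rw [← Nat.choose_symm_of_eq_add (show n + (k + 1) = (k + 1) + n by ring)]
      rfl
    have h5 : (n + k).choose n = (n + k).choose k := by
      exact (Nat.choose_symm_of_eq_add (show n + k = n + k by ring))
    rw [h4, h5]
    push_cast at h3
    linarith
  unfold Bn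
  rw [pow_succ]
  linear_combination -((-1) ^ k) * (((n + (k + 1)).choose n : ℕ) : ℚ) * (k + 1) * h1
    - ((-1) ^ k) * ((n.choose k : ℕ) : ℚ) * ((n : ℚ) - k) * h2

/-- `∏ (1 - n² / i²)`, `1 ≤ i ≤ j` -/
def P (n j : ℕ) : ℚ := ∏ i ∈ range j, (1 - (n : ℚ) ^ 2 * pw 2 (i + 1))

theorem P_succ (n j : ℕ) : P n (j + 1) = P n j * (1 - (n : ℚ) ^ 2 * pw 2 (j + 1)) := by
  simp [P, prod_range_succ]

theorem Bn_eq_P (n j : ℕ) (hj : j + 1 ≤ n) :
    Bn n (j + 1) = -((n : ℚ) * (n + (j + 1)) * pw 2 (j + 1)) * P n j := by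
  induction j with
  | zero =>
    have := Bn_ratio n 0 (Nat.zero_le _)
    rw [Bn_zero] at this
    simp only [CharP.cast_eq_zero, zero_add] at this
    simp [P, pw]
    linarith
  | succ j ih =>
    have h1 := Bn_ratio n (j + 1) (by omega)
    have h2 := ih (by omega)
    have hj0 : (j : ℚ) + 1 ≠ 0 := by positivity
    have hj1 : (j : ℚ) + 1 + 1 ≠ 0 := by positivity
    rw [h2] at h1
    rw [P_succ]
    simp only [pw] at *
    push_cast at *
    field_simp at h1 ⊢
    linear_combination h1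

theorem Bn_eq_P' (N j : ℕ) (hj : j + 1 ≤ N) :
    Bn N (j + 1) = ((N : ℚ) + 1) * (pw 1 (j + 1) - ((N : ℚ) + 1) * pw 2 (j + 1)) * P (N + 1) j := by
  induction j with
  | zero =>
    have := Bn_ratio N 0 (Nat.zero_le _)
    rw [Bn_zero] at this
    simp only [CharP.cast_eq_zero, zero_add] at this
    simp [P, pw]
    linarith
  | succ j ih =>
    have h1 := Bn_ratio N (j + 1) (by omega)
    have h2 := ih (by omega)
    have hj0 : (j : ℚ) + 1 ≠ 0 := by positivity
    have hj1 : (j : ℚ) + 1 + 1 ≠ 0 := by positivity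
    rw [h2] at h1
    rw [P_succ]
    simp only [pw] at *
    push_cast at *
    field_simp at h1 ⊢
    linear_combination h1

theorem I2 (N : ℕ) (hN : Even N) :
    ∑ j ∈ range N, (pw 1 (j + 1) - ((N : ℚ) + 1) * pw 2 (j + 1)) * P (N + 1) j = 0 := by
  have h := legendre_sum' N
  rw [hN.neg_one_pow, sub_self] at h
  have hn : (N : ℚ) + 1 ≠ 0 := by positivity
  apply mul_left_cancel₀ hn
  rw [mul_zero, ← h, mul_sum]
  apply sum_congr rfl
  intro j hj
  rw [mem_range] at hj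
  rw [Bn_eq_P' N j (by omega)]
  ring

theorem P_tel (n j : ℕ) : (n : ℚ) ^ 2 * ∑ i ∈ range j, pw 2 (i + 1) * P n i = 1 - P n j := by
  induction j with
  | zero => simp [P]
  | succ j ih =>
    rw [sum_range_succ, mul_add, ih, P_succ]
    ring

theorem I1 (N : ℕ) :
    ((N : ℚ) + 1) ^ 3 * ∑ j ∈ range N, pw 3 (j + 1) * P (N + 1) j
      = 2 * ((N : ℚ) + 1) * S1 (pw 1) N + (1 - P (N + 1) N) := by
  have h := Bn_sum_inv (N + 1)
  have h1 : ∑ k ∈ range (N + 1), Bn (N + 1) (k + 1) * pw 1 (k + 1)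
      = ∑ k ∈ range (N + 1), (-(((N + 1 : ℕ) : ℚ) ^ 2 * (pw 3 (k + 1) * P (N + 1) k))
        - (((N + 1 : ℕ) : ℚ) * (pw 2 (k + 1) * P (N + 1) k))) := by
    apply sum_congr rfl
    intro k hk
    rw [mem_range] at hk
    rw [Bn_eq_P (N + 1) k (by omega)]
    have hk0 : (k : ℚ) + 1 ≠ 0 := by positivity
    simp only [pw]
    push_cast
    field_simp
    ring
  rw [h1, sum_sub_distrib, sum_neg_distrib, ← mul_sum, ← mul_sum, sum_range_succ,
    sum_range_succ, S1_succ] at h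
  have h2 := P_tel (N + 1) N
  have hn : (N : ℚ) + 1 ≠ 0 := by positivity
  generalize ∑ j ∈ range N, pw 3 (j + 1) * P (N + 1) j = A at *
  generalize ∑ j ∈ range N, pw 2 (j + 1) * P (N + 1) j = B at *
  have h3 : pw 3 (N + 1) = ((N : ℚ) + 1)⁻¹ ^ 3 := by simp [pw]
  have h4 : pw 2 (N + 1) = ((N : ℚ) + 1)⁻¹ ^ 2 := by simp [pw]
  have h5 : pw 1 (N + 1) = ((N : ℚ) + 1)⁻¹ := by simp [pw]
  rw [h3, h4, h5] at h
  push_cast at h h2
  field_simp at h
  linear_combination -h - h2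

end Pool.Agent.H39.SC
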