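import Pool.Agent.H39.SC.Exact1

/-!
# Exact identities: binomial transforms, the kernel `(t-n)! (t+n)! / t!²`

Helper file for MP_3b7928_nt.
-/

namespace Pool.Agent.H39.SC
open Finset

/-- `∑ (-1)^(k-1) C(n,k) / k^a`, `1 ≤ k ≤ n` -/
def Aa (a n : ℕ) : ℚ := ∑ j ∈ range n, (-1) ^ j * (n.choose (j + 1) : ℚ) * pw a (j + 1)

theorem Aa_zero (n : ℕ) : Aa 0 (n + 1) = 1 := by
  have h := Int.alternating_sum_range_choose (n := n + 1)
  rw [if_neg (by omega)] at h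
  rw [sum_range_succ'] at h
  simp only [pow_succ, Nat.choose_zero_right] at h
  have h2 : ∑ x ∈ range (n + 1), (-1 : ℤ) ^ x * ((n + 1).choose (x + 1) : ℤ) = 1 := by
    have e : ∑ x ∈ range (n + 1), (-1 : ℤ) ^ x * -1 * ((n + 1).choose (x + 1) : ℤ)
        = - ∑ x ∈ range (n + 1), (-1 : ℤ) ^ x * ((n + 1).choose (x + 1) : ℤ) := by
      rw [← sum_neg_distrib]
      apply sum_congr rfl
      intro x _
      ring
    rw [e] at h
    simp at h
    linarith
  have h3 : ((∑ x ∈ range (n + 1), (-1 : ℤ) ^ x * ((n + 1).choose (x + 1) : ℤ) : ℤ) : ℚ) = 1 := by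
    rw [h2]; simp
  push_cast at h3
  simp only [Aa, pw, pow_zero, mul_one]
  exact h3

theorem Aa_ext (a n : ℕ) :
    Aa a n = ∑ j ∈ range (n + 1), (-1) ^ j * (n.choose (j + 1) : ℚ) * pw a (j + 1) := by
  rw [sum_range_succ, Nat.choose_succ_self]
  simp [Aa]

theorem Aa_step (a n : ℕ) :
    Aa (a + 1) (n + 1) = Aa (a + 1) n + Aa a (n + 1) * pw 1 (n + 1) := by
  rw [Aa_ext (a + 1) n]
  unfold Aa
  rw [sum_mul, ← sum_add_distrib]
  apply sum_congr rfl
  intro j _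
  have h1 : (((n + 1).choose (j + 1) : ℕ) : ℚ) = (n.choose j : ℕ) + (n.choose (j + 1) : ℕ) := by
    exact_mod_cast Nat.choose_succ_succ n j
  have h2 : ((n : ℚ) + 1) * (n.choose j : ℕ) = ((n + 1).choose (j + 1) : ℕ) * ((j : ℚ) + 1) := by
    exact_mod_cast Nat.add_one_mul_choose_eq n j
  have hn : (n : ℚ) + 1 ≠ 0 := by positivity
  have hj : (j : ℚ) + 1 ≠ 0 := by positivity
  simp only [pw, pow_one]
  push_cast
  have h3 : ((n : ℚ) + 1)⁻¹ * (((n + 1).choose (j + 1) : ℕ) : ℚ)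
      = (n.choose j : ℕ) * ((j : ℚ) + 1)⁻¹ := by
    field_simp
    linear_combination -h2
  rw [pow_succ]
  linear_combination (-1) ^ j * (((j : ℚ) + 1)⁻¹ ^ a) * ((j : ℚ) + 1)⁻¹ * h1
    - (-1) ^ j * (((j : ℚ) + 1)⁻¹ ^ a) * h3

theorem Aa_one (n : ℕ) : Aa 1 n = S1 (pw 1) n := by
  induction n with
  | zero => simp [Aa]
  | succ n ih => rw [Aa_step, ih, Aa_zero, S1_succ]; ring

theorem pw_mul (a b k : ℕ) : pw a k * pw b k = pw (a + b) k := by
  simp [pw, pow_add]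

theorem Aa_two (n : ℕ) : 2 * Aa 2 n = S1 (pw 1) n ^ 2 + S1 (pw 2) n := by
  induction n with
  | zero => simp [Aa]
  | succ n ih =>
    rw [Aa_step, Aa_one, S1_succ, S1_succ]
    have : pw 2 (n + 1) = pw 1 (n + 1) ^ 2 := by simp [pw]
    rw [this]
    linear_combination ih

theorem Aa_three (n : ℕ) :
    6 * Aa 3 n = S1 (pw 1) n ^ 3 + 3 * S1 (pw 1) n * S1 (pw 2) n + 2 * S1 (pw 3) n := by
  induction n with
  | zero => simp [Aa]
  | succ n ih =>
    have h2 := Aa_two (n + 1)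
    rw [Aa_step]
    rw [S1_succ, S1_succ] at h2
    rw [S1_succ, S1_succ, S1_succ]
    have e2 : pw 2 (n + 1) = pw 1 (n + 1) ^ 2 := by simp [pw]
    have e3 : pw 3 (n + 1) = pw 1 (n + 1) ^ 3 := by simp [pw]
    rw [e2] at h2
    rw [e2, e3]
    linear_combination ih + 3 * pw 1 (n + 1) * h2

/-- `∏ (1 - n / i)`, `1 ≤ i ≤ j` -/
def Q (n j : ℕ) : ℚ := ∏ i ∈ range j, (1 - (n : ℚ) * pw 1 (i + 1))

theorem Q_succ (n j : ℕ) : Q n (j + 1) = Q n j * (1 - (n : ℚ) * pw 1 (j + 1)) := by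
  simp [Q, prod_range_succ]

theorem choose_eq_Q (n j : ℕ) (hj : j + 1 ≤ n) :
    (-1) ^ j * (n.choose (j + 1) : ℚ) = (n : ℚ) * pw 1 (j + 1) * Q n j := by
  induction j with
  | zero => simp [Q, pw]
  | succ j ih =>
    have h1 := ih (by omega)
    have h2 : ((n.choose (j + 1 + 1) : ℕ) : ℚ) * (j + 1 + 1)
        = (n.choose (j + 1) : ℕ) * ((n : ℚ) - (j + 1)) := by
      have h3 : ((n.choose (j + 1 + 1) * (j + 1 + 1) : ℕ) : ℚ)
          = ((n.choose (j + 1) * (n - (j + 1)) : ℕ) : ℚ) := by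
        exact_mod_cast Nat.choose_succ_right_eq n (j + 1)
      rw [Nat.cast_mul, Nat.cast_mul, Nat.cast_sub (by omega)] at h3
      push_cast at h3
      linarith
    have hj0 : (j : ℚ) + 1 ≠ 0 := by positivity
    have hj1 : (j : ℚ) + 1 + 1 ≠ 0 := by positivity
    rw [Q_succ]
    simp only [pw, pow_one] at *
    push_cast at *
    rw [pow_succ]
    field_simp at h1 ⊢
    linear_combination -(-1) ^ j * ((j : ℚ) + 1) * h2 - ((n : ℚ) - (j + 1)) * h1

theorem A3 (N : ℕ) (hN : Even N) :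
    6 * (((N : ℚ) + 1) * ∑ j ∈ range N, pw 4 (j + 1) * Q (N + 1) j + pw 3 (N + 1))
      = (S1 (pw 1) N + pw 1 (N + 1)) ^ 3
        + 3 * (S1 (pw 1) N + pw 1 (N + 1)) * (S1 (pw 2) N + pw 2 (N + 1))
        + 2 * (S1 (pw 3) N + pw 3 (N + 1)) := by
  have h := Aa_three (N + 1)
  rw [S1_succ, S1_succ, S1_succ] at h
  rw [← h, Aa, sum_range_succ, hN.neg_one_pow, Nat.choose_self, mul_sum]
  congr 1
  congr 1
  · apply sum_congr rfl
    intro j hj
    rw [mem_range] at hj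
    rw [choose_eq_Q (N + 1) j (by omega)]
    have : pw 4 (j + 1) = pw 1 (j + 1) * pw 3 (j + 1) := by rw [pw_mul]
    rw [this]
    push_cast
    ring
  · simp

/-- `(t-n)! (t+n)! / t!²` -/
def Rr (t n : ℕ) : ℚ := ((t - n).factorial * (t + n).factorial : ℚ) / (t.factorial : ℚ) ^ 2

theorem Rr_succ (t n : ℕ) (h : n ≤ t) :
    Rr (t + 1) n = Rr t n * (1 - (n : ℚ) ^ 2 * pw 2 (t + 1)) := by
  unfold Rr
  rw [show t + 1 - n = (t - n) + 1 by omega, show t + 1 + n = (t + n) + 1 by omega,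
    Nat.factorial_succ, Nat.factorial_succ, Nat.factorial_succ]
  have ht : (t.factorial : ℚ) ≠ 0 := by exact_mod_cast t.factorial_ne_zero
  have ht1 : (t : ℚ) + 1 ≠ 0 := by positivity
  simp only [pw]
  push_cast [Nat.cast_sub h]
  field_simp
  ring

/-- `∑ Rr t n / n^a`, `n ≤ N` -/
def AA (a N t : ℕ) : ℚ := ∑ i ∈ range N, Rr t (i + 1) * pw a (i + 1)

/-- `∑ Rr t n * n`, `n ≤ N` -/
def AM (N t : ℕ) : ℚ := ∑ i ∈ range N, Rr t (i + 1) * ((i + 1 : ℕ) : ℚ)

theorem AA_one_succ (N t : ℕ) (h : N ≤ t) : AA 1 N (t + 1) = AA 1 N t - AM N t * pw 2 (t + 1) := by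
  unfold AA AM
  rw [sum_mul, ← sum_sub_distrib]
  apply sum_congr rfl
  intro i hi
  rw [mem_range] at hi
  rw [Rr_succ t (i + 1) (by omega)]
  have : ((i + 1 : ℕ) : ℚ) * pw 1 (i + 1) = 1 := by
    simp only [pw, pow_one]
    exact mul_inv_cancel₀ (by positivity)
  linear_combination -Rr t (i + 1) * pw 2 (t + 1) * ((i + 1 : ℕ) : ℚ) * this

theorem AA_succ (a N t : ℕ) (h : N ≤ t) :
    AA (a + 2) N (t + 1) = AA (a + 2) N t - AA a N t * pw 2 (t + 1) := by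
  unfold AA
  rw [sum_mul, ← sum_sub_distrib]
  apply sum_congr rfl
  intro i hi
  rw [mem_range] at hi
  rw [Rr_succ t (i + 1) (by omega)]
  have : ((i + 1 : ℕ) : ℚ) ^ 2 * pw (a + 2) (i + 1) = pw a (i + 1) := by
    simp only [pw, pow_add]
    have h0 : ((i + 1 : ℕ) : ℚ) * ((i + 1 : ℕ) : ℚ)⁻¹ = 1 := mul_inv_cancel₀ (by positivity)
    linear_combination ((i + 1 : ℕ) : ℚ)⁻¹ ^ a *
      (((i + 1 : ℕ) : ℚ) * ((i + 1 : ℕ) : ℚ)⁻¹ + 1) * h0
  linear_combination -Rr t (i + 1) * pw 2 (t + 1) * this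

theorem AM_eq (N t : ℕ) (h : N ≤ t) :
    AM N t = (((t - N).factorial * (t + N + 1).factorial : ℚ) / (t.factorial : ℚ) ^ 2
      - (t + 1)) / 2 := by
  have ht : (t.factorial : ℚ) ≠ 0 := by exact_mod_cast t.factorial_ne_zero
  induction N with
  | zero =>
    simp only [AM, range_zero, sum_empty, Nat.sub_zero, add_zero]
    rw [Nat.factorial_succ]
    push_cast
    field_simp
    ring
  | succ N ih =>
    have h1 := ih (by omega)
    obtain ⟨c, rfl⟩ := Nat.exists_eq_add_of_le h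
    unfold AM at *
    rw [sum_range_succ, h1]
    unfold Rr
    rw [show N + 1 + c - (N + 1) = c by omega, show N + 1 + c - N = c + 1 by omega,
      show N + 1 + c + (N + 1) + 1 = (N + 1 + c + (N + 1)) + 1 by omega,
      show N + 1 + c + N + 1 = N + 1 + c + (N + 1) by omega,
      Nat.factorial_succ (N + 1 + c + (N + 1)), Nat.factorial_succ c]
    push_cast
    field_simp
    ring

/-- `(2N+1)! / N!²` -/
def D (N : ℕ) : ℚ := ((2 * N + 1).factorial : ℚ) / (N.factorial : ℚ) ^ 2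

/-- the central binomial coefficient -/
def CB (k : ℕ) : ℚ := ((2 * k).choose k : ℚ)

theorem CB_eq (k : ℕ) : CB k = ((2 * k).factorial : ℚ) / (k.factorial : ℚ) ^ 2 := by
  unfold CB
  rw [Nat.cast_choose ℚ (by omega), show 2 * k - k = k by omega]
  ring

theorem CB_succ (N : ℕ) : CB (N + 1) = 2 * D N * pw 1 (N + 1) := by
  rw [CB_eq, D, show 2 * (N + 1) = 2 * N + 1 + 1 by ring, Nat.factorial_succ (2 * N + 1),
    Nat.factorial_succ N]
  have ht : (N.factorial : ℚ) ≠ 0 := by exact_mod_cast N.factorial_ne_zero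
  simp only [pw, pow_one]
  push_cast
  field_simp
  ring

theorem D_succ (N : ℕ) : D (N + 1) * ((N : ℚ) + 1) = D N * (2 * (2 * N + 3)) := by
  rw [D, D, show 2 * (N + 1) + 1 = 2 * N + 1 + 1 + 1 by ring, Nat.factorial_succ (2 * N + 1 + 1),
    Nat.factorial_succ (2 * N + 1), Nat.factorial_succ N]
  have ht : (N.factorial : ℚ) ≠ 0 := by exact_mod_cast N.factorial_ne_zero
  push_cast
  field_simp
  ring

theorem AM_self (N : ℕ) : AM N N = (D N - (N + 1)) / 2 := by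
  rw [AM_eq N N le_rfl, D, show N + N + 1 = 2 * N + 1 by ring]
  simp

theorem Rr_self (N : ℕ) : Rr N N = CB N := by
  rw [Rr, CB_eq, show N + N = 2 * N by ring]
  simp

theorem AA_one_diag (N : ℕ) :
    AA 1 (N + 1) (N + 1) = AA 1 N N + (3 * CB (N + 1) + 2) / 4 * pw 1 (N + 1) := by
  have h1 : AA 1 (N + 1) (N + 1) = AA 1 N (N + 1) + Rr (N + 1) (N + 1) * pw 1 (N + 1) := by
    simp [AA, sum_range_succ]
  have h2 := CB_succ N
  have h3 : ((N : ℚ) + 1) * pw 1 (N + 1) = 1 := by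
    simp only [pw, pow_one]
    push_cast
    exact mul_inv_cancel₀ (by positivity)
  have h4 : pw 2 (N + 1) = pw 1 (N + 1) ^ 2 := by simp [pw]
  rw [h1, AA_one_succ N N le_rfl, AM_self, Rr_self, h4]
  linear_combination (1 / 4) * pw 1 (N + 1) * h2 + (1 / 2) * pw 1 (N + 1) * h3

theorem L0 (N : ℕ) :
    3 * ∑ i ∈ range N, CB (i + 1) * pw 1 (i + 1) = -2 * S1 (pw 1) N + 4 * AA 1 N N := by
  induction N with
  | zero => simp [AA]
  | succ N ih =>
    rw [sum_range_succ, mul_add, ih, AA_one_diag, S1_succ]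
    ring

theorem AA_three_diag (N : ℕ) :
    AA 3 (N + 1) (N + 1) = AA 3 N N - AA 1 N N * pw 2 (N + 1) + CB (N + 1) * pw 3 (N + 1) := by
  have h1 : AA 3 (N + 1) (N + 1) = AA 3 N (N + 1) + Rr (N + 1) (N + 1) * pw 3 (N + 1) := by
    simp [AA, sum_range_succ]
  rw [h1, AA_succ 1 N N le_rfl, Rr_self]

theorem L2 (N : ℕ) :
    ∑ i ∈ range N, CB (i + 1) * (7 * pw 3 (i + 1) + 3 * S1 (pw 2) i * pw 1 (i + 1))
      = -2 * (S2 (pw 2) (pw 1) N + S1 (pw 3) N) + 4 * AA 3 N N + 4 * S1 (pw 2) N * AA 1 N N := by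
  induction N with
  | zero => simp [AA]
  | succ N ih =>
    rw [sum_range_succ, ih, AA_one_diag, AA_three_diag, S1_succ, S1_succ, S2_succ]
    have e2 : pw 2 (N + 1) = pw 1 (N + 1) ^ 2 := by simp [pw]
    have e3 : pw 3 (N + 1) = pw 1 (N + 1) ^ 3 := by simp [pw]
    rw [e2, e3]
    ring

end Pool.Agent.H39.SC
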