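import Pool.Agent.H39.SC.Exact2

/-!
# Exact identities: the sums of `(k! (N-1-k)!)²`, and the recursion from `p` to `2p`

Helper file for MP_3b7928_nt.
-/

namespace Pool.Agent.H39.SC
open Finset

/-- `k!²` -/
def q (k : ℕ) : ℚ := (k.factorial : ℚ) ^ 2

theorem q_succ (k : ℕ) : q (k + 1) = ((k : ℚ) + 1) ^ 2 * q k := by
  simp only [q, Nat.factorial_succ]
  push_cast
  ring

theorem q_zero : q 0 = 1 := by simp [q]

/-- the sum of `1/m²`, `m ≤ k` -/
abbrev h2 (k : ℕ) : ℚ := S1 (pw 2) k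

theorem h2_succ (k : ℕ) : h2 (k + 1) = h2 k + pw 2 (k + 1) := S1_succ _ _

def V0 (n : ℕ) : ℚ := ∑ k ∈ range n, q k * q (n - 1 - k)

def V2 (n : ℕ) : ℚ := ∑ k ∈ range n, q k * q (n - 1 - k) * (h2 k + h2 (n - 1 - k))

theorem V0_rec (m : ℕ) :
    2 * (2 * (m : ℚ) + 3) * V0 (m + 1) = ((m : ℚ) + 1) ^ 3 * V0 m + 6 * ((m : ℚ) + 1) * q m := by
  have tel : ∑ k ∈ range m, ((2 * ((k + 1 : ℕ) : ℚ) - 3 * (m + 1)) * (q (k + 1) * q (m - (k + 1)))
      - (2 * (k : ℚ) - 3 * (m + 1)) * (q k * q (m - k)))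
      = (2 * (m : ℚ) - 3 * (m + 1)) * (q m * q (m - m))
        - (2 * ((0 : ℕ) : ℚ) - 3 * (m + 1)) * (q 0 * q (m - 0)) :=
    sum_range_sub (fun k : ℕ => (2 * (k : ℚ) - 3 * (m + 1)) * (q k * q (m - k))) m
  have e : V0 (m + 1) = (∑ k ∈ range m, q k * q (m - k)) + q m := by
    simp [V0, sum_range_succ, q_zero]
  have e2 : ∀ k ∈ range m,
      (2 * ((k + 1 : ℕ) : ℚ) - 3 * (m + 1)) * (q (k + 1) * q (m - (k + 1)))
      - (2 * (k : ℚ) - 3 * (m + 1)) * (q k * q (m - k))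
      = 2 * (2 * (m : ℚ) + 3) * (q k * q (m - k))
        - ((m : ℚ) + 1) ^ 3 * (q k * q (m - 1 - k)) := by
    intro k hk
    rw [mem_range] at hk
    obtain ⟨c, rfl⟩ := Nat.exists_eq_add_of_lt hk
    rw [show k + c + 1 - (k + 1) = c by omega, show k + c + 1 - k = c + 1 by omega,
      show k + c + 1 - 1 - k = c by omega, q_succ, q_succ]
    push_cast
    ring
  rw [sum_congr rfl e2, sum_sub_distrib, ← mul_sum, ← mul_sum] at tel
  rw [Nat.sub_self, Nat.sub_zero, q_zero] at tel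
  rw [e]
  have e3 : V0 m = ∑ k ∈ range m, q k * q (m - 1 - k) := rfl
  rw [e3]
  push_cast at tel
  linear_combination tel

theorem V2_rec (m : ℕ) :
    2 * (2 * (m : ℚ) + 3) * V2 (m + 1) = ((m : ℚ) + 1) ^ 3 * V2 m + 4 * ((m : ℚ) + 1) * V0 m
      + 6 * ((m : ℚ) + 1) * q m * h2 m := by
  have tel : ∑ k ∈ range m, ((2 * ((k + 1 : ℕ) : ℚ) - 3 * (m + 1)) *
        (q (k + 1) * q (m - (k + 1)) * (h2 (k + 1) + h2 (m - (k + 1))))
      - (2 * (k : ℚ) - 3 * (m + 1)) * (q k * q (m - k) * (h2 k + h2 (m - k))))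
      = (2 * (m : ℚ) - 3 * (m + 1)) * (q m * q (m - m) * (h2 m + h2 (m - m)))
        - (2 * ((0 : ℕ) : ℚ) - 3 * (m + 1)) * (q 0 * q (m - 0) * (h2 0 + h2 (m - 0))) :=
    sum_range_sub (fun k : ℕ => (2 * (k : ℚ) - 3 * (m + 1)) *
      (q k * q (m - k) * (h2 k + h2 (m - k)))) m
  have e : V2 (m + 1) = (∑ k ∈ range m, q k * q (m - k) * (h2 k + h2 (m - k))) + q m * h2 m := by
    simp [V2, sum_range_succ, q_zero, h2]
  have e2 : ∀ k ∈ range m,
      (2 * ((k + 1 : ℕ) : ℚ) - 3 * (m + 1)) *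
        (q (k + 1) * q (m - (k + 1)) * (h2 (k + 1) + h2 (m - (k + 1))))
      - (2 * (k : ℚ) - 3 * (m + 1)) * (q k * q (m - k) * (h2 k + h2 (m - k)))
      = 2 * (2 * (m : ℚ) + 3) * (q k * q (m - k) * (h2 k + h2 (m - k)))
        - ((m : ℚ) + 1) ^ 3 * (q k * q (m - 1 - k) * (h2 k + h2 (m - 1 - k)))
        - 4 * ((m : ℚ) + 1) * (q k * q (m - 1 - k)) := by
    intro k hk
    rw [mem_range] at hk
    obtain ⟨c, rfl⟩ := Nat.exists_eq_add_of_lt hk
    rw [show k + c + 1 - (k + 1) = c by omega, show k + c + 1 - k = c + 1 by omega,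
      show k + c + 1 - 1 - k = c by omega, q_succ, q_succ, h2_succ, h2_succ]
    have hk1 : (k : ℚ) + 1 ≠ 0 := by positivity
    have hc1 : (c : ℚ) + 1 ≠ 0 := by positivity
    simp only [pw]
    push_cast
    field_simp
    ring
  rw [sum_congr rfl e2, sum_sub_distrib, sum_sub_distrib, ← mul_sum, ← mul_sum, ← mul_sum] at tel
  rw [Nat.sub_self, Nat.sub_zero, q_zero] at tel
  rw [e]
  have e3 : V0 m = ∑ k ∈ range m, q k * q (m - 1 - k) := rfl
  have e4 : V2 m = ∑ k ∈ range m, q k * q (m - 1 - k) * (h2 k + h2 (m - 1 - k)) := rfl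
  have e5 : h2 0 = 0 := by simp [h2]
  rw [e3, e4]
  rw [e5] at tel
  push_cast at tel
  linear_combination tel

theorem B0 (N : ℕ) :
    3 * ∑ i ∈ range N, CB (i + 1) * pw 1 (i + 1) = D N * V0 N / q N := by
  induction N with
  | zero => simp [V0]
  | succ N ih =>
    have h1 := V0_rec N
    have h2' := D_succ N
    have h3 := CB_succ N
    have hq : q N ≠ 0 := by
      have : (N.factorial : ℚ) ≠ 0 := by exact_mod_cast N.factorial_ne_zero
      exact pow_ne_zero 2 this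
    have hn : (N : ℚ) + 1 ≠ 0 := by positivity
    have h5 : D (N + 1) = D N * (2 * (2 * N + 3)) / ((N : ℚ) + 1) := by
      field_simp; linear_combination h2'
    rw [sum_range_succ, mul_add, ih, h3, h5, q_succ]
    simp only [pw, pow_one]
    push_cast
    field_simp
    linear_combination -D N * h1

theorem B2 (N : ℕ) :
    ∑ i ∈ range N, CB (i + 1) * (12 * pw 3 (i + 1) + 9 * h2 i * pw 1 (i + 1))
      = D N * (4 * h2 N * V0 N - V2 N) / q N := by
  induction N with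
  | zero => simp [V0, V2]
  | succ N ih =>
    have h1 := V0_rec N
    have h1' := V2_rec N
    have h2' := D_succ N
    have h3 := CB_succ N
    have hq : q N ≠ 0 := by
      have : (N.factorial : ℚ) ≠ 0 := by exact_mod_cast N.factorial_ne_zero
      exact pow_ne_zero 2 this
    have hn : (N : ℚ) + 1 ≠ 0 := by positivity
    have h5 : D (N + 1) = D N * (2 * (2 * N + 3)) / ((N : ℚ) + 1) := by
      field_simp; linear_combination h2'
    rw [sum_range_succ, ih, h3, h5, q_succ, h2_succ]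
    simp only [pw, pow_one]
    push_cast
    field_simp
    linear_combination -4 * D N * (h2 N * ((N : ℚ) + 1) ^ 2 + 1) * h1
      + D N * ((N : ℚ) + 1) ^ 2 * h1'

/-- the numbers `Am(N+k) / (N+1+k)²` -/
def nu (N k : ℕ) : ℚ := AM N (N + k) * pw 2 (N + 1 + k)

/-- the numbers `1/(N+1+k)²` -/
def cc (N k : ℕ) : ℚ := pw 2 (N + 1 + k)

theorem AA1_line (N l : ℕ) :
    AA 1 N (N + 1 + l) = AA 1 N N - AM N N * pw 2 (N + 1) - S1 (nu N) l := by
  induction l with
  | zero => rw [add_zero, AA_one_succ N N le_rfl]; simp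
  | succ l ih =>
    rw [show N + 1 + (l + 1) = (N + 1 + l) + 1 by ring, AA_one_succ N (N + 1 + l) (by omega), ih,
      S1_succ, nu, show N + (l + 1) = N + 1 + l by ring,
      show N + 1 + (l + 1) = N + 1 + l + 1 by ring]
    ring

theorem AA3_line (N l : ℕ) :
    AA 3 N (N + 1 + l) = (AA 3 N N - AA 1 N N * pw 2 (N + 1))
      - (AA 1 N N - AM N N * pw 2 (N + 1)) * S1 (cc N) l + S2 (nu N) (cc N) l := by
  induction l with
  | zero => rw [add_zero, AA_succ 1 N N le_rfl]; simp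
  | succ l ih =>
    rw [show N + 1 + (l + 1) = (N + 1 + l) + 1 by ring, AA_succ 1 N (N + 1 + l) (by omega), ih,
      S1_succ, S2_succ, AA1_line, cc, show N + 1 + (l + 1) = N + 1 + l + 1 by ring]
    ring

theorem AA5_line (N l : ℕ) :
    AA 5 N (N + 1 + l) = (AA 5 N N - AA 3 N N * pw 2 (N + 1))
      - (AA 3 N N - AA 1 N N * pw 2 (N + 1)) * S1 (cc N) l
      + (AA 1 N N - AM N N * pw 2 (N + 1)) * S2 (cc N) (cc N) l
      - S3 (nu N) (cc N) (cc N) l := by
  induction l with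
  | zero => rw [add_zero, AA_succ 3 N N le_rfl]; simp
  | succ l ih =>
    rw [show N + 1 + (l + 1) = (N + 1 + l) + 1 by ring, AA_succ 3 N (N + 1 + l) (by omega), ih,
      S1_succ, S2_succ, S3_succ, AA3_line, cc, show N + 1 + (l + 1) = N + 1 + l + 1 by ring]
    ring

end Pool.Agent.H39.SC
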