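import Pool.Agent.H39.SC.Cong8

/-!
# The congruence for `∑ C(2k,k) / k³` modulo `p⁴`

Helper file for MP_3b7928_nt.  Here `p = N + 1` is a prime greater than `7`.
-/

namespace Pool.Agent.H39.SC
open Finset

section
variable {N : ℕ} [hp : Fact (N + 1).Prime]

section
variable {h : ℚ} (hh : h ∈ O (N + 1)) (hH : S1 (pw 1) N = ((N + 1 : ℕ) : ℚ) ^ 2 * h)
  (h7 : 7 < N + 1) (hN : Even N)
include hh hH h7 hN

/-- `H(1,2) ≡ -3h` modulo `p` -/
theorem S12_app : M (N + 1) 1 (S2 (pw 1) (pw 2) N + 3 * h) := by
  have h1 := (e6 hh hH h7 hN).mono (show 1 ≤ 4 by omega)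
  have h2 := rev2_M (N := N) 2 1
  norm_num at h2
  have h3 := (H3 h7).mono (show 1 ≤ 2 by omega)
  have m1 : S3 (pw 2) (pw 2) (pw 1) N ∈ O (N + 1) := S3_mem (Ov_pw 2) (Ov_pw 2) (Ov_pw 1) le_rfl
  have m2 : M (N + 1) 1 (((N + 1 : ℕ) : ℚ) ^ 1 * (6 * ((N + 1 : ℕ) : ℚ) ^ 2 * h ^ 2
      + 3 * ((N + 1 : ℕ) : ℚ) * S3 (pw 2) (pw 2) (pw 1) N)) := M_pow 1 (by (repeat' (first | with_reducible assumption | with_reducible exact nat_mem _ | with_reducible exact one_mem _ | with_reducible exact zero_mem _ | with_reducible exact ofNat_mem _ _ | with_reducible apply add_mem | with_reducible apply sub_mem | with_reducible apply mul_mem | with_reducible apply pow_mem | with_reducible apply neg_mem)))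
  have h4 : M (N + 1) 1 ((3 : ℕ) * (S2 (pw 1) (pw 2) N + 3 * h)) :=
    ((((h2.smul 3 (by (repeat' (first | with_reducible assumption | with_reducible exact nat_mem _ | with_reducible exact one_mem _ | with_reducible exact zero_mem _ | with_reducible exact ofNat_mem _ _ | with_reducible apply add_mem | with_reducible apply sub_mem | with_reducible apply mul_mem | with_reducible apply pow_mem | with_reducible apply neg_mem)))).sub h1).sub (h3.smul 2 two_mem)).sub m2).congr (by push_cast; ring)
  exact h4.of_nat_mul (not_dvd_of_lt (by omega) (by omega))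

theorem W0_fin : M (N + 1) 2 (V0 N / q N + 8 * ((N + 1 : ℕ) : ℚ) * h) := by
  have h1 := W0_app2 (N := N)
  have h2 := (H2_app hH h7).mono (show 2 ≤ 3 by omega)
  have h3 := (S12_app hh hH h7 hN).pmul 1
  have h4 := ((H3 h7).pmul 1).mono (show 2 ≤ 1 + 2 by omega)
  exact (((h1.add h2).add (h3.smul 2 two_mem)).add (h4.smul 2 two_mem)).congr (by ring)

omit hh hH h7 hN in
theorem V0_mem : V0 N / q N ∈ O (N + 1) := by
  rw [V0_bb]
  exact sum_mem fun j _ => bb_mem j

/-- `3 ∑ C(2k,k)/k ≡ -8 H₁` modulo `p³` -/
theorem C1_fin : M (N + 1) 3 (D N * (V0 N / q N) + 8 * ((N + 1 : ℕ) : ℚ) ^ 2 * h) := by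
  have h1 := (D_app h7).smulr _ (V0_mem (N := N))
  have h2 := (W0_fin hh hH h7 hN).pmul 1
  exact (h1.add h2).congr (by ring)

omit hp hh hH h7 hN in
theorem a0_eq : 4 * AA 1 N N = D N * (V0 N / q N) + 2 * S1 (pw 1) N := by
  have h1 := L0 N
  have h2 := B0 N
  rw [h2] at h1
  rw [← mul_div_assoc]
  linear_combination -h1

theorem a0_fin : M (N + 1) 3 (4 * AA 1 N N + 6 * ((N + 1 : ℕ) : ℚ) ^ 2 * h) := by
  have h1 := C1_fin hh hH h7 hN
  rw [a0_eq, hH]
  exact h1.congr (by ring)

theorem a2_fin : M (N + 1) 4 (4 * AA 3 N N - 12 * ((N + 1 : ℕ) : ℚ) ^ 3 * h ^ 2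
    + 2 * ((N + 1 : ℕ) : ℚ) ^ 2 * S3 (pw 1) (pw 2) (pw 2) N
    - 4 * ((N + 1 : ℕ) : ℚ) ^ 3 * (S3 (pw 1) (pw 3) (pw 2) N + S3 (pw 1) (pw 2) (pw 3) N)) := by
  have h1 := AA5_line N N
  have hu : ((N + 1 : ℕ) : ℚ) * pw 1 (N + 1) = 1 := by
    simp only [pw, pow_one]
    exact mul_inv_cancel₀ (by positivity)
  rw [pw_eq 2] at h1
  generalize pw 1 (N + 1) = u at *
  have h2 : AA 3 N N = ((N + 1 : ℕ) : ℚ) ^ 2 * (AA 5 N N - AA 5 N (N + 1 + N))
      - (((N + 1 : ℕ) : ℚ) ^ 2 * AA 3 N N - AA 1 N N) * S1 (cc N) N
      + (((N + 1 : ℕ) : ℚ) ^ 2 * AA 1 N N - AM N N) * S2 (cc N) (cc N) N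
      - ((N + 1 : ℕ) : ℚ) ^ 2 * S3 (nu N) (cc N) (cc N) N := by
    linear_combination ((N + 1 : ℕ) : ℚ) ^ 2 * h1 + (-AA 3 N N + AA 1 N N * S1 (cc N) N
      - AM N N * S2 (cc N) (cc N) N) * (((N + 1 : ℕ) : ℚ) * u + 1) * hu
  have b1 := AA_M h7 hN 5 (by decide) N 1 one_pos (by ring)
  have b2 := AA_M h7 hN 5 (by decide) (N + 1 + N) 2 two_pos (by ring)
  have b3 := AA_M h7 hN 3 (by decide) N 1 one_pos (by ring)
  have a0 := a0_fin hh hH h7 hN
  have mC2 : S1 (cc N) N ∈ O (N + 1) := S1_mem (fun i hi => cc_O hi) le_rfl
  have m22 := C22_M h7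
  have mC22 : S2 (cc N) (cc N) N ∈ O (N + 1) := m22.mem
  have ha0 : AA 1 N N ∈ O (N + 1) := by
    have : 4 * AA 1 N N ∈ O (N + 1) := by
      have h5 := add_mem a0.mem (neg_mem (show 6 * ((N + 1 : ℕ) : ℚ) ^ 2 * h ∈ O (N + 1) by (repeat' (first | with_reducible assumption | with_reducible exact nat_mem _ | with_reducible exact one_mem _ | with_reducible exact zero_mem _ | with_reducible exact ofNat_mem _ _ | with_reducible apply add_mem | with_reducible apply sub_mem | with_reducible apply mul_mem | with_reducible apply pow_mem | with_reducible apply neg_mem))))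
      simpa using h5
    have h6 : M (N + 1) 0 ((4 : ℕ) * AA 1 N N) := M_of_mem (by push_cast; exact this)
    exact (h6.of_nat_mul (not_dvd_of_lt (by omega) (by omega))).mem
  -- M 1 of a0
  have a01 : M (N + 1) 2 (AA 1 N N) := by
    have h5 : M (N + 1) 2 (((N + 1 : ℕ) : ℚ) ^ 2 * (6 * h)) := M_pow 2 (by (repeat' (first | with_reducible assumption | with_reducible exact nat_mem _ | with_reducible exact one_mem _ | with_reducible exact zero_mem _ | with_reducible exact ofNat_mem _ _ | with_reducible apply add_mem | with_reducible apply sub_mem | with_reducible apply mul_mem | with_reducible apply pow_mem | with_reducible apply neg_mem)))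
    have h6 : M (N + 1) 2 ((4 : ℕ) * AA 1 N N) :=
      ((a0.mono (show 2 ≤ 3 by omega)).sub h5).congr (by push_cast; ring)
    exact h6.of_nat_mul (not_dvd_of_lt (by omega) (by omega))
  have c2 : M (N + 1) 2 (S1 (cc N) N + 2 * ((N + 1 : ℕ) : ℚ) * h) :=
    ((C2_app h7).add ((H2_app hH h7).mono (show 2 ≤ 3 by omega))).congr (by ring)
  have c21 : M (N + 1) 1 (S1 (cc N) N) := by
    have h5 : M (N + 1) 1 (((N + 1 : ℕ) : ℚ) ^ 1 * (2 * h)) := M_pow 1 (by (repeat' (first | with_reducible assumption | with_reducible exact nat_mem _ | with_reducible exact one_mem _ | with_reducible exact zero_mem _ | with_reducible exact ofNat_mem _ _ | with_reducible apply add_mem | with_reducible apply sub_mem | with_reducible apply mul_mem | with_reducible apply pow_mem | with_reducible apply neg_mem)))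
    exact ((c2.mono (show 1 ≤ 2 by omega)).sub h5).congr (by ring)
  -- the terms
  have t1 : M (N + 1) 4 (((N + 1 : ℕ) : ℚ) ^ 2 * (4 * (AA 5 N N - AA 5 N (N + 1 + N)))) :=
    ((b1.sub b2).smul 4 (by (repeat' (first | with_reducible assumption | with_reducible exact nat_mem _ | with_reducible exact one_mem _ | with_reducible exact zero_mem _ | with_reducible exact ofNat_mem _ _ | with_reducible apply add_mem | with_reducible apply sub_mem | with_reducible apply mul_mem | with_reducible apply pow_mem | with_reducible apply neg_mem)))).pmul 2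
  have t2 : M (N + 1) 4 (4 * (((N + 1 : ℕ) : ℚ) ^ 2 * (AA 3 N N * S1 (cc N) N))) :=
    (((b3.smulr _ mC2).pmul 2)).smul 4 (by (repeat' (first | with_reducible assumption | with_reducible exact nat_mem _ | with_reducible exact one_mem _ | with_reducible exact zero_mem _ | with_reducible exact ofNat_mem _ _ | with_reducible apply add_mem | with_reducible apply sub_mem | with_reducible apply mul_mem | with_reducible apply pow_mem | with_reducible apply neg_mem)))
  -- 4 a0 C2 = 12 p³ h²
  have t3 : M (N + 1) 4 (4 * AA 1 N N * S1 (cc N) N - 12 * ((N + 1 : ℕ) : ℚ) ^ 3 * h ^ 2) := by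
    have h5 : M (N + 1) (3 + 1) ((4 * AA 1 N N + 6 * ((N + 1 : ℕ) : ℚ) ^ 2 * h) * S1 (cc N) N) := a0.mul c21
    have h6 : M (N + 1) (2 + 2) (((N + 1 : ℕ) : ℚ) ^ 2 * (h * (S1 (cc N) N + 2 * ((N + 1 : ℕ) : ℚ) * h))) :=
      (c2.smul h hh).pmul 2
    exact (h5.sub (h6.smul 6 (by (repeat' (first | with_reducible assumption | with_reducible exact nat_mem _ | with_reducible exact one_mem _ | with_reducible exact zero_mem _ | with_reducible exact ofNat_mem _ _ | with_reducible apply add_mem | with_reducible apply sub_mem | with_reducible apply mul_mem | with_reducible apply pow_mem | with_reducible apply neg_mem))))).congr (by ring)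
  have t4 : M (N + 1) 4 (4 * (((N + 1 : ℕ) : ℚ) ^ 2 * (AA 1 N N * S2 (cc N) (cc N) N))) :=
    (((a01.smulr _ mC22).pmul 2)).smul 4 (by (repeat' (first | with_reducible assumption | with_reducible exact nat_mem _ | with_reducible exact one_mem _ | with_reducible exact zero_mem _ | with_reducible exact ofNat_mem _ _ | with_reducible apply add_mem | with_reducible apply sub_mem | with_reducible apply mul_mem | with_reducible apply pow_mem | with_reducible apply neg_mem)))
  have t5 : M (N + 1) 4 (4 * (AM N N * S2 (cc N) (cc N) N)) :=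
    ((AM_M h7).mul m22).smul 4 (by (repeat' (first | with_reducible assumption | with_reducible exact nat_mem _ | with_reducible exact one_mem _ | with_reducible exact zero_mem _ | with_reducible exact ofNat_mem _ _ | with_reducible apply add_mem | with_reducible apply sub_mem | with_reducible apply mul_mem | with_reducible apply pow_mem | with_reducible apply neg_mem)))
  have t6 : M (N + 1) 4 (((N + 1 : ℕ) : ℚ) ^ 2 * (4 * (S3 (nu N) (cc N) (cc N) N
    - (1 / 2 * S3 (pw 1) (pw 2) (pw 2) N
      - ((N + 1 : ℕ) : ℚ) * (S3 (pw 1) (pw 3) (pw 2) N + S3 (pw 1) (pw 2) (pw 3) N))))) :=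
    ((nucc_app h7).smul 4 (by (repeat' (first | with_reducible assumption | with_reducible exact nat_mem _ | with_reducible exact one_mem _ | with_reducible exact zero_mem _ | with_reducible exact ofNat_mem _ _ | with_reducible apply add_mem | with_reducible apply sub_mem | with_reducible apply mul_mem | with_reducible apply pow_mem | with_reducible apply neg_mem)))).pmul 2
  exact (((((t1.sub t2).add t3).add t4).sub t5).sub t6).congr (by linear_combination 4 * h2)

theorem W2_fin : M (N + 1) 3 (V2 N / q N - (16 * ((N + 1 : ℕ) : ℚ) ^ 2 * h ^ 2 - S1 (pw 4) N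
    - 2 * ((N + 1 : ℕ) : ℚ) * (S2 (pw 1) (pw 4) N + S2 (pw 3) (pw 2) N)
    - 4 * ((N + 1 : ℕ) : ℚ) ^ 2 * (S3 (pw 1) (pw 1) (pw 4) N
      + (S3 (pw 1) (pw 3) (pw 2) N + S3 (pw 3) (pw 1) (pw 2) N)))) := by
  have h1 := W2_app (N := N)
  have d24 := (D6 h7 2 4 (by omega) (by omega) rfl).pmul 2
  have d15 := (D6 h7 1 5 (by omega) (by omega) rfl).pmul 2
  have d42 := (D6 h7 4 2 (by omega) (by omega) rfl).pmul 2
  have d33 := (D6 h7 3 3 (by omega) (by omega) rfl).pmul 2
  have d6 := (H_M1 h7 6 (by omega) (by omega)).pmul 2
  have d5 := (H5 h7).pmul 1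
  have mW := V0_mem (N := N)
  have g1 := (H2_app hH h7).smulr _ mW
  have g2 : M (N + 1) (1 + 2) (((N + 1 : ℕ) : ℚ) ^ 1 * (h * (V0 N / q N + 8 * ((N + 1 : ℕ) : ℚ) * h))) :=
    ((W0_fin hh hH h7 hN).smul h hh).pmul 1
  refine ((((((((h1.add g1).sub (g2.smul 2 two_mem)).sub (d5.smul 4 (by (repeat' (first | with_reducible assumption | with_reducible exact nat_mem _ | with_reducible exact one_mem _ | with_reducible exact zero_mem _ | with_reducible exact ofNat_mem _ _ | with_reducible apply add_mem | with_reducible apply sub_mem | with_reducible apply mul_mem | with_reducible apply pow_mem | with_reducible apply neg_mem))))).sub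
    (d24.smul 3 (by (repeat' (first | with_reducible assumption | with_reducible exact nat_mem _ | with_reducible exact one_mem _ | with_reducible exact zero_mem _ | with_reducible exact ofNat_mem _ _ | with_reducible apply add_mem | with_reducible apply sub_mem | with_reducible apply mul_mem | with_reducible apply pow_mem | with_reducible apply neg_mem))))).sub (d15.smul 8 (by (repeat' (first | with_reducible assumption | with_reducible exact nat_mem _ | with_reducible exact one_mem _ | with_reducible exact zero_mem _ | with_reducible exact ofNat_mem _ _ | with_reducible apply add_mem | with_reducible apply sub_mem | with_reducible apply mul_mem | with_reducible apply pow_mem | with_reducible apply neg_mem))))).sub (d42.smul 7 (by (repeat' (first | with_reducible assumption | with_reducible exact nat_mem _ | with_reducible exact one_mem _ | with_reducible exact zero_mem _ | with_reducible exact ofNat_mem _ _ | with_reducible apply add_mem | with_reducible apply sub_mem | with_reducible apply mul_mem | with_reducible apply pow_mem | with_reducible apply neg_mem))))).sub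
    (d33.smul 4 (by (repeat' (first | with_reducible assumption | with_reducible exact nat_mem _ | with_reducible exact one_mem _ | with_reducible exact zero_mem _ | with_reducible exact ofNat_mem _ _ | with_reducible apply add_mem | with_reducible apply sub_mem | with_reducible apply mul_mem | with_reducible apply pow_mem | with_reducible apply neg_mem))))).sub (d6.smul 10 (by (repeat' (first | with_reducible assumption | with_reducible exact nat_mem _ | with_reducible exact one_mem _ | with_reducible exact zero_mem _ | with_reducible exact ofNat_mem _ _ | with_reducible apply add_mem | with_reducible apply sub_mem | with_reducible apply mul_mem | with_reducible apply pow_mem | with_reducible apply neg_mem))))).congr ?_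
  ring

theorem main_h : M (N + 1) 4 (27 * (∑ i ∈ range N, CB (i + 1) * pw 3 (i + 1)) + 54 * h
    + 13 * S1 (pw 3) N) := by
  have l2 := L2 N
  have b2 := B2 N
  have c6 := e6 hh hH h7 hN
  have c2 := a2_fin hh hH h7 hN
  have m2 := H_M1 h7 2 (by omega) (by omega)
  have g0 : M (N + 1) (1 + 3) (S1 (pw 2) N * (4 * AA 1 N N + 6 * ((N + 1 : ℕ) : ℚ) ^ 2 * h)) :=
    m2.mul (a0_fin hh hH h7 hN)
  have g1 : M (N + 1) (1 + 3) (S1 (pw 2) N * (D N * (V0 N / q N) + 8 * ((N + 1 : ℕ) : ℚ) ^ 2 * h)) :=
    m2.mul (C1_fin hh hH h7 hN)
  have g2 : M (N + 1) 4 (((N + 1 : ℕ) : ℚ) ^ 2 * (h * (S1 (pw 2) N + 2 * ((N + 1 : ℕ) : ℚ) * h))) :=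
    (((H2_app hH h7).smul h hh).pmul 2).mono (by omega)
  have w2 := W2_fin hh hH h7 hN
  have mY : S2 (pw 1) (pw 4) N ∈ O (N + 1) := S2_mem (Ov_pw 1) (Ov_pw 4) le_rfl
  have mY' : S2 (pw 3) (pw 2) N ∈ O (N + 1) := S2_mem (Ov_pw 3) (Ov_pw 2) le_rfl
  have mη : S3 (pw 1) (pw 1) (pw 4) N ∈ O (N + 1) := S3_mem (Ov_pw 1) (Ov_pw 1) (Ov_pw 4) le_rfl
  have mβ : S3 (pw 1) (pw 3) (pw 2) N ∈ O (N + 1) := S3_mem (Ov_pw 1) (Ov_pw 3) (Ov_pw 2) le_rfl
  have mγ : S3 (pw 3) (pw 1) (pw 2) N ∈ O (N + 1) := S3_mem (Ov_pw 3) (Ov_pw 1) (Ov_pw 2) le_rfl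
  have W1' : M (N + 1) 1 (V2 N / q N) := by
    have h4 := H_M1 h7 4 (by omega) (by omega)
    have h5 : M (N + 1) 1 (((N + 1 : ℕ) : ℚ) ^ 1 * (16 * ((N + 1 : ℕ) : ℚ) * h ^ 2
        - 2 * (S2 (pw 1) (pw 4) N + S2 (pw 3) (pw 2) N)
        - 4 * ((N + 1 : ℕ) : ℚ) * (S3 (pw 1) (pw 1) (pw 4) N
        + (S3 (pw 1) (pw 3) (pw 2) N + S3 (pw 3) (pw 1) (pw 2) N)))) := M_pow 1 (by (repeat' (first | with_reducible assumption | with_reducible exact nat_mem _ | with_reducible exact one_mem _ | with_reducible exact zero_mem _ | with_reducible exact ofNat_mem _ _ | with_reducible apply add_mem | with_reducible apply sub_mem | with_reducible apply mul_mem | with_reducible apply pow_mem | with_reducible apply neg_mem)))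
    exact (((w2.mono (show 1 ≤ 3 by omega)).sub h4).add h5).congr (by ring)
  have g3 : M (N + 1) (3 + 1) ((D N - ((N + 1 : ℕ) : ℚ)) * (V2 N / q N)) := (D_app h7).mul W1'
  have w2' := w2.pmul 1
  have c2' := E2 h7
  have c4 := (E4 h7).pmul 2
  have c5 := (E5 h7).pmul 2
  have c3 := e3 hh hH h7
  have c7 := (E7 h7).pmul 2
  obtain ⟨k1, k2, om⟩ := W6 h7
  have k1' := k1.pmul 3
  have k2' := k2.pmul 3
  have om' := om.pmul 3
  have et := (eta_rel hh hH h7 hN).pmul 3
  have key : 27 * (∑ i ∈ range N, CB (i + 1) * pw 3 (i + 1))
      = -18 * (S2 (pw 2) (pw 1) N + S1 (pw 3) N) + 36 * AA 3 N N + 36 * (S1 (pw 2) N * AA 1 N N)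
        - 12 * (S1 (pw 2) N * (D N * (V0 N / q N))) + 3 * (D N * (V2 N / q N)) := by
    have e : 27 * (∑ i ∈ range N, CB (i + 1) * pw 3 (i + 1))
        = 9 * (∑ i ∈ range N, CB (i + 1) * (7 * pw 3 (i + 1) + 3 * S1 (pw 2) i * pw 1 (i + 1)))
        - 3 * (∑ i ∈ range N, CB (i + 1) * (12 * pw 3 (i + 1) + 9 * h2 i * pw 1 (i + 1))) := by
      simp only [mul_sum, ← sum_sub_distrib]
      apply sum_congr rfl
      intro i _
      rw [show h2 i = S1 (pw 2) i from rfl]
      ring
    rw [e, l2, b2]
    rw [show h2 N = S1 (pw 2) N from rfl]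
    have hq : q N ≠ 0 := by
      have : (N.factorial : ℚ) ≠ 0 := by exact_mod_cast N.factorial_ne_zero
      exact pow_ne_zero 2 this
    field_simp
    ring
  have f1 := ((c6.smul 6 (by (repeat' (first | with_reducible assumption | with_reducible exact nat_mem _ | with_reducible exact one_mem _ | with_reducible exact zero_mem _ | with_reducible exact ofNat_mem _ _ | with_reducible apply add_mem | with_reducible apply sub_mem | with_reducible apply mul_mem | with_reducible apply pow_mem | with_reducible apply neg_mem)))).neg.add (c2.smul 9 (by (repeat' (first | with_reducible assumption | with_reducible exact nat_mem _ | with_reducible exact one_mem _ | with_reducible exact zero_mem _ | with_reducible exact ofNat_mem _ _ | with_reducible apply add_mem | with_reducible apply sub_mem | with_reducible apply mul_mem | with_reducible apply pow_mem | with_reducible apply neg_mem))))).add (g0.smul 9 (by (repeat' (first | with_reducible assumption | with_reducible exact nat_mem _ | with_reducible exact one_mem _ | with_reducible exact zero_mem _ | with_reducible exact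 ofNat_mem _ _ | with_reducible apply add_mem | with_reducible apply sub_mem | with_reducible apply mul_mem | with_reducible apply pow_mem | with_reducible apply neg_mem))))
  have f2 := ((f1.sub (g1.smul 12 (by (repeat' (first | with_reducible assumption | with_reducible exact nat_mem _ | with_reducible exact one_mem _ | with_reducible exact zero_mem _ | with_reducible exact ofNat_mem _ _ | with_reducible apply add_mem | with_reducible apply sub_mem | with_reducible apply mul_mem | with_reducible apply pow_mem | with_reducible apply neg_mem))))).add (g2.smul 42 (by (repeat' (first | with_reducible assumption | with_reducible exact nat_mem _ | with_reducible exact one_mem _ | with_reducible exact zero_mem _ | with_reducible exact ofNat_mem _ _ | with_reducible apply add_mem | with_reducible apply sub_mem | with_reducible apply mul_mem | with_reducible apply pow_mem | with_reducible apply neg_mem))))).add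
    (g3.smul 3 (by (repeat' (first | with_reducible assumption | with_reducible exact nat_mem _ | with_reducible exact one_mem _ | with_reducible exact zero_mem _ | with_reducible exact ofNat_mem _ _ | with_reducible apply add_mem | with_reducible apply sub_mem | with_reducible apply mul_mem | with_reducible apply pow_mem | with_reducible apply neg_mem))))
  have f3 := ((f2.add (w2'.smul 3 (by (repeat' (first | with_reducible assumption | with_reducible exact nat_mem _ | with_reducible exact one_mem _ | with_reducible exact zero_mem _ | with_reducible exact ofNat_mem _ _ | with_reducible apply add_mem | with_reducible apply sub_mem | with_reducible apply mul_mem | with_reducible apply pow_mem | with_reducible apply neg_mem))))).sub c2').sub (c4.smul 3 (by (repeat' (first | with_reducible assumption | with_reducible exact nat_mem _ | with_reducible exact one_mem _ | with_reducible exact zero_mem _ | with_reducible exact ofNat_mem _ _ | with_reducible apply add_mem | with_reducible apply sub_mem | with_reducible apply mul_mem | with_reducible apply pow_mem | with_reducible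 apply neg_mem))))
  have f4 := ((f3.sub (c5.smul 6 (by (repeat' (first | with_reducible assumption | with_reducible exact nat_mem _ | with_reducible exact one_mem _ | with_reducible exact zero_mem _ | with_reducible exact ofNat_mem _ _ | with_reducible apply add_mem | with_reducible apply sub_mem | with_reducible apply mul_mem | with_reducible apply pow_mem | with_reducible apply neg_mem))))).add (c3.smul 3 (by (repeat' (first | with_reducible assumption | with_reducible exact nat_mem _ | with_reducible exact one_mem _ | with_reducible exact zero_mem _ | with_reducible exact ofNat_mem _ _ | with_reducible apply add_mem | with_reducible apply sub_mem | with_reducible apply mul_mem | with_reducible apply pow_mem | with_reducible apply neg_mem))))).sub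
    (c7.smul 18 (by (repeat' (first | with_reducible assumption | with_reducible exact nat_mem _ | with_reducible exact one_mem _ | with_reducible exact zero_mem _ | with_reducible exact ofNat_mem _ _ | with_reducible apply add_mem | with_reducible apply sub_mem | with_reducible apply mul_mem | with_reducible apply pow_mem | with_reducible apply neg_mem))))
  have f5 := (((f4.add (k1'.smul 36 (by (repeat' (first | with_reducible assumption | with_reducible exact nat_mem _ | with_reducible exact one_mem _ | with_reducible exact zero_mem _ | with_reducible exact ofNat_mem _ _ | with_reducible apply add_mem | with_reducible apply sub_mem | with_reducible apply mul_mem | with_reducible apply pow_mem | with_reducible apply neg_mem))))).add (k2'.smul 36 (by (repeat' (first | with_reducible assumption | with_reducible exact nat_mem _ | with_reducible exact one_mem _ | with_reducible exact zero_mem _ | with_reducible exact ofNat_mem _ _ | with_reducible apply add_mem | with_reducible apply sub_mem | with_reducible apply mul_mem | with_reducible apply pow_mem | with_reducible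 apply neg_mem))))).sub
    (om'.smul 12 (by (repeat' (first | with_reducible assumption | with_reducible exact nat_mem _ | with_reducible exact one_mem _ | with_reducible exact zero_mem _ | with_reducible exact ofNat_mem _ _ | with_reducible apply add_mem | with_reducible apply sub_mem | with_reducible apply mul_mem | with_reducible apply pow_mem | with_reducible apply neg_mem))))).add (et.smul 18 (by (repeat' (first | with_reducible assumption | with_reducible exact nat_mem _ | with_reducible exact one_mem _ | with_reducible exact zero_mem _ | with_reducible exact ofNat_mem _ _ | with_reducible apply add_mem | with_reducible apply sub_mem | with_reducible apply mul_mem | with_reducible apply pow_mem | with_reducible apply neg_mem))))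
  refine f5.congr ?_
  linear_combination key

end

end

end Pool.Agent.H39.SC
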